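import Mathlib

/-! MP_4e7804_co, upper bound, module Dirs (120 lines): rational normal directions of vertices.

PROOF. `α ∈ S` by `extremePoints_convexHull_subset`. `α` is not in the convex hull `Q` of
`S \ {α}` (if it is, `α = ∑ λ_β β` with at least two... : an extreme point of a convex set `C ⊇ Q`
which is in the hull of points of `C` different from it: `extremePoints ℝ C ∩ convexHull (S \ {α})`:
use `extremePoints_convexHull_subset` for `Q`: `α` is extreme in the larger set hence extreme in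
`Q`, so `α ∈ S \ {α}`, contradiction; `inter_extremePoints_subset_extremePoints_of_subset`). `Q` is
compact and convex (or empty), so there is `y0 : Fin m → ℝ` with `∑ α_i y0_i < ∑ x_i y0_i` for all
`x ∈ Q` (`geometric_hahn_banach_point_closed`/`geometric_hahn_banach_closed_point`, continuous
linear functionals on `Fin m → ℝ` are `x ↦ ∑ x_i y_i`). The set `U` of all `y : Fin m → ℝ` with
`∑ α_i y_i < ∑ β_i y_i` for all `β ∈ S \ {α}` is open and not empty; the set of all `y ∈ U` with
`∑ μ_i y_i ≠ 0` for all `μ ∈ Hy` is open and not empty (finitely many hyperplanes have dense open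
complements), so it contains a rational point (`Dense` of rational vectors:
`Rat.isDenseEmbedding_coe_real`/`Rat.denseRange_cast`, `DenseRange.piMap`). -/

set_option autoImplicit false

open Finset

namespace Pool.Agent.Lib.MP_4e7804_co

theorem dirs_avoid {m : ℕ} (Hy : Finset (Fin m → ℝ)) (hHy : ∀ μ ∈ Hy, μ ≠ 0)
    (U : Set (Fin m → ℝ)) (hU : IsOpen U) (hne : U.Nonempty) :
    ∃ y : Fin m → ℚ, (fun i => (y i : ℝ)) ∈ U ∧ ∀ μ ∈ Hy, ∑ i, μ i * (y i : ℝ) ≠ 0 := by
  classical
  induction Hy using Finset.induction_on generalizing U with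
  | empty =>
    have hd : DenseRange (Pi.map (fun (_ : Fin m) (q : ℚ) => (q : ℝ))) :=
      DenseRange.piMap (fun _ => Rat.denseRange_cast)
    obtain ⟨y, hy⟩ := hd.exists_mem_open hU hne
    exact ⟨y, hy, by simp⟩
  | insert μ Hy hμ ih =>
    have hμ0 : μ ≠ 0 := hHy μ (mem_insert_self _ _)
    let L : (Fin m → ℝ) →ₗ[ℝ] ℝ := ∑ i, μ i • LinearMap.proj i
    have hL : ∀ y, L y = ∑ i, μ i * y i := by
      intro y
      simp [L]
    have hcont : Continuous (fun y : Fin m → ℝ => ∑ i, μ i * y i) := by fun_prop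
    have hopen : IsOpen (U ∩ {y | ∑ i, μ i * y i ≠ 0}) :=
      hU.inter (isOpen_ne_fun hcont continuous_const)
    have hnon : (U ∩ {y | ∑ i, μ i * y i ≠ 0}).Nonempty := by
      by_contra hcon
      rw [Set.not_nonempty_iff_eq_empty] at hcon
      have hsub : U ⊆ (LinearMap.ker L : Set (Fin m → ℝ)) := by
        intro y hy
        rw [SetLike.mem_coe, LinearMap.mem_ker, hL]
        by_contra h
        have h1 : y ∈ (U ∩ {y | ∑ i, μ i * y i ≠ 0}) := ⟨hy, h⟩
        rw [hcon] at h1
        exact h1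
      have htop := Submodule.eq_top_of_nonempty_interior' (LinearMap.ker L)
        (hne.mono (interior_maximal hsub hU))
      have h0 : L μ = 0 := by
        have h1 : μ ∈ LinearMap.ker L := by
          rw [htop]
          trivial
        exact h1
      rw [hL] at h0
      apply hμ0
      funext i
      have h2 := (sum_eq_zero_iff_of_nonneg (fun i _ => mul_self_nonneg (μ i))).1 h0 i
        (mem_univ _)
      exact mul_self_eq_zero.1 h2
    obtain ⟨y, hy, hy2⟩ := ih (fun μ' h => hHy μ' (mem_insert_of_mem h)) _ hopen hnon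
    refine ⟨y, hy.1, ?_⟩
    intro μ' hμ'
    rcases mem_insert.1 hμ' with rfl | h
    · exact hy.2
    · exact hy2 μ' h

theorem exists_dir {m : ℕ} (S Hy : Finset (Fin m → ℝ)) (hHy : ∀ μ ∈ Hy, μ ≠ 0)
    (α : Fin m → ℝ) (hα : α ∈ (convexHull ℝ (S : Set (Fin m → ℝ))).extremePoints ℝ) :
    α ∈ S ∧ ∃ y : Fin m → ℚ, (∀ β ∈ S, β ≠ α → ∑ i, α i * (y i : ℝ) < ∑ i, β i * (y i : ℝ)) ∧
      ∀ μ ∈ Hy, ∑ i, μ i * (y i : ℝ) ≠ 0 := by
  classical
  have hαS : α ∈ S := by
    have h := extremePoints_convexHull_subset hα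
    exact_mod_cast h
  refine ⟨hαS, ?_⟩
  have hnot : α ∉ convexHull ℝ ((S.erase α : Finset (Fin m → ℝ)) : Set (Fin m → ℝ)) := by
    intro h
    have hsub : convexHull ℝ ((S.erase α : Finset (Fin m → ℝ)) : Set (Fin m → ℝ)) ⊆
        convexHull ℝ (S : Set (Fin m → ℝ)) :=
      convexHull_mono (by exact_mod_cast erase_subset _ _)
    have h2 := inter_extremePoints_subset_extremePoints_of_subset hsub ⟨h, hα⟩
    have h3 := extremePoints_convexHull_subset h2
    simp at h3
  obtain ⟨f, u, hfu, hf⟩ := geometric_hahn_banach_point_closed (convex_convexHull ℝ _)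
    ((S.erase α).finite_toSet.isCompact_convexHull ℝ).isClosed hnot
  have hfx : ∀ x : Fin m → ℝ, f x = ∑ i, x i * f (Pi.single i 1) := by
    intro x
    conv_lhs => rw [pi_eq_sum_univ' x]
    rw [map_sum]
    refine sum_congr rfl (fun i _ => ?_)
    rw [map_smul, smul_eq_mul]
  have hopen : IsOpen {y : Fin m → ℝ | ∀ β ∈ S.erase α,
      ∑ i, α i * y i < ∑ i, β i * y i} := by
    have h : {y : Fin m → ℝ | ∀ β ∈ S.erase α, ∑ i, α i * y i < ∑ i, β i * y i} =
        ⋂ β ∈ S.erase α, {y : Fin m → ℝ | ∑ i, α i * y i < ∑ i, β i * y i} := by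
      ext y
      simp
    rw [h]
    refine isOpen_biInter_finset (fun β _ => ?_)
    exact isOpen_lt (by fun_prop) (by fun_prop)
  have hne : {y : Fin m → ℝ | ∀ β ∈ S.erase α,
      ∑ i, α i * y i < ∑ i, β i * y i}.Nonempty := by
    refine ⟨fun i => f (Pi.single i 1), ?_⟩
    intro β hβ
    rw [← hfx, ← hfx]
    exact hfu.trans (hf β (subset_convexHull ℝ _ (by exact_mod_cast hβ)))
  obtain ⟨y, hy, hy2⟩ := dirs_avoid Hy hHy _ hopen hne
  exact ⟨y, fun β hβ hne => hy β (mem_erase.2 ⟨hne, hβ⟩), hy2⟩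

end Pool.Agent.Lib.MP_4e7804_co
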