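import Mathlib
import Pool.Agent.Lib.MP_4e7804_co.Defs

/-! MP_4e7804_co, upper bound: definitions for the overlay of `n` convex piecewise linear functions
in a box of `ℝ^d`. -/

set_option autoImplicit false

open Finset

namespace Pool.Agent.Lib.MP_4e7804_co

/-- The affine function number `a` of colour `i`. -/
def val {n d : ℕ} (η : Fin n → (Fin d → ℤ) → ℝ) (i : Fin n) (a : Fin d → ℤ)
    (w : Fin d → ℝ) : ℝ := ∑ k, (a k : ℝ) * w k + η i a

open Classical in
/-- The minimizers of colour `i` at `w`. -/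
noncomputable def Bs {n d : ℕ} (A : Fin n → Finset (Fin d → ℤ)) (η : Fin n → (Fin d → ℤ) → ℝ)
    (w : Fin d → ℝ) (i : Fin n) : Finset (Fin d → ℤ) :=
  (A i).filter fun a => ∀ b ∈ A i, val η i a w ≤ val η i b w

/-- The box. -/
def InBox {d : ℕ} (s : ℝ) (w : Fin d → ℝ) : Prop := ∀ k, |w k| ≤ s

/-- The boundary of the box. -/
def OnBd {d : ℕ} (s : ℝ) (w : Fin d → ℝ) : Prop := InBox s w ∧ ∃ k, |w k| = s

/-- General position: at every point of the box, the differences of the minimizers of all colours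
and the unit vectors of the active facets of the box are linearly independent. -/
def GP {n d : ℕ} (A : Fin n → Finset (Fin d → ℤ)) (η : Fin n → (Fin d → ℤ) → ℝ) (s : ℝ) : Prop :=
  ∀ w : Fin d → ℝ, InBox s w → ∀ (lam : Fin n → (Fin d → ℤ) → ℝ) (ν : Fin d → ℝ),
    (∀ i a, a ∉ Bs A η w i → lam i a = 0) → (∀ i, ∑ a ∈ A i, lam i a = 0) →
    (∀ k, |w k| < s → ν k = 0) →
    (∀ k, ∑ i, ∑ a ∈ A i, lam i a * (a k : ℝ) + ν k = 0) →
    (∀ i a, lam i a = 0) ∧ ∀ k, ν k = 0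

/-- The differences of the minimizers and the active facets span `ℝ^d`. -/
def Spanning {n d : ℕ} (A : Fin n → Finset (Fin d → ℤ)) (η : Fin n → (Fin d → ℤ) → ℝ) (s : ℝ)
    (w : Fin d → ℝ) : Prop :=
  ∀ u : Fin d → ℝ,
    (∀ i, ∀ a ∈ Bs A η w i, ∀ b ∈ Bs A η w i, ∑ k, ((a k : ℝ) - b k) * u k = 0) →
    (∀ k, |w k| = s → u k = 0) → u = 0

/-- The vertices of the overlay on the boundary of the box. -/
def WSt {n d : ℕ} (A : Fin n → Finset (Fin d → ℤ)) (η : Fin n → (Fin d → ℤ) → ℝ) (s : ℝ) :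
    Set (Fin d → ℝ) := {w | OnBd s w ∧ Spanning A η s w}

/-- `(lam, ν)` expands the vector `l` at `w`: the coefficients `lam` of every colour are supported
on the minimizers and have sum zero, `ν` is supported on the active facets. -/
def Expands {n d : ℕ} (A : Fin n → Finset (Fin d → ℤ)) (η : Fin n → (Fin d → ℤ) → ℝ) (s : ℝ)
    (w l : Fin d → ℝ) (lam : Fin n → (Fin d → ℤ) → ℝ) (ν : Fin d → ℝ) : Prop :=
  (∀ i a, a ∉ Bs A η w i → lam i a = 0) ∧ (∀ i, ∑ a ∈ A i, lam i a = 0) ∧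
    (∀ k, |w k| < s → ν k = 0) ∧
    ∀ k, ∑ i, ∑ a ∈ A i, lam i a * (a k : ℝ) + ν k = l k

end Pool.Agent.Lib.MP_4e7804_co
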