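import Mathlib

/-! MP_4e7804_co, upper bound, module Chev (120 lines): a valuation subring of `L` in which the
Laurent monomials in given elements `x_s ≠ 0` have prescribed weights `u_s`.

PROOF. Let `M` be the additive submonoid of all `m : σ → ℤ` with `wt m := ∑ m_s u_s ≥ 0`,
`R = AddMonoidAlgebra ℤ M`, `Φ : R →+* L` with `single m 1 ↦ x^m = ∏ x_s ^ m_s`
(`AddMonoidAlgebra.lift` or `liftNCRingHom`) and `Ψ : R →+* ℂ` with
`single m 1 ↦ if wt m = 0 then ζ^m else 0` (a monoid homomorphism: if `wt m > 0` or `wt m' > 0` then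
`wt (m + m') > 0`).
CLAIM: `Φ r = 0` implies `Ψ r = 0`. Take `N : ℕ` with `m_s + N ≥ 0` for all `s` and all `m` in the
support of `r`, and `G = ∑_m r_m X^(m + N) : MvPolynomial σ ℤ`; `aeval x G = Φ r * ∏ x_s ^ N = 0`;
all weights of `G` are `≥ ν := N ∑ u_s`, and the sum in `key` for this `ν` is
`(∏ ζ_s ^ N) * Ψ r`. So `Ψ r = 0`.
Let `A = Φ.range` (a subring of `L`). By the claim `Ψ` factors: there is `ψ : A →+* ℂ` with
`ψ (Φ r) = Ψ r` (`RingHom.liftOfSurjective` for `Φ.rangeRestrict`). Let `𝔮 = ker ψ`, a prime ideal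
of `A` (`RingHom.ker_isPrime`). By Chevalley (`LocalSubring.exists_le_valuationSubring` applied to
`LocalSubring.ofPrime A 𝔮`) there is a valuation subring `V` of `L` which contains `A` and such
that elements of `𝔮` are not units in `V` (the inclusion of the local ring is local; an element of
`𝔮` is a nonunit of the localization). If `wt m ≥ 0` then `x^m ∈ A ⊆ V`; if `wt m > 0` then
`ψ (x^m) = 0`, so `x^m ∈ 𝔮` is in the maximal ideal of `V`, i.e. in `V.nonunits`. -/

set_option autoImplicit false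

open Finset

namespace Pool.Agent.Lib.MP_4e7804_co

lemma chev_pow {K : Type*} [Field K] {σ : Type*} [Fintype σ] (y : σ → K) (hy : ∀ s, y s ≠ 0)
    (m : σ → ℤ) (N : ℕ) (k : σ →₀ ℕ) (hk : ∀ s, ((k s : ℕ) : ℤ) = m s + (N : ℤ)) :
    ∏ s, y s ^ (k s) = (∏ s, y s ^ (m s)) * ∏ s, y s ^ N := by
  rw [← Finset.prod_mul_distrib]
  refine Finset.prod_congr rfl fun s _ => ?_
  rw [← zpow_natCast, hk s, zpow_add₀ (hy s), zpow_natCast]

theorem exists_valuationSubring {L : Type*} [Field L] {σ : Type*} [Fintype σ] [DecidableEq σ]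
    (x : σ → L) (hx : ∀ s, x s ≠ 0) (u : σ → ℚ) (ζ : σ → ℂ) (hζ : ∀ s, ζ s ≠ 0)
    (key : ∀ (G : MvPolynomial σ ℤ) (ν : ℚ), (∀ m ∈ G.support, ν ≤ ∑ s, (m s : ℚ) * u s) →
      MvPolynomial.aeval x G = 0 →
      ∑ m ∈ G.support.filter (fun m => ∑ s, (m s : ℚ) * u s = ν),
        ((MvPolynomial.coeff m G : ℤ) : ℂ) * ∏ s, ζ s ^ (m s) = 0) :
    ∃ V : ValuationSubring L, ∀ m : σ → ℤ,
      (0 ≤ ∑ s, (m s : ℚ) * u s → ∏ s, x s ^ (m s) ∈ V) ∧
      (0 < ∑ s, (m s : ℚ) * u s → ∏ s, x s ^ (m s) ∈ V.nonunits) := by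
  classical
  let wt : (σ → ℤ) → ℚ := fun m => ∑ s, (m s : ℚ) * u s
  have wt_add : ∀ m m' : σ → ℤ, wt (m + m') = wt m + wt m' := by
    intro m m'
    simp only [wt]
    rw [← Finset.sum_add_distrib]
    refine Finset.sum_congr rfl fun s _ => ?_
    simp only [Pi.add_apply]
    push_cast
    ring
  have wt_zero : wt 0 = 0 := by simp [wt]
  let M : AddSubmonoid (σ → ℤ) :=
    { carrier := {m | 0 ≤ wt m}
      zero_mem' := by simp [wt_zero]
      add_mem' := by
        intro a b ha hb
        simp only [Set.mem_ofPred_eq] at ha hb ⊢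
        rw [wt_add]
        linarith }
  have hM : ∀ m : M, 0 ≤ wt m.1 := fun m => m.2
  let φ : Multiplicative M →* L :=
    { toFun := fun m => ∏ s, x s ^ ((Multiplicative.toAdd m).1 s)
      map_one' := by simp
      map_mul' := by
        intro a b
        rw [← Finset.prod_mul_distrib]
        refine Finset.prod_congr rfl fun s _ => ?_
        rw [toAdd_mul, AddSubmonoid.coe_add, Pi.add_apply, zpow_add₀ (hx s)] }
  let χ : Multiplicative M →* ℂ :=
    { toFun := fun m => if wt (Multiplicative.toAdd m).1 = 0 then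
        ∏ s, ζ s ^ ((Multiplicative.toAdd m).1 s) else 0
      map_one' := by simp [wt_zero]
      map_mul' := by
        intro a b
        have ha := hM (Multiplicative.toAdd a)
        have hb := hM (Multiplicative.toAdd b)
        rw [toAdd_mul, AddSubmonoid.coe_add, wt_add]
        by_cases h1 : wt (Multiplicative.toAdd a).1 = 0
        · by_cases h2 : wt (Multiplicative.toAdd b).1 = 0
          · rw [if_pos h1, if_pos h2, if_pos (by rw [h1, h2]; ring), ← Finset.prod_mul_distrib]
            refine Finset.prod_congr rfl fun s _ => ?_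
            rw [Pi.add_apply, zpow_add₀ (hζ s)]
          · rw [if_neg h2, mul_zero, if_neg]
            intro h
            rw [h1, zero_add] at h
            exact h2 h
        · rw [if_neg h1, zero_mul, if_neg]
          intro h
          apply h1
          linarith }
  let Φ := AddMonoidAlgebra.lift ℤ L M φ
  let Ψ := AddMonoidAlgebra.lift ℤ ℂ M χ
  have hΦ : ∀ r : AddMonoidAlgebra ℤ M,
      Φ r = ∑ m ∈ r.coeff.support, ((r.coeff m : ℤ) : L) * ∏ s, x s ^ (m.1 s) := by
    intro r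
    simp only [Φ]
    rw [AddMonoidAlgebra.lift_apply, Finsupp.sum]
    refine Finset.sum_congr rfl fun m _ => ?_
    rw [zsmul_eq_mul]
    rfl
  have hΨ : ∀ r : AddMonoidAlgebra ℤ M,
      Ψ r = ∑ m ∈ r.coeff.support, ((r.coeff m : ℤ) : ℂ) *
        (if wt m.1 = 0 then ∏ s, ζ s ^ (m.1 s) else 0) := by
    intro r
    simp only [Ψ]
    rw [AddMonoidAlgebra.lift_apply, Finsupp.sum]
    refine Finset.sum_congr rfl fun m _ => ?_
    rw [zsmul_eq_mul]
    rfl
  have claim : ∀ r : AddMonoidAlgebra ℤ M, Φ r = 0 → Ψ r = 0 := by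
    intro r hr
    obtain ⟨N, hN⟩ : ∃ N : ℕ, ∀ m ∈ r.coeff.support, ∀ s, 0 ≤ m.1 s + (N : ℤ) := by
      refine ⟨∑ m ∈ r.coeff.support, ∑ s, (m.1 s).natAbs, ?_⟩
      intro m hm s
      have h1 : (m.1 s).natAbs ≤ ∑ s, (m.1 s).natAbs :=
        Finset.single_le_sum (f := fun s => (m.1 s).natAbs) (fun _ _ => Nat.zero_le _)
          (Finset.mem_univ s)
      have h2 : ∑ s, (m.1 s).natAbs ≤ ∑ m ∈ r.coeff.support, ∑ s, (m.1 s).natAbs :=
        Finset.single_le_sum (f := fun m : M => ∑ s, (m.1 s).natAbs) (fun _ _ => Nat.zero_le _) hm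
      omega
    let sh : M → (σ →₀ ℕ) := fun m => Finsupp.equivFunOnFinite.symm
      (fun s => (m.1 s + (N : ℤ)).toNat)
    have hsh : ∀ m ∈ r.coeff.support, ∀ s, ((sh m s : ℕ) : ℤ) = m.1 s + (N : ℤ) := by
      intro m hm s
      have := hN m hm s
      simp only [sh, Finsupp.equivFunOnFinite_symm_apply_apply]
      omega
    let G : MvPolynomial σ ℤ :=
      ∑ m ∈ r.coeff.support, MvPolynomial.monomial (sh m) (r.coeff m)
    have e1 : MvPolynomial.aeval x G = 0 := by
      have h1 : MvPolynomial.aeval x G = Φ r * ∏ s, x s ^ N := by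
        rw [hΦ, Finset.sum_mul]
        simp only [G]
        rw [map_sum]
        refine Finset.sum_congr rfl fun m hm => ?_
        rw [MvPolynomial.aeval_monomial, Finsupp.prod_fintype _ _ (by simp),
          chev_pow x hx m.1 N (sh m) (hsh m hm), mul_assoc]
        simp
      rw [h1, hr, zero_mul]
    have hwt : ∀ m ∈ r.coeff.support,
        ∑ s, ((sh m s : ℕ) : ℚ) * u s = wt m.1 + (N : ℚ) * ∑ s, u s := by
      intro m hm
      simp only [wt]
      rw [Finset.mul_sum, ← Finset.sum_add_distrib]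
      refine Finset.sum_congr rfl fun s _ => ?_
      have h2 : ((sh m s : ℕ) : ℚ) = (m.1 s : ℚ) + (N : ℚ) := by
        have := hsh m hm s
        exact_mod_cast this
      rw [h2]
      ring
    have hsupp : ∀ m' ∈ G.support, ∃ m ∈ r.coeff.support, sh m = m' := by
      intro m' hm'
      have h3 := MvPolynomial.support_sum hm'
      rw [Finset.mem_biUnion] at h3
      obtain ⟨m, hm, h4⟩ := h3
      refine ⟨m, hm, ?_⟩
      have h5 := MvPolynomial.support_monomial_subset h4
      rw [Finset.mem_singleton] at h5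
      exact h5.symm
    have e2 : ∀ m ∈ G.support, (N : ℚ) * ∑ s, u s ≤ ∑ s, (m s : ℚ) * u s := by
      intro m' hm'
      obtain ⟨m, hm, rfl⟩ := hsupp m' hm'
      rw [hwt m hm]
      have := hM m
      linarith
    have e3 := key G ((N : ℚ) * ∑ s, u s) e2 e1
    rw [Finset.sum_filter] at e3
    have e4 : ∑ m' ∈ G.support, (if ∑ s, (m' s : ℚ) * u s = (N : ℚ) * ∑ s, u s then
        ((MvPolynomial.coeff m' G : ℤ) : ℂ) * ∏ s, ζ s ^ (m' s) else 0) =
        ∑ m' ∈ r.coeff.support.image sh, (if ∑ s, (m' s : ℚ) * u s = (N : ℚ) * ∑ s, u s then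
        ((MvPolynomial.coeff m' G : ℤ) : ℂ) * ∏ s, ζ s ^ (m' s) else 0) := by
      refine Finset.sum_subset ?_ ?_
      · intro m' hm'
        obtain ⟨m, hm, rfl⟩ := hsupp m' hm'
        exact Finset.mem_image_of_mem _ hm
      · intro m' _ hm'
        rw [MvPolynomial.notMem_support_iff] at hm'
        rw [hm']
        simp
    rw [e4] at e3
    have e5 : ∀ m' : σ →₀ ℕ, MvPolynomial.coeff m' G =
        ∑ m ∈ r.coeff.support, if sh m = m' then r.coeff m else 0 := by
      intro m'
      simp only [G]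
      rw [MvPolynomial.coeff_sum]
      refine Finset.sum_congr rfl fun m _ => ?_
      rw [MvPolynomial.coeff_monomial]
    have e6 : ∑ m' ∈ r.coeff.support.image sh,
        (if ∑ s, (m' s : ℚ) * u s = (N : ℚ) * ∑ s, u s then
        ((MvPolynomial.coeff m' G : ℤ) : ℂ) * ∏ s, ζ s ^ (m' s) else 0) =
        ∑ m ∈ r.coeff.support, ((r.coeff m : ℤ) : ℂ) *
          (if ∑ s, (sh m s : ℚ) * u s = (N : ℚ) * ∑ s, u s then ∏ s, ζ s ^ (sh m s) else 0) := by
      have : ∀ m' ∈ r.coeff.support.image sh,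
          (if ∑ s, (m' s : ℚ) * u s = (N : ℚ) * ∑ s, u s then
          ((MvPolynomial.coeff m' G : ℤ) : ℂ) * ∏ s, ζ s ^ (m' s) else 0) =
          ∑ m ∈ r.coeff.support, if sh m = m' then ((r.coeff m : ℤ) : ℂ) *
            (if ∑ s, (m' s : ℚ) * u s = (N : ℚ) * ∑ s, u s then ∏ s, ζ s ^ (m' s) else 0)
            else 0 := by
        intro m' _
        rw [e5]
        push_cast
        rw [← mul_ite_zero, Finset.sum_mul]
        refine Finset.sum_congr rfl fun m _ => ?_
        by_cases h : sh m = m'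
        · rw [if_pos h, if_pos h]
        · rw [if_neg h, if_neg h, zero_mul]
      rw [Finset.sum_congr rfl this, Finset.sum_comm]
      refine Finset.sum_congr rfl fun m hm => ?_
      rw [Finset.sum_ite_eq, if_pos (Finset.mem_image_of_mem _ hm)]
    rw [e6] at e3
    have e7 : (∏ s, ζ s ^ N) * Ψ r = 0 := by
      rw [← e3, hΨ, Finset.mul_sum]
      refine Finset.sum_congr rfl fun m hm => ?_
      rw [hwt m hm, chev_pow ζ hζ m.1 N (sh m) (hsh m hm)]
      by_cases h : wt m.1 = 0
      · rw [if_pos h, if_pos (by rw [h, zero_add])]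
        ring
      · rw [if_neg h, if_neg (by intro h'; apply h; linarith)]
        ring
    rcases mul_eq_zero.mp e7 with h | h
    · exact absurd h (Finset.prod_ne_zero_iff.mpr fun s _ => pow_ne_zero _ (hζ s))
    · exact h
  let A : Subring L := (Φ : AddMonoidAlgebra ℤ M →+* L).range
  have hsurj : Function.Surjective ((Φ : AddMonoidAlgebra ℤ M →+* L).rangeRestrict) :=
    RingHom.rangeRestrict_surjective _
  let ψ : A →+* ℂ := RingHom.liftOfSurjective _ hsurj
    ⟨(Ψ : AddMonoidAlgebra ℤ M →+* ℂ), by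
      intro r hr
      rw [RingHom.mem_ker] at hr ⊢
      have : Φ r = 0 := congrArg Subtype.val hr
      exact claim r this⟩
  have hψ : ∀ r, ψ ((Φ : AddMonoidAlgebra ℤ M →+* L).rangeRestrict r) = Ψ r := by
    intro r
    exact RingHom.liftOfRightInverse_comp_apply _ _ _ _ _
  obtain ⟨V, hAV, hV⟩ := Ideal.image_subset_nonunits_valuationSubring (RingHom.ker ψ)
    (RingHom.ker_ne_top ψ)
  refine ⟨V, fun m => ⟨fun h0 => ?_, fun h0 => ?_⟩⟩
  · have : Φ (AddMonoidAlgebra.single (⟨m, h0⟩ : M) 1) = ∏ s, x s ^ (m s) := by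
      simp only [Φ]
      rw [AddMonoidAlgebra.lift_single, one_smul]
      rfl
    rw [← this]
    exact hAV ⟨_, rfl⟩
  · have h1 : Φ (AddMonoidAlgebra.single (⟨m, h0.le⟩ : M) 1) = ∏ s, x s ^ (m s) := by
      simp only [Φ]
      rw [AddMonoidAlgebra.lift_single, one_smul]
      rfl
    have h2 : Ψ (AddMonoidAlgebra.single (⟨m, h0.le⟩ : M) 1) = 0 := by
      simp only [Ψ]
      rw [AddMonoidAlgebra.lift_single, one_smul]
      change (if wt m = 0 then _ else _) = _
      rw [if_neg]
      exact h0.ne'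
    refine hV ⟨(Φ : AddMonoidAlgebra ℤ M →+* L).rangeRestrict
      (AddMonoidAlgebra.single (⟨m, h0.le⟩ : M) 1), ?_, h1⟩
    change _ ∈ RingHom.ker ψ
    rw [RingHom.mem_ker, hψ, h2]

end Pool.Agent.Lib.MP_4e7804_co
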