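import Mathlib

/-! MP_4e7804_co, upper bound, module Retract (120 lines): descent of the generator of the
relations to a subfield.

PROOF. `π : ℂ →ₗ[k] k` with `π (algebraMap x) = x` exists
(`LinearMap.exists_leftInverse_of_injective` for `Algebra.linearMap k ℂ`); apply `π` to all
coefficients of polynomials (`MvPolynomial`, a finitely supported function) and of Laurent
polynomials (`AddMonoidAlgebra`): call the map `Π`. It satisfies `Π (A * B) = A * Π B` whenever the
coefficients of `A` are in `k` (`k`-linearity of `π`), and hence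
`Π (aeval f G) = aeval f (Π G)` if all `f i` have coefficients in `k` (on monomials
`aeval f (monomial m a) = a • f^m`, and `f^m` has coefficients in `k`, `π (a x) = π a * x` for
`x ∈ k`).
(1) Choose `α0` in the support of `F`, `F1 = C (coeff α0 F)⁻¹ * F`, which generates the same ideal.
`G1 = Π F1` (with coefficients in `k ⊆ ℂ`) satisfies `aeval f G1 = Π (aeval f F1) = 0`, so
`G1 = F1 * H`; the support of `G1` is contained in that of `F1`, so `totalDegree G1 ≤ totalDegree F1`
and `H` is a constant (`MvPolynomial.totalDegree_mul_of_isDomain`; `G1 ≠ 0` because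
`coeff α0 G1 = 1`); comparing the coefficients at `α0`, `H = 1`. So `F1 = G1` has coefficients in
`k`: this is the first claim.
(2) Let `G` have coefficients in `k` and `aeval f G = 0`. Then `G = F1 * H` with `H` over `ℂ`, and
`G = Π G = F1 * Π H`. -/

set_option autoImplicit false

open Finset

namespace Pool.Agent.Lib.MP_4e7804_co

/-- A `k`-linear retraction applied to the coefficients of a polynomial. -/
noncomputable def retractPoly {n : ℕ} {k : Type*} [Field k] [Algebra k ℂ] (π : ℂ →ₗ[k] k)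
    (G : MvPolynomial (Fin n) ℂ) : MvPolynomial (Fin n) k :=
  ∑ m ∈ G.support, MvPolynomial.monomial m (π (MvPolynomial.coeff m G))

lemma retract_coeff {n : ℕ} {k : Type*} [Field k] [Algebra k ℂ] (π : ℂ →ₗ[k] k)
    (G : MvPolynomial (Fin n) ℂ) (m : Fin n →₀ ℕ) :
    MvPolynomial.coeff m (retractPoly π G) = π (MvPolynomial.coeff m G) := by
  classical
  rw [retractPoly, MvPolynomial.coeff_sum]
  simp only [MvPolynomial.coeff_monomial]
  rw [Finset.sum_ite_eq']
  by_cases h : m ∈ G.support
  · rw [if_pos h]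
  · rw [if_neg h, MvPolynomial.notMem_support_iff.mp h, map_zero]

lemma retract_map {n : ℕ} {k : Type*} [Field k] [Algebra k ℂ] (π : ℂ →ₗ[k] k)
    (hπ : ∀ x : k, π (algebraMap k ℂ x) = x) (G : MvPolynomial (Fin n) k) :
    retractPoly π (MvPolynomial.map (algebraMap k ℂ) G) = G := by
  ext m
  rw [retract_coeff, MvPolynomial.coeff_map, hπ]

lemma retract_mul {n : ℕ} {k : Type*} [Field k] [Algebra k ℂ] (π : ℂ →ₗ[k] k)
    (A : MvPolynomial (Fin n) k) (G : MvPolynomial (Fin n) ℂ) :
    retractPoly π (MvPolynomial.map (algebraMap k ℂ) A * G) = A * retractPoly π G := by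
  classical
  ext m
  rw [retract_coeff, MvPolynomial.coeff_mul, MvPolynomial.coeff_mul, map_sum]
  refine Finset.sum_congr rfl fun x _ => ?_
  rw [retract_coeff, MvPolynomial.coeff_map, ← Algebra.smul_def, map_smul, smul_eq_mul]

lemma retract_aeval {n d : ℕ} {k : Type*} [Field k] [Algebra k ℂ] (π : ℂ →ₗ[k] k)
    (g : Fin n → AddMonoidAlgebra k (Fin d → ℤ)) (G : MvPolynomial (Fin n) ℂ) (p : Fin d → ℤ) :
    (MvPolynomial.aeval (fun i => AddMonoidAlgebra.mapRingHom (Fin d → ℤ) (algebraMap k ℂ) (g i))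
      (MvPolynomial.map (algebraMap k ℂ) (retractPoly π G))).coeff p =
    algebraMap k ℂ (π ((MvPolynomial.aeval (fun i =>
      AddMonoidAlgebra.mapRingHom (Fin d → ℤ) (algebraMap k ℂ) (g i)) G).coeff p)) := by
  classical
  have hmono : ∀ (m : Fin n →₀ ℕ) (a : ℂ), (MvPolynomial.aeval (fun i =>
      AddMonoidAlgebra.mapRingHom (Fin d → ℤ) (algebraMap k ℂ) (g i))
        (MvPolynomial.monomial m a)).coeff p =
      a * algebraMap k ℂ ((∏ i, g i ^ (m i)).coeff p) := by
    intro m a
    rw [MvPolynomial.aeval_monomial]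
    have h1 : (m.prod fun i e => (AddMonoidAlgebra.mapRingHom (Fin d → ℤ) (algebraMap k ℂ) (g i)) ^ e)
        = AddMonoidAlgebra.mapRingHom (Fin d → ℤ) (algebraMap k ℂ) (∏ i, g i ^ (m i)) := by
      rw [map_prod, Finsupp.prod_fintype _ _ (fun i => pow_zero _)]
      exact Finset.prod_congr rfl fun i _ => (map_pow _ _ _).symm
    rw [h1, ← Algebra.smul_def, AddMonoidAlgebra.coeff_smul, Finsupp.smul_apply,
      AddMonoidAlgebra.coeff_mapRingHom, smul_eq_mul]
  have hG : ∀ (S : Finset (Fin n →₀ ℕ)) (c : (Fin n →₀ ℕ) → ℂ),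
      (MvPolynomial.aeval (fun i => AddMonoidAlgebra.mapRingHom (Fin d → ℤ) (algebraMap k ℂ) (g i))
        (∑ m ∈ S, MvPolynomial.monomial m (c m))).coeff p =
      ∑ m ∈ S, c m * algebraMap k ℂ ((∏ i, g i ^ (m i)).coeff p) := by
    intro S c
    induction S using Finset.induction_on with
    | empty => simp
    | insert m S hm ih =>
      rw [Finset.sum_insert hm, Finset.sum_insert hm, map_add, AddMonoidAlgebra.coeff_add,
        Finsupp.add_apply, hmono, ih]
  have hR : MvPolynomial.map (algebraMap k ℂ) (retractPoly π G) =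
      ∑ m ∈ G.support, MvPolynomial.monomial m (algebraMap k ℂ (π (MvPolynomial.coeff m G))) := by
    rw [retractPoly, map_sum]
    exact Finset.sum_congr rfl fun m _ => MvPolynomial.map_monomial _ _ _
  rw [hR, hG]
  conv_rhs => rw [MvPolynomial.as_sum G, hG, map_sum, map_sum]
  refine Finset.sum_congr rfl fun m _ => ?_
  have h3 : π (MvPolynomial.coeff m G * algebraMap k ℂ ((∏ i, g i ^ (m i)).coeff p)) =
      (∏ i, g i ^ (m i)).coeff p * π (MvPolynomial.coeff m G) := by
    rw [mul_comm (MvPolynomial.coeff m G), ← Algebra.smul_def, map_smul, smul_eq_mul]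
  rw [h3, map_mul, mul_comm]

theorem descent_field {n d : ℕ} (k : Type*) [Field k] [Algebra k ℂ]
    (f : Fin n → AddMonoidAlgebra ℂ (Fin d → ℤ))
    (hf : ∀ i, ∃ g : AddMonoidAlgebra k (Fin d → ℤ), ∀ p : Fin d → ℤ,
      (f i).coeff p = algebraMap k ℂ (g.coeff p))
    (F : MvPolynomial (Fin n) ℂ) (hF0 : F ≠ 0) (hF : MvPolynomial.aeval f F = 0)
    (hdvd : ∀ G : MvPolynomial (Fin n) ℂ, MvPolynomial.aeval f G = 0 → F ∣ G) :
    ∃ (F1 : MvPolynomial (Fin n) k) (μ : ℂ), μ ≠ 0 ∧
      MvPolynomial.map (algebraMap k ℂ) F1 = MvPolynomial.C μ * F ∧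
      ∀ G : MvPolynomial (Fin n) k,
        MvPolynomial.aeval f (MvPolynomial.map (algebraMap k ℂ) G) = 0 → F1 ∣ G := by
  classical
  choose g hg using hf
  have hfg : f = fun i => AddMonoidAlgebra.mapRingHom (Fin d → ℤ) (algebraMap k ℂ) (g i) := by
    funext i
    apply AddMonoidAlgebra.coeff_injective
    ext p
    rw [hg i p]
    simp [AddMonoidAlgebra.coeff_mapRingHom]
  obtain ⟨π, hπ⟩ := LinearMap.exists_leftInverse_of_injective (Algebra.linearMap k ℂ)
    (LinearMap.ker_eq_bot.mpr (algebraMap k ℂ).injective)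
  have hπ' : ∀ x : k, π (algebraMap k ℂ x) = x := fun x => by
    have := LinearMap.congr_fun hπ x
    simpa using this
  -- normalize
  have hne : F.support.Nonempty := by
    rw [Finset.nonempty_iff_ne_empty]
    exact fun h => hF0 (MvPolynomial.support_eq_empty.mp h)
  obtain ⟨α, hα⟩ := hne
  have hα' : MvPolynomial.coeff α F ≠ 0 := MvPolynomial.mem_support_iff.mp hα
  set μ : ℂ := (MvPolynomial.coeff α F)⁻¹ with hμ
  have hμ0 : μ ≠ 0 := inv_ne_zero hα'
  set F0 : MvPolynomial (Fin n) ℂ := MvPolynomial.C μ * F with hF0def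
  set F1 : MvPolynomial (Fin n) k := retractPoly π F0 with hF1
  have hF0z : MvPolynomial.aeval f F0 = 0 := by rw [hF0def, map_mul, hF, mul_zero]
  have hF1z : MvPolynomial.aeval f (MvPolynomial.map (algebraMap k ℂ) F1) = 0 := by
    rw [hfg]
    apply AddMonoidAlgebra.coeff_injective
    ext p
    rw [hF1, retract_aeval, ← hfg, hF0z]
    simp
  have hF1c : MvPolynomial.coeff α F1 = 1 := by
    rw [hF1, retract_coeff, hF0def, MvPolynomial.coeff_C_mul, hμ, inv_mul_cancel₀ hα']
    have := hπ' 1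
    rwa [map_one] at this
  obtain ⟨H, hH⟩ := hdvd _ hF1z
  have hsupp : (MvPolynomial.map (algebraMap k ℂ) F1).support ⊆ F.support := by
    intro m hm
    rw [MvPolynomial.mem_support_iff] at hm ⊢
    intro h
    apply hm
    rw [MvPolynomial.coeff_map, hF1, retract_coeff, hF0def, MvPolynomial.coeff_C_mul, h, mul_zero,
      map_zero, map_zero]
  have hdeg : (MvPolynomial.map (algebraMap k ℂ) F1).totalDegree ≤ F.totalDegree := by
    rw [MvPolynomial.totalDegree, MvPolynomial.totalDegree]
    exact Finset.sup_mono hsupp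
  have hM0 : MvPolynomial.map (algebraMap k ℂ) F1 ≠ 0 := by
    intro h
    have := congrArg (MvPolynomial.coeff α) h
    rw [MvPolynomial.coeff_map, hF1c, map_one, MvPolynomial.coeff_zero] at this
    exact one_ne_zero this
  have hH0 : H ≠ 0 := by
    rintro rfl
    rw [mul_zero] at hH
    exact hM0 hH
  have hHdeg : H.totalDegree = 0 := by
    have h1 := MvPolynomial.totalDegree_mul_of_isDomain hF0 hH0
    rw [← hH] at h1
    omega
  obtain ⟨h, hh⟩ : ∃ h : ℂ, H = MvPolynomial.C h :=
    ⟨_, MvPolynomial.totalDegree_eq_zero_iff_eq_C.mp hHdeg⟩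
  have hh1 : h = μ := by
    have h1 := congrArg (MvPolynomial.coeff α) hH
    rw [MvPolynomial.coeff_map, hF1c, map_one, hh, mul_comm F, MvPolynomial.coeff_C_mul] at h1
    rw [hμ]
    exact eq_inv_of_mul_eq_one_left h1.symm
  have hmap : MvPolynomial.map (algebraMap k ℂ) F1 = MvPolynomial.C μ * F := by
    rw [hH, hh, hh1, mul_comm]
  refine ⟨F1, μ, hμ0, hmap, fun G hG => ?_⟩
  obtain ⟨H', hH'⟩ := hdvd _ hG
  have h2 : MvPolynomial.map (algebraMap k ℂ) G =
      MvPolynomial.map (algebraMap k ℂ) F1 * (MvPolynomial.C μ⁻¹ * H') := by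
    rw [hmap, hH']
    have : (MvPolynomial.C μ : MvPolynomial (Fin n) ℂ) * MvPolynomial.C μ⁻¹ = 1 := by
      rw [← MvPolynomial.C_mul, mul_inv_cancel₀ hμ0, MvPolynomial.C_1]
    calc F * H' = (MvPolynomial.C μ * MvPolynomial.C μ⁻¹) * (F * H') := by rw [this, one_mul]
      _ = _ := by ring
  refine ⟨retractPoly π (MvPolynomial.C μ⁻¹ * H'), ?_⟩
  rw [← retract_mul, ← h2, retract_map π hπ']

end Pool.Agent.Lib.MP_4e7804_co
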