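import Mathlib
import Pool.Agent.Lib.MP_4e7804_co.Defs
import Pool.Agent.Lib.MP_4e7804_co.Lo.Prime

/-! MP_4e7804_co, upper bound, module Torus (80 lines): polynomial relations between the functions
`f_i` on the torus are the relations between the Laurent polynomials `f_i`.

PROOF of `eval_eq_zero_iff`. Let `Λ = AddMonoidAlgebra ℂ (Fin d → ℤ)` and `ev t : Λ →ₐ[ℂ] ℂ` the
algebra map with `ev t (single p 1) = mono t p` (`AddMonoidAlgebra.lift` of the monoid map
`p ↦ mono t p`, `mono t (p + q) = mono t p * mono t q`). Then `ev t (lau P hfin c i) = evalAt P c t i`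
(`finsum_mem_eq_finite_toFinset_sum`) and `ev t (aeval (lau ..) G) = eval (evalAt P c t) G`. If
`g : Λ` has `ev t g = 0` for all `t` then `g = 0`: the monoid homs `(Fin d → ℂˣ) →* ℂ`,
`t ↦ mono t p`, are different for different `p` (take `t_k = 2` at one coordinate, `1` elsewhere)
hence linearly independent (`linearIndependent_monoidHom`). (Compare Lo/Prime.lean, which contains
this argument; it may be copied.)
PROOF of `IsImplicitEq.dvd`: `G ∈ vanishingIdeal (range (evalAt P c))`, so `G` vanishes on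
`zeroLocus (vanishingIdeal range) = zeroLocus (span {F})`, i.e.
`G ∈ vanishingIdeal (zeroLocus (span {F})) = (span {F}).radical = span {F}`
(`MvPolynomial.vanishingIdeal_zeroLocus_eq_radical`; `span {F}` is prime because `F` is irreducible
in a UFD, so it is radical). -/

set_option autoImplicit false

open Finset

namespace Pool.Agent.Lib.MP_4e7804_co

/-- `f_i` as a Laurent polynomial. -/
noncomputable def lau {n d : ℕ} (P : Fin n → Set (Fin d → ℝ))
    (hfin : ∀ i, (latticePoints (P i)).Finite) (c : Fin n → (Fin d → ℤ) → ℂ) (i : Fin n) :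
    AddMonoidAlgebra ℂ (Fin d → ℤ) :=
  ∑ p ∈ (hfin i).toFinset, AddMonoidAlgebra.single p (c i p)

theorem Torus_ev {n d : ℕ} (P : Fin n → Set (Fin d → ℝ))
    (hfin : ∀ i, (latticePoints (P i)).Finite) (c : Fin n → (Fin d → ℤ) → ℂ)
    (t : Fin d → ℂˣ) (G : MvPolynomial (Fin n) ℂ) :
    PrimeEv t (MvPolynomial.aeval (lau P hfin c) G) = MvPolynomial.eval (evalAt P c t) G := by
  have h2 : (fun i => PrimeEv t (lau P hfin c i)) = evalAt P c t := by
    funext i
    unfold evalAt lau
    rw [finsum_mem_eq_finite_toFinset_sum _ (hfin i), map_sum]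
    exact Finset.sum_congr rfl fun p _ => PrimeEv_single t p (c i p)
  rw [MvPolynomial.comp_aeval_apply, h2]
  rfl

theorem eval_eq_zero_iff {n d : ℕ} (P : Fin n → Set (Fin d → ℝ))
    (hfin : ∀ i, (latticePoints (P i)).Finite) (c : Fin n → (Fin d → ℤ) → ℂ)
    (G : MvPolynomial (Fin n) ℂ) :
    (∀ t, MvPolynomial.eval (evalAt P c t) G = 0) ↔ MvPolynomial.aeval (lau P hfin c) G = 0 := by
  constructor
  · intro h
    exact PrimeEv_zero _ fun t => by rw [Torus_ev, h t]
  · intro h t
    rw [← Torus_ev P hfin c t, h, map_zero]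

theorem IsImplicitEq.dvd {n d : ℕ} {P : Fin n → Set (Fin d → ℝ)}
    {c : Fin n → (Fin d → ℤ) → ℂ} {F : MvPolynomial (Fin n) ℂ} (h : IsImplicitEq P c F)
    (G : MvPolynomial (Fin n) ℂ) (hG : ∀ t, MvPolynomial.eval (evalAt P c t) G = 0) : F ∣ G := by
  have hG1 : G ∈ MvPolynomial.vanishingIdeal ℂ (Set.range (evalAt P c)) := by
    rw [MvPolynomial.mem_vanishingIdeal_iff]
    rintro _ ⟨t, rfl⟩
    exact hG t
  have hG2 : G ∈ MvPolynomial.vanishingIdeal ℂ
      (MvPolynomial.zeroLocus ℂ (Ideal.span ({F} : Set (MvPolynomial (Fin n) ℂ)))) := by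
    rw [← h.2, MvPolynomial.mem_vanishingIdeal_iff]
    intro x hx
    exact hx G hG1
  have hprime : (Ideal.span ({F} : Set (MvPolynomial (Fin n) ℂ))).IsPrime := by
    rw [Ideal.span_singleton_prime h.1.ne_zero]
    exact h.1.prime
  rw [MvPolynomial.vanishingIdeal_zeroLocus_eq_radical, hprime.radical] at hG2
  exact Ideal.mem_span_singleton.1 hG2

theorem IsImplicitEq.aeval_lau {n d : ℕ} {P : Fin n → Set (Fin d → ℝ)}
    (hfin : ∀ i, (latticePoints (P i)).Finite)
    {c : Fin n → (Fin d → ℤ) → ℂ} {F : MvPolynomial (Fin n) ℂ} (h : IsImplicitEq P c F) :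
    MvPolynomial.aeval (lau P hfin c) F = 0 := by
  rw [← eval_eq_zero_iff]
  intro t
  have h1 : evalAt P c t ∈ MvPolynomial.zeroLocus ℂ
      (MvPolynomial.vanishingIdeal ℂ (Set.range (evalAt P c))) := by
    intro G hG
    exact (MvPolynomial.mem_vanishingIdeal_iff.1 hG) _ ⟨t, rfl⟩
  rw [h.2] at h1
  exact h1 F (Ideal.subset_span rfl)

end Pool.Agent.Lib.MP_4e7804_co
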