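import Mathlib
import Pool.Agent.Lib.MP_4e7804_co.Up.Torus
import Pool.Agent.Lib.MP_4e7804_co.Up.Retract

/-! MP_4e7804_co, upper bound, module Descent (120 lines): the implicit equation over the ring
generated by the coefficients.

PROOF. Let `R = MvPolynomial (Cof P) ℚ` and `j = aeval (cof P c) : R →ₐ[ℚ] ℂ`, injective because the
coefficients are algebraically independent (`hc`). Let `k = FractionRing R` with the embedding
`k → ℂ` (`IsFractionRing.lift`/`lift` of the injective map `j`; make it an `Algebra k ℂ` instance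
by `RingHom.toAlgebra`, locally). The Laurent polynomials `lau P hfin c i` have coefficients in `k`
(even in `R`: the coefficient at `p` is `c i p = j (X ⟨i, p⟩)` for lattice points `p` of `P i`, else
`0`). Apply `descent_field` with `hF` from `IsImplicitEq.aeval_lau` and `hdvd` from
`IsImplicitEq.dvd`, `eval_eq_zero_iff`. Clear denominators: there is `r ∈ R`, `r ≠ 0` with
`r F1 = map 𝔽`, `𝔽` over `R` (finitely many coefficients; `IsLocalization.exist_integer_multiples`,
or a common denominator of the coefficients), then `map j 𝔽 = j(r) μ F`. For `G` over `R` with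
`aeval (lau ..) (map j G) = 0` we get `map G = F1 * H` over `k`; clear the denominators of `H`:
`s H = map H'`, `s ≠ 0`; `s r (map G) = (r F1) (s H) = map (𝔽 H')`, so `C (s r) * G = 𝔽 * H'` by
injectivity of `R → k`. -/

set_option autoImplicit false

open Finset

namespace Pool.Agent.Lib.MP_4e7804_co

/-- The index set of the coefficients. -/
abbrev Cof {n d : ℕ} (P : Fin n → Set (Fin d → ℝ)) : Type := Σ i : Fin n, latticePoints (P i)

/-- The family of the coefficients. -/
def cof {n d : ℕ} (P : Fin n → Set (Fin d → ℝ)) (c : Fin n → (Fin d → ℤ) → ℂ) : Cof P → ℂ :=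
  fun q => c q.1 q.2

lemma descent_clear {n : ℕ} {R k : Type*} [CommRing R] [IsDomain R] [Field k] [Algebra R k]
    [IsFractionRing R k] (A : MvPolynomial (Fin n) k) :
    ∃ r : R, r ≠ 0 ∧ ∃ A' : MvPolynomial (Fin n) R,
      MvPolynomial.map (algebraMap R k) A' = MvPolynomial.C (algebraMap R k r) * A := by
  classical
  obtain ⟨b, hb⟩ := IsLocalization.exist_integer_multiples_of_finset (nonZeroDivisors R)
    (A.support.image fun m => MvPolynomial.coeff m A)
  have hb' : ∀ m ∈ A.support, ∃ a : R, algebraMap R k a = algebraMap R k b * MvPolynomial.coeff m A := by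
    intro m hm
    obtain ⟨a, ha⟩ := hb (MvPolynomial.coeff m A) (Finset.mem_image_of_mem _ hm)
    refine ⟨a, ?_⟩
    rw [ha, Algebra.smul_def]
  choose! a ha using hb'
  refine ⟨b, nonZeroDivisors.coe_ne_zero b, ∑ m ∈ A.support, MvPolynomial.monomial m (a m), ?_⟩
  rw [map_sum]
  conv_rhs => rw [MvPolynomial.as_sum A, Finset.mul_sum]
  refine Finset.sum_congr rfl fun m hm => ?_
  rw [MvPolynomial.map_monomial, ha m hm, MvPolynomial.C_mul_monomial]

lemma descent_coeff {d : ℕ} {R : Type*} [CommRing R] (T : Finset (Fin d → ℤ))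
    (a : (Fin d → ℤ) → R) (q : Fin d → ℤ) :
    (∑ p ∈ T, AddMonoidAlgebra.single p (a p) : AddMonoidAlgebra R (Fin d → ℤ)).coeff q =
      if q ∈ T then a q else 0 := by
  classical
  induction T using Finset.induction_on with
  | empty => simp
  | insert p T hp ih =>
    rw [Finset.sum_insert hp, AddMonoidAlgebra.coeff_add, Finsupp.add_apply, ih,
      AddMonoidAlgebra.coeff_single, Finsupp.single_apply]
    by_cases h : p = q
    · subst h
      simp [hp]
    · have h' : q ≠ p := fun h2 => h h2.symm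
      simp [h, h']

theorem exists_descent {n d : ℕ} (P : Fin n → Set (Fin d → ℝ))
    (hfin : ∀ i, (latticePoints (P i)).Finite) (c : Fin n → (Fin d → ℤ) → ℂ)
    (hc : IsGeneric P c) (F : MvPolynomial (Fin n) ℂ) (hF : IsImplicitEq P c F) :
    ∃ (𝔽 : MvPolynomial (Fin n) (MvPolynomial (Cof P) ℚ)) (μ : ℂ), μ ≠ 0 ∧
      MvPolynomial.map (MvPolynomial.aeval (cof P c)).toRingHom 𝔽 = MvPolynomial.C μ * F ∧
      ∀ G : MvPolynomial (Fin n) (MvPolynomial (Cof P) ℚ),
        MvPolynomial.aeval (lau P hfin c)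
          (MvPolynomial.map (MvPolynomial.aeval (cof P c)).toRingHom G) = 0 →
        ∃ (g : MvPolynomial (Cof P) ℚ) (H : MvPolynomial (Fin n) (MvPolynomial (Cof P) ℚ)),
          g ≠ 0 ∧ MvPolynomial.C g * G = 𝔽 * H := by
  classical
  set j : MvPolynomial (Cof P) ℚ →+* ℂ := (MvPolynomial.aeval (cof P c)).toRingHom with hj
  have hjinj : Function.Injective j := hc
  let k := FractionRing (MvPolynomial (Cof P) ℚ)
  let _ : Algebra k ℂ := (IsFractionRing.lift (K := k) hjinj).toAlgebra
  have hjk : ∀ r, algebraMap k ℂ (algebraMap (MvPolynomial (Cof P) ℚ) k r) = j r := fun r =>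
    IsFractionRing.lift_algebraMap hjinj r
  have hjk' : (algebraMap k ℂ).comp (algebraMap (MvPolynomial (Cof P) ℚ) k) = j :=
    RingHom.ext hjk
  have hf : ∀ i, ∃ g : AddMonoidAlgebra k (Fin d → ℤ), ∀ p : Fin d → ℤ,
      (lau P hfin c i).coeff p = algebraMap k ℂ (g.coeff p) := by
    intro i
    refine ⟨∑ p ∈ (hfin i).toFinset, AddMonoidAlgebra.single p
      (if h : p ∈ latticePoints (P i) then
        algebraMap (MvPolynomial (Cof P) ℚ) k (MvPolynomial.X ⟨i, ⟨p, h⟩⟩) else 0), fun p => ?_⟩
    rw [lau, descent_coeff, descent_coeff]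
    by_cases h : p ∈ latticePoints (P i)
    · have h' : p ∈ (hfin i).toFinset := (hfin i).mem_toFinset.mpr h
      rw [if_pos h', if_pos h', dif_pos h, hjk, hj]
      simp [cof]
    · have h' : p ∉ (hfin i).toFinset := fun h2 => h ((hfin i).mem_toFinset.mp h2)
      rw [if_neg h', if_neg h', map_zero]
  obtain ⟨F1, μ, hμ, hmap, hdvd⟩ := descent_field k (lau P hfin c) hf F hF.1.ne_zero
    (hF.aeval_lau hfin) (fun G hG => hF.dvd G ((eval_eq_zero_iff P hfin c G).mpr hG))
  obtain ⟨r, hr, 𝔽, h𝔽⟩ := descent_clear (R := MvPolynomial (Cof P) ℚ) F1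
  have hmj : ∀ G : MvPolynomial (Fin n) (MvPolynomial (Cof P) ℚ), MvPolynomial.map j G =
      MvPolynomial.map (algebraMap k ℂ)
        (MvPolynomial.map (algebraMap (MvPolynomial (Cof P) ℚ) k) G) := by
    intro G
    rw [MvPolynomial.map_map, hjk']
  refine ⟨𝔽, j r * μ, mul_ne_zero (fun h => hr (hjinj (by rw [h, map_zero]))) hμ, ?_, ?_⟩
  · rw [hmj, h𝔽, map_mul, MvPolynomial.map_C, hjk, hmap, MvPolynomial.C_mul, mul_assoc]
  · intro G hG
    rw [hmj] at hG
    obtain ⟨H, hH⟩ := hdvd _ hG
    obtain ⟨s, hs, H', hH'⟩ := descent_clear (R := MvPolynomial (Cof P) ℚ) H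
    refine ⟨r * s, H', mul_ne_zero hr hs, ?_⟩
    apply MvPolynomial.map_injective (algebraMap (MvPolynomial (Cof P) ℚ) k)
      (IsFractionRing.injective _ _)
    have e1 : MvPolynomial.map (algebraMap (MvPolynomial (Cof P) ℚ) k) (MvPolynomial.C (r * s) * G)
        = MvPolynomial.C (algebraMap (MvPolynomial (Cof P) ℚ) k r) *
          MvPolynomial.C (algebraMap (MvPolynomial (Cof P) ℚ) k s) * (F1 * H) := by
      rw [map_mul, MvPolynomial.map_C, hH, map_mul, MvPolynomial.C_mul]
    rw [e1, map_mul, h𝔽, hH']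
    ring

end Pool.Agent.Lib.MP_4e7804_co
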