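import Mathlib

/-! MP_4e7804_co, upper bound, module Low (100 lines): lowest weight forms of polynomials.

PROOFS. `exists_hasLow`: `ν` = the minimal weight in the support, `G0` = the sum of the monomials of
weight `ν`. `coeff`: if `wt m = ν` then `m` is not in the support of `G - G0`; if `wt m ≠ ν` then `m`
is not in the support of `G0`. `mul`: `G0 * H0 ≠ 0` (domain), all its monomials have weight
`ν + ν'`, and `G H - G0 H0 = (G - G0) H + G0 (H - H0)` has only monomials of larger weight
(`MvPolynomial.support_mul`; monomials of `H` have weight `≥ ν'`). `unique`: both are determined by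
`G`. -/

set_option autoImplicit false

open Finset

namespace Pool.Agent.Lib.MP_4e7804_co

/-- The weight of a monomial. -/
def wt {σ : Type*} [Fintype σ] (u : σ → ℚ) (m : σ →₀ ℕ) : ℚ := ∑ s, (m s : ℚ) * u s

/-- `G0` is the form of lowest weight of `G`, and `ν` the lowest weight. -/
def HasLow {σ R : Type*} [Fintype σ] [CommRing R] (u : σ → ℚ) (ν : ℚ)
    (G G0 : MvPolynomial σ R) : Prop :=
  G0 ≠ 0 ∧ (∀ m ∈ G0.support, wt u m = ν) ∧ ∀ m ∈ (G - G0).support, ν < wt u m

variable {σ R : Type*} [Fintype σ] [CommRing R] [IsDomain R] {u : σ → ℚ} {ν ν' : ℚ}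
  {G G0 H H0 : MvPolynomial σ R}

lemma low_wt_add (u : σ → ℚ) (m m' : σ →₀ ℕ) : wt u (m + m') = wt u m + wt u m' := by
  unfold wt
  rw [← Finset.sum_add_distrib]
  refine Finset.sum_congr rfl fun s _ => ?_
  rw [Finsupp.add_apply]
  push_cast
  ring

lemma low_mul_support {A B : MvPolynomial σ R} {m : σ →₀ ℕ} (hm : m ∈ (A * B).support) :
    ∃ a ∈ A.support, ∃ b ∈ B.support, a + b = m := by
  classical
  have := MvPolynomial.support_mul A B hm
  exact Finset.mem_add.mp this

theorem exists_hasLow (u : σ → ℚ) (hG : G ≠ 0) : ∃ ν G0, HasLow u ν G G0 := by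
  classical
  have hne : G.support.Nonempty := by
    rw [Finset.nonempty_iff_ne_empty]
    exact fun h => hG (MvPolynomial.support_eq_empty.mp h)
  obtain ⟨m0, hm0, hmin⟩ := Finset.exists_min_image G.support (wt u) hne
  set G0 : MvPolynomial σ R := ∑ m ∈ G.support.filter (fun m => wt u m = wt u m0),
    MvPolynomial.monomial m (MvPolynomial.coeff m G) with hG0
  have hcoeff : ∀ m, MvPolynomial.coeff m G0 =
      if wt u m = wt u m0 then MvPolynomial.coeff m G else 0 := by
    intro m
    rw [hG0, MvPolynomial.coeff_sum]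
    simp only [MvPolynomial.coeff_monomial]
    rw [Finset.sum_ite_eq' (G.support.filter (fun m => wt u m = wt u m0)) m
      (fun m => MvPolynomial.coeff m G)]
    simp only [Finset.mem_filter, MvPolynomial.mem_support_iff]
    by_cases h1 : wt u m = wt u m0
    · by_cases h2 : MvPolynomial.coeff m G = 0
      · simp [h1, h2]
      · simp [h1, h2]
    · simp [h1]
  refine ⟨wt u m0, G0, ?_, ?_, ?_⟩
  · intro h
    have := hcoeff m0
    rw [h, MvPolynomial.coeff_zero, if_pos rfl] at this
    exact (MvPolynomial.mem_support_iff.mp hm0) this.symm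
  · intro m hm
    rw [MvPolynomial.mem_support_iff, hcoeff] at hm
    by_contra h
    exact hm (if_neg h)
  · intro m hm
    rw [MvPolynomial.mem_support_iff, MvPolynomial.coeff_sub, hcoeff] at hm
    by_cases h1 : wt u m = wt u m0
    · rw [if_pos h1, sub_self] at hm
      exact absurd rfl hm
    · rw [if_neg h1, sub_zero] at hm
      exact lt_of_le_of_ne (hmin m (MvPolynomial.mem_support_iff.mpr hm)) (Ne.symm h1)

theorem HasLow.coeff (h : HasLow u ν G G0) (m : σ →₀ ℕ) :
    G0.coeff m = if wt u m = ν then G.coeff m else 0 := by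
  split_ifs with h1
  · by_contra h2
    have h3 : m ∈ (G - G0).support := by
      rw [MvPolynomial.mem_support_iff, MvPolynomial.coeff_sub, sub_ne_zero]
      exact fun h4 => h2 h4.symm
    exact absurd h1 (ne_of_gt (h.2.2 m h3))
  · by_contra h2
    exact h1 (h.2.1 m (MvPolynomial.mem_support_iff.mpr h2))

theorem HasLow.le (h : HasLow u ν G G0) (m : σ →₀ ℕ) (hm : m ∈ G.support) : ν ≤ wt u m := by
  by_cases h1 : m ∈ (G - G0).support
  · exact (h.2.2 m h1).le
  · rw [MvPolynomial.notMem_support_iff, MvPolynomial.coeff_sub, sub_eq_zero] at h1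
    have h2 : m ∈ G0.support := by
      rw [MvPolynomial.mem_support_iff, ← h1]
      exact MvPolynomial.mem_support_iff.mp hm
    exact (h.2.1 m h2).ge

theorem HasLow.mul (h : HasLow u ν G G0) (h' : HasLow u ν' H H0) :
    HasLow u (ν + ν') (G * H) (G0 * H0) := by
  classical
  refine ⟨mul_ne_zero h.1 h'.1, ?_, ?_⟩
  · intro m hm
    obtain ⟨a, ha, b, hb, rfl⟩ := low_mul_support hm
    rw [low_wt_add, h.2.1 a ha, h'.2.1 b hb]
  · intro m hm
    have h1 : G * H - G0 * H0 = (G - G0) * H + G0 * (H - H0) := by ring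
    rw [h1] at hm
    rcases Finset.mem_union.mp (MvPolynomial.support_add hm) with h2 | h2
    · obtain ⟨a, ha, b, hb, rfl⟩ := low_mul_support h2
      rw [low_wt_add]
      exact add_lt_add_of_lt_of_le (h.2.2 a ha) (h'.le b hb)
    · obtain ⟨a, ha, b, hb, rfl⟩ := low_mul_support h2
      rw [low_wt_add]
      exact add_lt_add_of_le_of_lt (h.2.1 a ha).ge (h'.2.2 b hb)

theorem HasLow.unique {G0' : MvPolynomial σ R} (h : HasLow u ν G G0) (h' : HasLow u ν' G G0') :
    ν = ν' ∧ G0 = G0' := by
  have key : ∀ {ν ν' : ℚ} {G0 G0' : MvPolynomial σ R}, HasLow u ν G G0 → HasLow u ν' G G0' →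
      ν ≤ ν' := by
    intro ν ν' G0 G0' h h'
    have hne : G0'.support.Nonempty := by
      rw [Finset.nonempty_iff_ne_empty]
      exact fun h3 => h'.1 (MvPolynomial.support_eq_empty.mp h3)
    obtain ⟨m, hm⟩ := hne
    have h1 := h'.2.1 m hm
    have h2 : m ∈ G.support := by
      rw [MvPolynomial.mem_support_iff]
      have h3 := h'.coeff m
      rw [if_pos h1] at h3
      rw [← h3]
      exact MvPolynomial.mem_support_iff.mp hm
    exact (h.le m h2).trans h1.le
  have hν : ν = ν' := le_antisymm (key h h') (key h' h)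
  subst hν
  refine ⟨rfl, ?_⟩
  ext m
  rw [h.coeff, h'.coeff]

end Pool.Agent.Lib.MP_4e7804_co
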