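import Mathlib

/-! MP_4e7804_co, upper bound, module TorusZero (60 lines).

PROOF. Choose natural numbers `e_i` such that `m ↦ ∑ m_i e_i` is injective on `G.support` (e.g.
`e_i = B ^ i` with `B` larger than all exponents). The one-variable polynomial
`g(u) = eval (fun i => u ^ e_i) G = ∑ coeff_m u^(∑ m_i e_i)` has at least two terms. Write
`g = X^r * h` with `h(0) ≠ 0`; `h` has at least two terms, so its degree is positive and it has a
root `u` (`IsAlgClosed.exists_root`), `u ≠ 0`. Take `ξ i = u ^ e_i`. -/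

set_option autoImplicit false

open Finset

namespace Pool.Agent.Lib.MP_4e7804_co

theorem TorusZero_root (g : Polynomial ℂ) (a b : ℕ) (ha : g.coeff a ≠ 0) (hb : g.coeff b ≠ 0)
    (hab : a ≠ b) : ∃ u : ℂ, u ≠ 0 ∧ g.eval u = 0 := by
  by_contra hcon
  push Not at hcon
  have hg : g ≠ 0 := by
    rintro rfl
    exact ha (Polynomial.coeff_zero a)
  have hroots : ∀ u ∈ g.roots, u = 0 := by
    intro u hu
    by_contra hu0
    exact hcon u hu0 ((Polynomial.mem_roots hg).1 hu)
  have hrep : g.roots = Multiset.replicate (Multiset.card g.roots) 0 :=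
    Multiset.eq_replicate_card.2 hroots
  have hsp := (IsAlgClosed.splits g).eq_prod_roots
  rw [hrep, Multiset.map_replicate, Multiset.prod_replicate, Polynomial.C_0, sub_zero] at hsp
  have hc : ∀ k, g.coeff k ≠ 0 → k = Multiset.card g.roots := by
    intro k hk
    by_contra hne
    apply hk
    rw [hsp, Polynomial.coeff_C_mul, Polynomial.coeff_X_pow, if_neg hne, mul_zero]
  exact hab ((hc a ha).trans (hc b hb).symm)

theorem exists_torus_zero {n : ℕ} (G : MvPolynomial (Fin n) ℂ) (α β : Fin n →₀ ℕ)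
    (hα : α ∈ G.support) (hβ : β ∈ G.support) (hne : α ≠ β) :
    ∃ ξ : Fin n → ℂ, (∀ i, ξ i ≠ 0) ∧ MvPolynomial.eval ξ G = 0 := by
  classical
  -- a bound for all exponents
  obtain ⟨B, hB⟩ : ∃ B : ℕ, ∀ m ∈ G.support, ∀ i, m i < B := by
    refine ⟨(G.support.sup fun m => univ.sup fun i => m i) + 1, fun m hm i => ?_⟩
    have h1 : m i ≤ univ.sup fun i => m i := Finset.le_sup (f := fun i => m i) (mem_univ i)
    have h2 : (univ.sup fun i => m i) ≤ G.support.sup fun m => univ.sup fun i => m i :=
      Finset.le_sup (f := fun m : Fin n →₀ ℕ => univ.sup fun i => m i) hm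
    omega
  let E : (Fin n →₀ ℕ) → ℕ := fun m => ∑ i, m i * B ^ (i : ℕ)
  have hinj : ∀ m ∈ G.support, ∀ m' ∈ G.support, E m = E m' → m = m' := by
    intro m hm m' hm' h
    have h1 : finFunctionFinEquiv (fun i : Fin n => (⟨m i, hB m hm i⟩ : Fin B)) =
        finFunctionFinEquiv (fun i : Fin n => (⟨m' i, hB m' hm' i⟩ : Fin B)) := by
      apply Fin.ext
      rw [finFunctionFinEquiv_apply_val, finFunctionFinEquiv_apply_val]
      exact h
    have h2 := finFunctionFinEquiv.injective h1
    ext i
    exact congrArg Fin.val (congrFun h2 i)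
  let g : Polynomial ℂ := ∑ m ∈ G.support, Polynomial.C (G.coeff m) * Polynomial.X ^ (E m)
  have hgc : ∀ m ∈ G.support, g.coeff (E m) = G.coeff m := by
    intro m hm
    simp only [g, Polynomial.finsetSum_coeff, Polynomial.coeff_C_mul, Polynomial.coeff_X_pow]
    rw [Finset.sum_eq_single m]
    · rw [if_pos rfl, mul_one]
    · intro m' hm' hmm
      rw [if_neg, mul_zero]
      intro h
      exact hmm (hinj m' hm' m hm h.symm)
    · intro h
      exact absurd hm h
  have hgev : ∀ u : ℂ, g.eval u = MvPolynomial.eval (fun i : Fin n => u ^ B ^ (i : ℕ)) G := by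
    intro u
    rw [MvPolynomial.eval_eq']
    simp only [g, Polynomial.eval_finsetSum, Polynomial.eval_mul, Polynomial.eval_C,
      Polynomial.eval_pow, Polynomial.eval_X]
    refine Finset.sum_congr rfl fun m _ => ?_
    congr 1
    simp only [E]
    rw [← Finset.prod_pow_eq_pow_sum]
    refine Finset.prod_congr rfl fun i _ => ?_
    rw [← pow_mul, mul_comm]
  obtain ⟨u, hu0, hu⟩ := TorusZero_root g (E α) (E β)
    (by rw [hgc α hα]; exact MvPolynomial.mem_support_iff.1 hα)
    (by rw [hgc β hβ]; exact MvPolynomial.mem_support_iff.1 hβ)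
    (fun h => hne (hinj α hα β hβ h))
  refine ⟨fun i => u ^ B ^ (i : ℕ), fun i => pow_ne_zero _ hu0, ?_⟩
  rw [← hgev, hu]

end Pool.Agent.Lib.MP_4e7804_co
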