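import Mathlib
import Pool.Agent.Lib.MP_4e7804_co.Up.Descent
import Pool.Agent.Lib.MP_4e7804_co.Up.Low
import Pool.Agent.Lib.MP_4e7804_co.Up.TorusZero

/-! MP_4e7804_co, upper bound, module Key (200 lines): the residue homomorphism.

Notation: `I = Cof P` (finite), `σ = I ⊕ Fin n`, `R = MvPolynomial I ℚ`; polynomials in
`MvPolynomial σ ℚ` and in `MvPolynomial (Fin n) R` are identified by the ring isomorphism
`MvPolynomial.sumAlgEquiv ℚ (Fin n) I` after swapping the summands
(`MvPolynomial.sumAlgEquiv R S₁ S₂ : MvPolynomial (S₁ ⊕ S₂) R ≃ₐ MvPolynomial S₁ (MvPolynomial S₂ R)`);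
the worker may replace `σ` by the swapped order INSIDE the proof, the statement is below.

PROOF. Weights: `u (inl q) = η q`, `u (inr i) = z i`. For every `α` in the support of `𝔽` let
`low 𝔽_α` be the lowest weight form of the coefficient `𝔽_α ∈ R` (weights `η`), of weight `ϕ α`
(hypothesis `hϕ`). The lowest weight form `𝔽0` of `𝔽 ∈ MvPolynomial σ ℚ` is
`∑ (low 𝔽_α) X^α` over those `α` where `ϕ α + α·z` is minimal (`= ν_F`). By the tie hypothesis at
least two different `α, β` belong to these. Evaluate the coefficients at `c`: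
`F0 := ∑ (low 𝔽_α)(c) X^α ∈ ℂ[X]` has at least the two monomials `α, β` because `(low 𝔽_α)(c) ≠ 0`
(algebraic independence). Let `ξ` be a zero of `F0` in the torus (`exists_torus_zero`) and
`ζ (inl q) = c_q`, `ζ (inr i) = ξ i`. So `𝔽0 (ζ) = 0`.
Now let `G ∈ MvPolynomial σ ℤ` have all weights `≥ ν` and `aeval x G = 0` in `L`, the fraction field
of `Λ = AddMonoidAlgebra ℂ (Fin d → ℤ)`; `aeval x G` is the image of
`aeval (lau ..) (map (aeval cof) G')`, `G'` = `G` seen in `MvPolynomial (Fin n) R`, and `Λ → L` is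
injective, so `exists_descent` gives `C g * G' = 𝔽 * H`, `g ≠ 0`. If `G = 0` the claim is trivial.
Otherwise `H ≠ 0`; let `G0, g0, H0` be the lowest weight forms (`Low.lean`, over `ℚ`). By
`HasLow.mul` and `HasLow.unique`, `g0 * G0 = 𝔽0 * H0`, so `g0(c) * G0(ζ) = 𝔽0(ζ) * H0(ζ) = 0`, and
`g0(c) ≠ 0` (a nonzero polynomial in the algebraically independent `c`), so `G0(ζ) = 0`. The sum in
the statement is `G0(ζ)` if the lowest weight of `G` is `ν` (`HasLow.coeff`), and an empty sum if it
is `> ν`. -/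

set_option autoImplicit false
set_option linter.unusedSectionVars false

open Finset

namespace Pool.Agent.Lib.MP_4e7804_co

section keyAux

variable {I : Type} [Fintype I] {n : ℕ}

/-- two blocks of variables into one -/
noncomputable def keyT (I : Type) (n : ℕ) :
    MvPolynomial (Fin n) (MvPolynomial I ℚ) →+* MvPolynomial (I ⊕ Fin n) ℚ :=
  MvPolynomial.eval₂Hom (MvPolynomial.rename (R := ℚ) (Sum.inl : I → I ⊕ Fin n)).toRingHom
    (fun i => MvPolynomial.X (Sum.inr i))

theorem keyT_C (p : MvPolynomial I ℚ) :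
    keyT I n (MvPolynomial.C p) = MvPolynomial.rename Sum.inl p := by
  simp [keyT]

theorem keyT_X (i : Fin n) : keyT I n (MvPolynomial.X i) = MvPolynomial.X (Sum.inr i) := by
  simp [keyT]

/-- the exponent of a product of monomials in the two blocks -/
noncomputable def keyE (m : I →₀ ℕ) (α : Fin n →₀ ℕ) : (I ⊕ Fin n) →₀ ℕ :=
  m.mapDomain Sum.inl + α.mapDomain Sum.inr

theorem keyE_inl (m : I →₀ ℕ) (α : Fin n →₀ ℕ) (q : I) : keyE m α (Sum.inl q) = m q := by
  unfold keyE
  rw [Finsupp.add_apply, Finsupp.mapDomain_apply Sum.inl_injective,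
    Finsupp.mapDomain_of_notMem_range, add_zero]
  simp

theorem keyE_inr (m : I →₀ ℕ) (α : Fin n →₀ ℕ) (i : Fin n) : keyE m α (Sum.inr i) = α i := by
  unfold keyE
  rw [Finsupp.add_apply, Finsupp.mapDomain_apply Sum.inr_injective,
    Finsupp.mapDomain_of_notMem_range, zero_add]
  simp

theorem keyE_wt (η : I → ℚ) (z : Fin n → ℚ) (m : I →₀ ℕ) (α : Fin n →₀ ℕ) :
    wt (Sum.elim η z) (keyE m α) = wt η m + ∑ i, (α i : ℚ) * z i := by
  unfold wt
  rw [Fintype.sum_sum_type]
  simp [keyE_inl, keyE_inr]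

theorem keyT_mon (m : I →₀ ℕ) (α : Fin n →₀ ℕ) (a : ℚ) :
    keyT I n (MvPolynomial.monomial α (MvPolynomial.monomial m a)) =
      MvPolynomial.monomial (keyE m α) a := by
  have h1 : keyT I n (MvPolynomial.monomial α (MvPolynomial.monomial m a)) =
      MvPolynomial.rename Sum.inl (MvPolynomial.monomial m a) *
        α.prod (fun i k => (MvPolynomial.X (Sum.inr i) : MvPolynomial (I ⊕ Fin n) ℚ) ^ k) := by
    simp [keyT, MvPolynomial.eval₂Hom_monomial]
  rw [h1, MvPolynomial.rename_monomial]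
  have h2 : α.prod (fun i k => (MvPolynomial.X (Sum.inr i) : MvPolynomial (I ⊕ Fin n) ℚ) ^ k) =
      MvPolynomial.monomial (α.mapDomain Sum.inr) 1 := by
    have h3 := MvPolynomial.rename_monomial (R := ℚ) (Sum.inr : Fin n → I ⊕ Fin n) α 1
    have h4 : (MvPolynomial.monomial α (1 : ℚ)) = α.prod (fun i k => MvPolynomial.X i ^ k) := by
      rw [MvPolynomial.monomial_eq, MvPolynomial.C_1, one_mul]
    rw [← h3, h4, Finsupp.prod, Finsupp.prod, map_prod]
    exact prod_congr rfl (fun x _ => by rw [map_pow, MvPolynomial.rename_X])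
  rw [h2, MvPolynomial.monomial_mul, mul_one]
  rfl

theorem keyT_supp (F : MvPolynomial (Fin n) (MvPolynomial I ℚ)) (η : I → ℚ) (z : Fin n → ℚ)
    (Pr : ℚ → Prop) (h : ∀ α ∈ F.support, ∀ m ∈ (F.coeff α).support,
      Pr (wt η m + ∑ i, (α i : ℚ) * z i)) :
    ∀ m ∈ (keyT I n F).support, Pr (wt (Sum.elim η z) m) := by
  classical
  intro m hm
  have e : keyT I n F = ∑ α ∈ F.support, ∑ m ∈ (F.coeff α).support,
      MvPolynomial.monomial (keyE m α) ((F.coeff α).coeff m) := by
    conv_lhs => rw [F.as_sum]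
    rw [map_sum]
    refine sum_congr rfl (fun α _ => ?_)
    conv_lhs => rw [(F.coeff α).as_sum]
    rw [map_sum, map_sum]
    refine sum_congr rfl (fun m _ => ?_)
    rw [keyT_mon]
  rw [e] at hm
  obtain ⟨α, hα, hm1⟩ := mem_biUnion.1 (MvPolynomial.support_sum hm)
  obtain ⟨m', hm', hm2⟩ := mem_biUnion.1 (MvPolynomial.support_sum hm1)
  have hm3 := MvPolynomial.support_monomial_subset hm2
  rw [mem_singleton] at hm3
  rw [hm3, keyE_wt]
  exact h α hα m' hm'

/-- evaluation after `keyT` -/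
theorem keyT_eval (c : I → ℂ) (ξ : Fin n → ℂ) (F : MvPolynomial (Fin n) (MvPolynomial I ℚ)) :
    MvPolynomial.aeval (Sum.elim c ξ) (keyT I n F) =
      MvPolynomial.eval ξ (MvPolynomial.map (MvPolynomial.aeval (R := ℚ) c).toRingHom F) := by
  have h : ((MvPolynomial.aeval (R := ℚ) (Sum.elim c ξ)).toRingHom).comp (keyT I n) =
      (MvPolynomial.eval ξ).comp
        (MvPolynomial.map (MvPolynomial.aeval (R := ℚ) c).toRingHom) := by
    refine MvPolynomial.ringHom_ext (fun p => ?_) (fun i => ?_)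
    · simp only [RingHom.comp_apply, keyT_C, MvPolynomial.map_C, MvPolynomial.eval_C]
      simp [MvPolynomial.aeval_rename]
    · simp [keyT_X]
  exact DFunLike.congr_fun h F

theorem keyT_ne (F : MvPolynomial (Fin n) (MvPolynomial I ℚ)) (c : I → ℂ)
    (h : MvPolynomial.map (MvPolynomial.aeval (R := ℚ) c).toRingHom F ≠ 0) : keyT I n F ≠ 0 := by
  intro h0
  apply h
  apply MvPolynomial.funext
  intro ξ
  rw [← keyT_eval, h0, map_zero, map_zero]

end keyAux

/-- The elements of the function field with prescribed valuations: the coefficients and the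
`f_i`. -/
noncomputable def xL {n d : ℕ} (P : Fin n → Set (Fin d → ℝ))
    (hfin : ∀ i, (latticePoints (P i)).Finite) (c : Fin n → (Fin d → ℤ) → ℂ) :
    Cof P ⊕ Fin n → FractionRing (AddMonoidAlgebra ℂ (Fin d → ℤ)) :=
  Sum.elim (fun q => algebraMap _ _ (AddMonoidAlgebra.single (0 : Fin d → ℤ) (cof P c q)))
    (fun i => algebraMap _ _ (lau P hfin c i))

theorem key {n d : ℕ} (P : Fin n → Set (Fin d → ℝ))
    (hfin : ∀ i, (latticePoints (P i)).Finite) [Fintype (Cof P)] (c : Fin n → (Fin d → ℤ) → ℂ)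
    (hc : IsGeneric P c) (𝔽 : MvPolynomial (Fin n) (MvPolynomial (Cof P) ℚ))
    (hG : ∀ G : MvPolynomial (Fin n) (MvPolynomial (Cof P) ℚ),
        MvPolynomial.aeval (lau P hfin c)
          (MvPolynomial.map (MvPolynomial.aeval (cof P c)).toRingHom G) = 0 →
        ∃ (g : MvPolynomial (Cof P) ℚ) (H : MvPolynomial (Fin n) (MvPolynomial (Cof P) ℚ)),
          g ≠ 0 ∧ MvPolynomial.C g * G = 𝔽 * H)
    (η : Cof P → ℚ) (z : Fin n → ℚ) (ϕ : (Fin n →₀ ℕ) → ℚ)
    (low : (Fin n →₀ ℕ) → MvPolynomial (Cof P) ℚ)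
    (hϕ : ∀ α ∈ 𝔽.support, HasLow η (ϕ α) (𝔽.coeff α) (low α))
    (α β : Fin n →₀ ℕ) (hα : α ∈ 𝔽.support) (hβ : β ∈ 𝔽.support) (hne : α ≠ β)
    (htie : ϕ α + ∑ i, (α i : ℚ) * z i = ϕ β + ∑ i, (β i : ℚ) * z i)
    (hmin : ∀ γ ∈ 𝔽.support, ϕ α + ∑ i, (α i : ℚ) * z i ≤ ϕ γ + ∑ i, (γ i : ℚ) * z i) :
    ∃ ζ : Cof P ⊕ Fin n → ℂ, (∀ s, ζ s ≠ 0) ∧
      ∀ (G : MvPolynomial (Cof P ⊕ Fin n) ℤ) (ν : ℚ),
        (∀ m ∈ G.support, ν ≤ ∑ s, (m s : ℚ) * Sum.elim η z s) →
        MvPolynomial.aeval (xL P hfin c) G = 0 →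
        ∑ m ∈ G.support.filter (fun m => ∑ s, (m s : ℚ) * Sum.elim η z s = ν),
          ((MvPolynomial.coeff m G : ℤ) : ℂ) * ∏ s, ζ s ^ (m s) = 0 := by
  classical
  -- the embedding of the coefficient ring
  have hj : Function.Injective (MvPolynomial.aeval (R := ℚ) (cof P c)) := hc
  have hj0 : ∀ p : MvPolynomial (Cof P) ℚ, p ≠ 0 → MvPolynomial.aeval (cof P c) p ≠ 0 := by
    intro p hp h0
    exact hp (hj (by rw [h0, map_zero]))
  -- the lowest weight form of `𝔽`
  obtain ⟨νF, hνF⟩ : ∃ νF, νF = ϕ α + ∑ i, (α i : ℚ) * z i := ⟨_, rfl⟩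
  let A : Finset (Fin n →₀ ℕ) :=
    𝔽.support.filter (fun γ => ϕ γ + ∑ i, (γ i : ℚ) * z i = νF)
  let F0 : MvPolynomial (Fin n) (MvPolynomial (Cof P) ℚ) :=
    ∑ γ ∈ A, MvPolynomial.monomial γ (low γ)
  have hF0c : ∀ γ, F0.coeff γ = if γ ∈ A then low γ else 0 := by
    intro γ
    simp only [F0, MvPolynomial.coeff_sum, MvPolynomial.coeff_monomial]
    rw [sum_ite_eq' A γ]
  have hαA : α ∈ A := mem_filter.2 ⟨hα, hνF.symm⟩
  have hβA : β ∈ A := mem_filter.2 ⟨hβ, by rw [hνF, ← htie]⟩
  have hlow : ∀ γ ∈ 𝔽.support, low γ ≠ 0 := fun γ hγ => (hϕ γ hγ).1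
  have hmapc : ∀ (F : MvPolynomial (Fin n) (MvPolynomial (Cof P) ℚ)) γ,
      (MvPolynomial.map (MvPolynomial.aeval (R := ℚ) (cof P c)).toRingHom F).coeff γ =
        MvPolynomial.aeval (cof P c) (F.coeff γ) := by
    intro F γ
    rw [MvPolynomial.coeff_map]
    rfl
  have hmem : ∀ γ ∈ A, γ ∈ (MvPolynomial.map
      (MvPolynomial.aeval (R := ℚ) (cof P c)).toRingHom F0).support := by
    intro γ hγ
    rw [MvPolynomial.mem_support_iff, hmapc, hF0c, if_pos hγ]
    exact hj0 _ (hlow γ (mem_filter.1 hγ).1)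
  obtain ⟨ξ, hξ, hξ0⟩ := exists_torus_zero _ α β (hmem α hαA) (hmem β hβA) hne
  have hF0ne : keyT (Cof P) n F0 ≠ 0 := by
    refine keyT_ne F0 (cof P c) ?_
    intro h0
    have := hmem α hαA
    rw [h0] at this
    simp at this
  have hlowF : HasLow (Sum.elim η z) νF (keyT (Cof P) n 𝔽) (keyT (Cof P) n F0) := by
    refine ⟨hF0ne, ?_, ?_⟩
    · refine keyT_supp F0 η z (fun x => x = νF) ?_
      intro γ hγ m hm
      rw [MvPolynomial.mem_support_iff, hF0c] at hγ
      have hγA : γ ∈ A := by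
        by_contra h
        exact hγ (if_neg h)
      rw [hF0c, if_pos hγA] at hm
      have h1 := (mem_filter.1 hγA)
      rw [(hϕ γ h1.1).2.1 m hm]
      exact h1.2
    · rw [← map_sub]
      refine keyT_supp (𝔽 - F0) η z (fun x => νF < x) ?_
      intro γ hγ m hm
      have hc1 : (𝔽 - F0).coeff γ = 𝔽.coeff γ - F0.coeff γ :=
        MvPolynomial.coeff_sub _ γ 𝔽 F0
      rw [hc1, hF0c] at hm
      by_cases hγA : γ ∈ A
      · rw [if_pos hγA] at hm
        have h1 := (mem_filter.1 hγA)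
        have h2 := (hϕ γ h1.1).2.2 m hm
        have h3 := h1.2
        linarith
      · rw [if_neg hγA, sub_zero] at hm
        have hγF : γ ∈ 𝔽.support := by
          rw [MvPolynomial.mem_support_iff]
          intro h0
          rw [h0] at hm
          simp at hm
        have h2 := (hϕ γ hγF).le m hm
        have h3 : ϕ γ + ∑ i, (γ i : ℚ) * z i ≠ νF := fun h => hγA (mem_filter.2 ⟨hγF, h⟩)
        have h4 := hmin γ hγF
        rw [← hνF] at h4
        have h5 := lt_of_le_of_ne h4 (Ne.symm h3)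
        linarith
  refine ⟨Sum.elim (cof P c) ξ, ?_, ?_⟩
  · rintro (q | i)
    · show cof P c q ≠ 0
      have := hj0 (MvPolynomial.X q) (MvPolynomial.X_ne_zero q)
      simpa using this
    · exact hξ i
  intro G ν hν hG0
  by_cases hGz : G = 0
  · rw [hGz]
    simp
  -- `G` over `ℚ` in two blocks
  let Ψ : MvPolynomial (Cof P ⊕ Fin n) ℤ →+* MvPolynomial (Fin n) (MvPolynomial (Cof P) ℚ) :=
    MvPolynomial.eval₂Hom (Int.castRingHom _)
      (Sum.elim (fun q => MvPolynomial.C (MvPolynomial.X q)) (fun i => MvPolynomial.X i))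
  have hΨX : ∀ s, Ψ (MvPolynomial.X s) =
      Sum.elim (fun q => MvPolynomial.C (MvPolynomial.X q)) (fun i => MvPolynomial.X i) s := by
    intro s
    simp [Ψ]
  have hTΨ : keyT (Cof P) n (Ψ G) = MvPolynomial.map (Int.castRingHom ℚ) G := by
    have h : (keyT (Cof P) n).comp Ψ = MvPolynomial.map (Int.castRingHom ℚ) := by
      refine MvPolynomial.ringHom_ext (fun a => ?_) (fun s => ?_)
      · simp
      · rw [RingHom.comp_apply, hΨX]
        rcases s with q | i
        · simp [keyT_C]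
        · simp [keyT_X]
    exact DFunLike.congr_fun h G
  have hlau : MvPolynomial.aeval (lau P hfin c)
      (MvPolynomial.map (MvPolynomial.aeval (cof P c)).toRingHom (Ψ G)) = 0 := by
    have hinj : Function.Injective (algebraMap (AddMonoidAlgebra ℂ (Fin d → ℤ))
        (FractionRing (AddMonoidAlgebra ℂ (Fin d → ℤ)))) :=
      IsFractionRing.injective _ _
    apply hinj
    rw [map_zero, ← hG0]
    have h : ((algebraMap (AddMonoidAlgebra ℂ (Fin d → ℤ))
          (FractionRing (AddMonoidAlgebra ℂ (Fin d → ℤ)))).comp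
        (((MvPolynomial.aeval (R := ℂ) (lau P hfin c)).toRingHom.comp
          (MvPolynomial.map (MvPolynomial.aeval (R := ℚ) (cof P c)).toRingHom)).comp Ψ)) =
        (MvPolynomial.aeval (R := ℤ) (xL P hfin c)).toRingHom := by
      refine MvPolynomial.ringHom_ext (fun a => ?_) (fun s => ?_)
      · simp
      · simp only [RingHom.comp_apply, hΨX]
        rcases s with q | i
        · simp [xL]
        · simp [xL]
    exact DFunLike.congr_fun h G
  obtain ⟨g, H, hg, hgH⟩ := hG (Ψ G) hlau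
  have hprod := congrArg (keyT (Cof P) n) hgH
  rw [map_mul, map_mul, hTΨ] at hprod
  have hGQ : MvPolynomial.map (Int.castRingHom ℚ) G ≠ 0 := by
    intro h0
    apply hGz
    have hinj : Function.Injective
        (MvPolynomial.map (σ := Cof P ⊕ Fin n) (Int.castRingHom ℚ)) :=
      MvPolynomial.map_injective _ (RingHom.injective_int _)
    exact hinj (by rw [h0, map_zero])
  have hgne : keyT (Cof P) n (MvPolynomial.C g) ≠ 0 := by
    rw [keyT_C]
    intro h0
    exact hg (MvPolynomial.rename_injective _ Sum.inl_injective (by rw [h0, map_zero]))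
  have hHne : keyT (Cof P) n H ≠ 0 := by
    intro h0
    rw [h0, mul_zero] at hprod
    exact (mul_ne_zero hgne hGQ) hprod
  obtain ⟨νg, g0, hlg⟩ := exists_hasLow (R := ℚ) η hg
  obtain ⟨νG, G0, hlG⟩ := exists_hasLow (R := ℚ) (Sum.elim η z) hGQ
  obtain ⟨νH, H0, hlH⟩ := exists_hasLow (R := ℚ) (Sum.elim η z) hHne
  have hg0ne : MvPolynomial.aeval (Sum.elim (cof P c) ξ)
      (keyT (Cof P) n (MvPolynomial.C g0)) ≠ 0 := by
    rw [keyT_eval, MvPolynomial.map_C, MvPolynomial.eval_C]
    exact hj0 g0 hlg.1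
  have hlTg : HasLow (Sum.elim η z) νg (keyT (Cof P) n (MvPolynomial.C g))
      (keyT (Cof P) n (MvPolynomial.C g0)) := by
    have hC : ∀ (p : MvPolynomial (Cof P) ℚ) (γ : Fin n →₀ ℕ),
        γ ∈ (MvPolynomial.C p : MvPolynomial (Fin n) (MvPolynomial (Cof P) ℚ)).support →
        γ = 0 := by
      intro p γ hγ
      rw [MvPolynomial.mem_support_iff, MvPolynomial.coeff_C] at hγ
      by_contra h
      exact hγ (if_neg (Ne.symm h))
    refine ⟨?_, ?_, ?_⟩
    · intro h0
      apply hg0ne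
      rw [h0, map_zero]
    · refine keyT_supp _ η z (fun x => x = νg) ?_
      intro γ hγ m hm
      have h0 := hC g0 γ hγ
      subst h0
      rw [MvPolynomial.coeff_C, if_pos rfl] at hm
      rw [hlg.2.1 m hm]
      simp
    · rw [← map_sub, ← map_sub]
      refine keyT_supp _ η z (fun x => νg < x) ?_
      intro γ hγ m hm
      have h0 := hC (g - g0) γ hγ
      subst h0
      rw [MvPolynomial.coeff_C, if_pos rfl] at hm
      have := hlg.2.2 m hm
      simpa using this
  have hL := hlTg.mul hlG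
  have hR := hlowF.mul hlH
  rw [hprod] at hL
  have heq := (hL.unique hR).2
  have hG0z : MvPolynomial.aeval (Sum.elim (cof P c) ξ) G0 = 0 := by
    have h1 := congrArg (MvPolynomial.aeval (Sum.elim (cof P c) ξ)) heq
    rw [map_mul, map_mul, keyT_eval (cof P c) ξ F0, hξ0, zero_mul] at h1
    rcases mul_eq_zero.1 h1 with h2 | h2
    · exact absurd h2 hg0ne
    · exact h2
  have hcoeff : ∀ m, MvPolynomial.coeff m (MvPolynomial.map (Int.castRingHom ℚ) G) =
      ((MvPolynomial.coeff m G : ℤ) : ℚ) := by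
    intro m
    rw [MvPolynomial.coeff_map]
    rfl
  by_cases hνν : νG = ν
  · -- the sum is the value of `G0`
    have hG0eval : MvPolynomial.aeval (Sum.elim (cof P c) ξ) G0 =
        ∑ m ∈ G.support.filter (fun m => ∑ s, (m s : ℚ) * Sum.elim η z s = ν),
          ((MvPolynomial.coeff m G : ℤ) : ℂ) * ∏ s, (Sum.elim (cof P c) ξ s) ^ (m s) := by
      rw [MvPolynomial.aeval_def, MvPolynomial.eval₂_eq']
      have hsub : G0.support ⊆
          G.support.filter (fun m => ∑ s, (m s : ℚ) * Sum.elim η z s = ν) := by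
        intro m hm
        have h1 := hlG.2.1 m hm
        rw [MvPolynomial.mem_support_iff, hlG.coeff, if_pos h1, hcoeff] at hm
        refine mem_filter.2 ⟨?_, ?_⟩
        · rw [MvPolynomial.mem_support_iff]
          intro h0
          apply hm
          rw [h0]
          simp
        · rw [← hνν, ← h1]
          rfl
      rw [sum_subset hsub (fun m _ hm => ?_)]
      · refine sum_congr rfl (fun m hm => ?_)
        have h1 : wt (Sum.elim η z) m = νG := by
          rw [hνν]
          exact (mem_filter.1 hm).2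
        rw [hlG.coeff, if_pos h1, hcoeff]
        simp
      · rw [MvPolynomial.notMem_support_iff.1 hm]
        simp
    rw [← hG0eval, hG0z]
  · -- the sum is empty
    have hlt : ν < νG := by
      have hex : ∃ m, m ∈ G0.support := by
        by_contra h
        push Not at h
        exact hlG.1 (MvPolynomial.support_eq_empty.1 (eq_empty_of_forall_notMem h))
      obtain ⟨m, hm⟩ := hex
      have h1 := hlG.2.1 m hm
      rw [MvPolynomial.mem_support_iff, hlG.coeff, if_pos h1, hcoeff] at hm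
      have h2 : m ∈ G.support := by
        rw [MvPolynomial.mem_support_iff]
        intro h0
        apply hm
        rw [h0]
        simp
      have h3 := hν m h2
      have h4 : ν ≤ νG := by
        rw [← h1]
        exact h3
      exact lt_of_le_of_ne h4 (Ne.symm hνν)
    refine sum_eq_zero (fun m hm => ?_)
    exfalso
    obtain ⟨h1, h2⟩ := mem_filter.1 hm
    have h3 : m ∈ (MvPolynomial.map (Int.castRingHom ℚ) G).support := by
      rw [MvPolynomial.mem_support_iff, hcoeff]
      exact_mod_cast MvPolynomial.mem_support_iff.1 h1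
    have h4 := hlG.le m h3
    have h5 : wt (Sum.elim η z) m = ν := h2
    linarith

end Pool.Agent.Lib.MP_4e7804_co
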