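import Mathlib

/-! MP_4e7804_co, upper bound, module TieV (50 lines): in a sum which is zero the minimal valuation
is attained twice.

PROOF. Let `v` be the valuation of `V` (`v y ≤ 1 ↔ y ∈ V`; smaller value = larger order). Among `f`
and all `g p` choose one with maximal `v`. If `v f` is maximal then `f = ∑ g p`, so
`v f ≤ max v (g p)` (`Valuation.map_sum_le`), so some `g p` has `v (g p) = v f`: first alternative.
If `v (g p) > v f` is maximal, and all the other `q ∈ T` had `v (g q) < v (g p)`, then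
`g p = f - ∑_{q ≠ p} g q` has value `< v (g p)` (`Valuation.map_sum_lt`), contradiction; so some
`q ≠ p` has `v (g q) = v (g p)`: second alternative. Quotients: `g r / g p ∈ V ↔ v (g r) ≤ v (g p)`. -/

set_option autoImplicit false

open Finset

namespace Pool.Agent.Lib.MP_4e7804_co

theorem TieV_div {L : Type*} [Field L] (V : ValuationSubring L) {x y : L} (hy : y ≠ 0) :
    x / y ∈ V ↔ V.valuation x ≤ V.valuation y := by
  rw [← V.valuation_le_one_iff, map_div₀]
  exact div_le_one₀ (zero_lt_iff.2 ((V.valuation.ne_zero_iff).2 hy))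

theorem tie_of_valuation {L : Type*} [Field L] (V : ValuationSubring L) {τ : Type*}
    (T : Finset τ) (g : τ → L) (hg : ∀ p ∈ T, g p ≠ 0) (f : L) (hf : f ≠ 0)
    (hsum : f = ∑ p ∈ T, g p) :
    (∃ p ∈ T, g p / f ∈ V ∧ f / g p ∈ V ∧ ∀ q ∈ T, g q / f ∈ V) ∨
      ∃ p ∈ T, ∃ q ∈ T, p ≠ q ∧ g q / g p ∈ V ∧ g p / g q ∈ V ∧ f / g p ∈ V ∧
        ∀ r ∈ T, g r / g p ∈ V := by
  classical
  have hT : T.Nonempty := by
    rw [Finset.nonempty_iff_ne_empty]
    rintro rfl
    exact hf (by rw [hsum, Finset.sum_empty])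
  obtain ⟨p, hp, hmax⟩ := Finset.exists_max_image T (fun p => V.valuation (g p)) hT
  have hfp : V.valuation f ≤ V.valuation (g p) := by
    rw [hsum]
    exact V.valuation.map_sum_le fun i hi => hmax i hi
  by_cases h : V.valuation (g p) ≤ V.valuation f
  · left
    refine ⟨p, hp, (TieV_div V hf).2 h, (TieV_div V (hg p hp)).2 hfp, fun q hq => ?_⟩
    exact (TieV_div V hf).2 ((hmax q hq).trans h)
  · right
    have hlt : V.valuation f < V.valuation (g p) := not_le.1 h
    by_cases h2 : ∃ q ∈ T, q ≠ p ∧ V.valuation (g p) ≤ V.valuation (g q)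
    · obtain ⟨q, hq, hqp, h3⟩ := h2
      exact ⟨p, hp, q, hq, Ne.symm hqp, (TieV_div V (hg p hp)).2 (hmax q hq),
        (TieV_div V (hg q hq)).2 h3, (TieV_div V (hg p hp)).2 hfp,
        fun r hr => (TieV_div V (hg p hp)).2 (hmax r hr)⟩
    · exfalso
      have h4 : ∀ q ∈ T.erase p, V.valuation (g q) < V.valuation (g p) := by
        intro q hq
        rw [← not_le]
        exact fun h5 => h2 ⟨q, Finset.mem_of_mem_erase hq, Finset.ne_of_mem_erase hq, h5⟩
      have h6 : V.valuation (∑ q ∈ T.erase p, g q) < V.valuation (g p) :=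
        V.valuation.map_sum_lt ((V.valuation.ne_zero_iff).2 (hg p hp)) h4
      have h7 : g p = f - ∑ q ∈ T.erase p, g q := by
        rw [hsum, ← Finset.add_sum_erase T g hp]
        ring
      have h8 : V.valuation (g p) < V.valuation (g p) := by
        conv_lhs => rw [h7]
        exact V.valuation.map_sub_lt hlt h6
      exact lt_irrefl _ h8

end Pool.Agent.Lib.MP_4e7804_co
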