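import Mathlib

/-! MP_4e7804_co, upper bound, module Transfer (80 lines): a finite system of linear equations and
strict inequalities with integral coefficients which has a solution in a linearly ordered abelian
group has a rational solution.

PROOF of `transfer` (Fourier-Motzkin elimination). It is enough to treat `κ = Fin m`
(`Fintype.equivFin`), by induction on `m`. `m = 0`: `S` must be empty (`0 < 0` is false).
Step `m → m + 1`, unknown `ω (last)` =: `ω_*`.
Case 1: some `e ∈ E` has `e_* ≠ 0`; we may take `e_* > 0` (replace `e` by `-e`). For every vector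
`s` in `S` (or `E`) put `s' = e_* s - s_* e`, its last coordinate is `0` and
`∑ s' ω = e_* ∑ s ω` is positive (zero). By induction there is a rational solution `w` for all these
`s'` (restricted to the first `m` coordinates); let `w_*` be the solution of `∑ e w = 0`. Then
`e_* ∑ s w = ∑ s' w + s_* ∑ e w = ∑ s' w`.
Case 2: all `e ∈ E` have `e_* = 0`. For all pairs `s, r ∈ S` with `s_* > 0 > r_*` put
`q = (-r_*) s + s_* r`; its last coordinate is `0` and `∑ q ω > 0`. By induction there is a rational
solution `w` (first `m` coordinates) for all these `q`, all `s ∈ S` with `s_* = 0` and all `e ∈ E`.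
Now `w_*` has to satisfy `w_* > - (∑_{k<m} s_k w_k)/s_*` for `s_* > 0` and
`w_* < (∑_{k<m} r_k w_k)/(-r_*)` for `r_* < 0`: finitely many lower bounds, each smaller than each
of the finitely many upper bounds, so such a rational number exists (`Finset.exists_between'`?, or
max, min and the midpoint). -/

set_option autoImplicit false

open Finset

namespace Pool.Agent.Lib.MP_4e7804_co

/-- elimination for `Fin m` -/
theorem Transfer.fin {Γ : Type*} [AddCommGroup Γ] [LinearOrder Γ] [IsOrderedAddMonoid Γ] :
    ∀ (m : ℕ) (ω : Fin m → Γ) (S E : Finset (Fin m → ℤ)),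
      (∀ s ∈ S, 0 < ∑ k, s k • ω k) → (∀ e ∈ E, ∑ k, e k • ω k = 0) →
      ∃ w : Fin m → ℚ, (∀ s ∈ S, 0 < ∑ k, (s k : ℚ) * w k) ∧
        ∀ e ∈ E, ∑ k, (e k : ℚ) * w k = 0 := by
  classical
  intro m
  induction m with
  | zero =>
    intro ω S E hS hE
    refine ⟨fun _ => 0, fun s hs => ?_, fun e he => by simp⟩
    have := hS s hs
    simp at this
  | succ m ih =>
    intro ω S E hS hE
    by_cases h1 : ∃ e ∈ E, e 0 ≠ 0
    · -- eliminate with an equation
      obtain ⟨e, he0, hesum⟩ : ∃ e : Fin (m + 1) → ℤ, 0 < e 0 ∧ (∑ k, e k • ω k = 0) := by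
        obtain ⟨e, he, hne⟩ := h1
        rcases lt_or_gt_of_ne hne with h | h
        · refine ⟨fun k => - e k, by simpa using h, ?_⟩
          simp only [neg_smul, sum_neg_distrib]
          rw [hE e he, neg_zero]
        · exact ⟨e, h, hE e he⟩
      let P : (Fin (m + 1) → ℤ) → (Fin m → ℤ) := fun s k => e 0 * s k.succ - s 0 * e k.succ
      have hP : ∀ s : Fin (m + 1) → ℤ, ∑ k, P s k • ω k.succ = e 0 • ∑ k, s k • ω k := by
        intro s
        have h2 : ∑ k, P s k • ω k.succ =
            e 0 • ∑ k : Fin m, s k.succ • ω k.succ - s 0 • ∑ k : Fin m, e k.succ • ω k.succ := by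
          rw [smul_sum, smul_sum, ← sum_sub_distrib]
          apply sum_congr rfl
          intro k _
          simp only [P]
          rw [sub_smul, mul_smul, mul_smul]
        have h3 : ∑ k : Fin m, e k.succ • ω k.succ = - (e 0 • ω 0) := by
          rw [Fin.sum_univ_succ] at hesum
          exact eq_neg_of_add_eq_zero_right hesum
        rw [h2, h3, Fin.sum_univ_succ, smul_add, smul_neg, sub_neg_eq_add, smul_comm (s 0) (e 0),
          add_comm]
      have hQ : ∀ (s : Fin (m + 1) → ℤ) (w' : Fin m → ℚ),
          ∑ k, (P s k : ℚ) * w' k = (e 0 : ℚ) * ∑ k : Fin m, (s k.succ : ℚ) * w' k -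
            (s 0 : ℚ) * ∑ k : Fin m, (e k.succ : ℚ) * w' k := by
        intro s w'
        rw [mul_sum, mul_sum, ← sum_sub_distrib]
        apply sum_congr rfl
        intro k _
        simp only [P]
        push_cast
        ring
      obtain ⟨w', hw1, hw2⟩ := ih (fun k => ω k.succ) (S.image P) (E.image P)
        (by
          intro s' hs'
          obtain ⟨s, hs, rfl⟩ := mem_image.1 hs'
          rw [hP s]
          exact zsmul_pos (hS s hs) he0)
        (by
          intro s' hs'
          obtain ⟨s, hs, rfl⟩ := mem_image.1 hs'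
          rw [hP s, hE s hs, smul_zero])
      have he0' : (0 : ℚ) < (e 0 : ℚ) := by exact_mod_cast he0
      have key : ∀ s : Fin (m + 1) → ℤ, (e 0 : ℚ) * ∑ k, (s k : ℚ) *
          (Fin.cons (-(∑ k : Fin m, (e k.succ : ℚ) * w' k) / (e 0 : ℚ)) w' : Fin (m + 1) → ℚ) k =
          ∑ k, (P s k : ℚ) * w' k := by
        intro s
        rw [hQ, Fin.sum_univ_succ]
        simp only [Fin.cons_zero, Fin.cons_succ]
        field_simp
        ring
      refine ⟨Fin.cons (-(∑ k : Fin m, (e k.succ : ℚ) * w' k) / (e 0 : ℚ)) w', ?_, ?_⟩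
      · intro s hs
        have h2 := hw1 (P s) (mem_image_of_mem P hs)
        rw [← key s] at h2
        exact (pos_iff_pos_of_mul_pos h2).1 he0'
      · intro s hs
        have h2 := hw2 (P s) (mem_image_of_mem P hs)
        rw [← key s] at h2
        exact (mul_eq_zero.1 h2).resolve_left he0'.ne'
    · push Not at h1
      -- Fourier-Motzkin
      let T : (Fin (m + 1) → ℤ) → (Fin m → ℤ) := fun s k => s k.succ
      let R : (Fin (m + 1) → ℤ) × (Fin (m + 1) → ℤ) → (Fin m → ℤ) :=
        fun x k => (- x.2 0) * x.1 k.succ + x.1 0 * x.2 k.succ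
      obtain ⟨w', hw1, hw2⟩ := ih (fun k => ω k.succ)
        (((S.filter (fun s => 0 < s 0)) ×ˢ (S.filter (fun s => s 0 < 0))).image R ∪
          (S.filter (fun s => s 0 = 0)).image T) (E.image T)
        (by
          intro s' hs'
          rcases mem_union.1 hs' with h | h
          · obtain ⟨⟨s, r⟩, hx, rfl⟩ := mem_image.1 h
            obtain ⟨hs, hr⟩ := mem_product.1 hx
            obtain ⟨hs, hs0⟩ := mem_filter.1 hs
            obtain ⟨hr, hr0⟩ := mem_filter.1 hr
            simp only at hs hs0 hr hr0
            have h2 : ∑ k, R (s, r) k • ω k.succ =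
                (- r 0) • (∑ k, s k • ω k) + s 0 • (∑ k, r k • ω k) := by
              have h3 : ∑ k, R (s, r) k • ω k.succ = (- r 0) • (∑ k : Fin m, s k.succ • ω k.succ) +
                  s 0 • ∑ k : Fin m, r k.succ • ω k.succ := by
                rw [smul_sum, smul_sum, ← sum_add_distrib]
                apply sum_congr rfl
                intro k _
                simp only [R]
                rw [add_smul, mul_smul, mul_smul]
              rw [h3, Fin.sum_univ_succ (fun k => s k • ω k), Fin.sum_univ_succ (fun k => r k • ω k),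
                smul_add, smul_add]
              have h4 : (- r 0) • (s 0 • ω 0) + s 0 • (r 0 • ω 0) = 0 := by
                rw [smul_smul, smul_smul, ← add_smul]
                have : -r 0 * s 0 + s 0 * r 0 = 0 := by ring
                rw [this, zero_smul]
              rw [add_add_add_comm, h4, zero_add]
            rw [h2]
            exact add_pos (zsmul_pos (hS s hs) (by linarith)) (zsmul_pos (hS r hr) hs0)
          · obtain ⟨s, hs, rfl⟩ := mem_image.1 h
            obtain ⟨hs, hs0⟩ := mem_filter.1 hs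
            have h2 := hS s hs
            rw [Fin.sum_univ_succ, hs0, zero_smul, zero_add] at h2
            exact h2)
        (by
          intro s' hs'
          obtain ⟨s, hs, rfl⟩ := mem_image.1 hs'
          have h2 := hE s hs
          rw [Fin.sum_univ_succ, h1 s hs, zero_smul, zero_add] at h2
          exact h2)
      obtain ⟨w0, hlo, hhi⟩ := Order.exists_between_finsets
        ((S.filter (fun s => 0 < s 0)).image
          (fun s => -(∑ k : Fin m, (s k.succ : ℚ) * w' k) / (s 0 : ℚ)))
        ((S.filter (fun s => s 0 < 0)).image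
          (fun s => (∑ k : Fin m, (s k.succ : ℚ) * w' k) / (-(s 0 : ℚ))))
        (by
          intro x hx y hy
          obtain ⟨s, hs, rfl⟩ := mem_image.1 hx
          obtain ⟨r, hr, rfl⟩ := mem_image.1 hy
          have h2 := hw1 (R (s, r)) (mem_union_left _ (mem_image_of_mem R
            (mem_product.2 ⟨hs, hr⟩)))
          have h3 : ∑ k, (R (s, r) k : ℚ) * w' k = (-(r 0 : ℚ)) * (∑ k : Fin m, (s k.succ : ℚ) * w' k)
              + (s 0 : ℚ) * ∑ k : Fin m, (r k.succ : ℚ) * w' k := by
            rw [mul_sum, mul_sum, ← sum_add_distrib]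
            apply sum_congr rfl
            intro k _
            simp only [R]
            push_cast
            ring
          rw [h3] at h2
          have hs0 : (0 : ℚ) < (s 0 : ℚ) := by exact_mod_cast (mem_filter.1 hs).2
          have hr0 : (0 : ℚ) < -(r 0 : ℚ) := by
            have : (r 0 : ℚ) < 0 := by exact_mod_cast (mem_filter.1 hr).2
            linarith
          rw [div_lt_div_iff₀ hs0 hr0]
          nlinarith)
      refine ⟨Fin.cons w0 w', ?_, ?_⟩
      · intro s hs
        rw [Fin.sum_univ_succ]
        simp only [Fin.cons_zero, Fin.cons_succ]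
        rcases lt_trichotomy (s 0) 0 with h | h | h
        · have h2 := hhi _ (mem_image_of_mem _ (mem_filter.2 ⟨hs, h⟩))
          have hr0 : (0 : ℚ) < -(s 0 : ℚ) := by
            have : (s 0 : ℚ) < 0 := by exact_mod_cast h
            linarith
          rw [lt_div_iff₀ hr0] at h2
          nlinarith
        · have h2 := hw1 (T s) (mem_union_right _ (mem_image_of_mem T (mem_filter.2 ⟨hs, h⟩)))
          rw [h]
          simpa using h2
        · have h2 := hlo _ (mem_image_of_mem _ (mem_filter.2 ⟨hs, h⟩))
          have hs0 : (0 : ℚ) < (s 0 : ℚ) := by exact_mod_cast h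
          rw [div_lt_iff₀ hs0] at h2
          nlinarith
      · intro s hs
        rw [Fin.sum_univ_succ]
        simp only [Fin.cons_zero, Fin.cons_succ]
        have h2 := hw2 (T s) (mem_image_of_mem T hs)
        rw [h1 s hs]
        simpa using h2

theorem transfer {Γ : Type*} [AddCommGroup Γ] [LinearOrder Γ] [IsOrderedAddMonoid Γ]
    {κ : Type*} [Fintype κ] (ω : κ → Γ) (S E : Finset (κ → ℤ))
    (hS : ∀ s ∈ S, 0 < ∑ k, s k • ω k) (hE : ∀ e ∈ E, ∑ k, e k • ω k = 0) :
    ∃ w : κ → ℚ, (∀ s ∈ S, 0 < ∑ k, (s k : ℚ) * w k) ∧ ∀ e ∈ E, ∑ k, (e k : ℚ) * w k = 0 := by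
  classical
  obtain ⟨φ⟩ : Nonempty (κ ≃ Fin (Fintype.card κ)) := ⟨Fintype.equivFin κ⟩
  obtain ⟨w, h1, h2⟩ := Transfer.fin (Fintype.card κ) (fun i => ω (φ.symm i))
    (S.image (fun s i => s (φ.symm i))) (E.image (fun s i => s (φ.symm i)))
    (by
      intro s' hs'
      obtain ⟨s, hs, rfl⟩ := mem_image.1 hs'
      rw [Equiv.sum_comp φ.symm (fun k => s k • ω k)]
      exact hS s hs)
    (by
      intro s' hs'
      obtain ⟨s, hs, rfl⟩ := mem_image.1 hs'
      rw [Equiv.sum_comp φ.symm (fun k => s k • ω k)]
      exact hE s hs)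
  refine ⟨fun k => w (φ k), fun s hs => ?_, fun s hs => ?_⟩
  · have h3 := h1 _ (mem_image_of_mem _ hs)
    rw [← Equiv.sum_comp φ] at h3
    simpa using h3
  · have h3 := h2 _ (mem_image_of_mem _ hs)
    rw [← Equiv.sum_comp φ] at h3
    simpa using h3

/-- The multiplicative version with the reversed order: apply `transfer` to `Additive G` and
`ω k = Additive.ofMul (g k)⁻¹`. -/
theorem transfer_mul {G : Type*} [CommGroup G] [LinearOrder G] [IsOrderedMonoid G]
    {κ : Type*} [Fintype κ] (g : κ → G) (S E : Finset (κ → ℤ))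
    (hS : ∀ s ∈ S, ∏ k, g k ^ s k < 1) (hE : ∀ e ∈ E, ∏ k, g k ^ e k = 1) :
    ∃ w : κ → ℚ, (∀ s ∈ S, 0 < ∑ k, (s k : ℚ) * w k) ∧ ∀ e ∈ E, ∑ k, (e k : ℚ) * w k = 0 := by
  apply transfer (Γ := Additive G) (fun k => Additive.ofMul (g k)⁻¹) S E
  · intro s hs
    have h1 := hS s hs
    have h2 : ∑ k, s k • Additive.ofMul (g k)⁻¹ = Additive.ofMul (∏ k, g k ^ s k)⁻¹ := by
      rw [← prod_inv_distrib, ofMul_prod]
      apply sum_congr rfl
      intro k _
      rw [← ofMul_zpow, inv_zpow]
    rw [h2]
    have h3 : (1 : G) < (∏ k, g k ^ s k)⁻¹ := Left.one_lt_inv_iff.2 h1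
    exact h3
  · intro s hs
    have h1 := hE s hs
    have h2 : ∑ k, s k • Additive.ofMul (g k)⁻¹ = Additive.ofMul (∏ k, g k ^ s k)⁻¹ := by
      rw [← prod_inv_distrib, ofMul_prod]
      apply sum_congr rfl
      intro k _
      rw [← ofMul_zpow, inv_zpow]
    rw [h2, h1, inv_one]
    rfl

end Pool.Agent.Lib.MP_4e7804_co
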