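import Mathlib
import Pool.Agent.Lib.MP_4e7804_co.Defs
import Pool.Agent.Lib.MP_4e7804_co.Up.Transfer

/-! MP_4e7804_co, upper bound, module WFromV (120 lines): from a valuation to a rational point `w`.

PROOF. Let `v : L → V.ValueGroup` be the valuation, `y ∈ V ↔ v y ≤ 1`, `y ∈ V.nonunits ↔ v y < 1`
(`ValuationSubring.valuation_le_one_iff`, `ValuationSubring.mem_nonunits_iff`); on units of `L` it
has values in the linearly ordered group `G = (V.ValueGroup)ˣ`. Index set of the unknowns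
`κ = Fin d ⊕ (Fin n ⊕ Σ i, T i)`: the values of `t_k`, `f_i`, `x_{i,p}`. Let `u : Fin n ⊕ Σ i, T i → ℚ`
be the weights (`z i` and `η i p`), `D ≥ 1` a common denominator, `u' = D u` integral.
`hV` says: for integral `m` on `Fin n ⊕ Σ i, T i` the monomial has value `≤ 1` if `m·u ≥ 0` and
`< 1` if `m·u > 0`, so value `= 1` if `m·u = 0` (apply to `m` and `-m`). Let `S`, `E` be the finite
sets of integral vectors on `κ`:
(1) for all `i`, `p, q ∈ T i` the vector of `(x_q t^q)/(x_p t^p)`, for all `i, p` the vectors of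
`f_i/(x_p t^p)` and `(x_p t^p)/f_i`: put it in `S` if its value is `< 1`, in `E` if the value is `1`,
its negative in `S` if the value is `> 1`;
(2) in `E`: the vectors `u'_s e_{s'} - u'_{s'} e_s` (weight `0`); if `u = 0` also all `e_s`;
(3) in `S`: `u'_s e_s` for all `s` with `u_s ≠ 0` (weight `> 0`).
`transfer_mul` gives rational `w_k`, `ρ_s` (additive values). By (2), (3): `ρ = λ u` with `λ > 0`
(if `u = 0` then `ρ = 0`, take `λ = 1`; else `λ = ρ_s/u_s` for one `s` with `u_s ≠ 0`, independent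
of `s`, and positive). Take `w / λ`. By (1) and `ρ/λ = u` the three equivalences hold: e.g.
`(x_q t^q)/(x_p t^p) ∈ V` iff its value is `≤ 1` iff the rational value
`(η_q + q·w/λ) - (η_p + p·w/λ)` is `≥ 0`. -/

set_option autoImplicit false

open Finset

namespace Pool.Agent.Lib.MP_4e7804_co

theorem WFromV_den {σ : Type*} [Fintype σ] (u : σ → ℚ) :
    ∃ (D : ℕ) (u' : σ → ℤ), 0 < D ∧ ∀ s, (u' s : ℚ) = D * u s := by
  classical
  refine ⟨∏ s, (u s).den, fun s => (((∏ s, (u s).den) / (u s).den : ℕ) : ℤ) * (u s).num,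
    Finset.prod_pos fun s _ => (u s).den_pos, fun s => ?_⟩
  have h : (u s).den ∣ ∏ s, (u s).den := Finset.dvd_prod_of_mem _ (Finset.mem_univ s)
  obtain ⟨c, hc⟩ := h
  have hn : (∏ s, (u s).den) / (u s).den = c := by
    rw [hc, Nat.mul_div_cancel_left _ (u s).den_pos]
  have h2 : (u s) * (u s).den = (u s).num := Rat.mul_den_eq_num (u s)
  dsimp only
  rw [hn, hc]
  push_cast
  linear_combination (-(c : ℚ)) * h2

theorem WFromV_prod_ex {G : Type*} [CommGroup G] {δ σ : Type*} [Fintype δ] [Fintype σ]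
    (g : δ ⊕ σ → G) (m : σ → ℤ) :
    ∏ k, g k ^ (Sum.elim (0 : δ → ℤ) m k) = ∏ s, g (Sum.inr s) ^ m s := by
  rw [Fintype.prod_sum_type]
  simp

theorem WFromV_sum_ex {δ σ : Type*} [Fintype δ] [Fintype σ]
    (w : δ ⊕ σ → ℚ) (m : σ → ℤ) :
    ∑ k, ((Sum.elim (0 : δ → ℤ) m k : ℤ) : ℚ) * w k = ∑ s, (m s : ℚ) * w (Sum.inr s) := by
  rw [Fintype.sum_sum_type]
  simp

theorem WFromV_abs {G : Type*} [CommGroup G] [LinearOrder G] [IsOrderedMonoid G]
    {δ σ : Type*} [Fintype δ] [Fintype σ] (g : δ ⊕ σ → G) (u : σ → ℚ)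
    (H : ∀ m : σ → ℤ, (0 ≤ ∑ s, (m s : ℚ) * u s → ∏ s, g (Sum.inr s) ^ m s ≤ 1) ∧
      (0 < ∑ s, (m s : ℚ) * u s → ∏ s, g (Sum.inr s) ^ m s < 1))
    (Q : Finset (δ ⊕ σ → ℤ)) :
    ∃ w : δ → ℚ, ∀ q ∈ Q, (∏ k, g k ^ q k ≤ 1 ↔
      0 ≤ ∑ k, (q (Sum.inl k) : ℚ) * w k + ∑ s, (q (Sum.inr s) : ℚ) * u s) := by
  classical
  obtain ⟨D, u', hD, hu'⟩ := WFromV_den u
  have hDq : (0 : ℚ) < D := by exact_mod_cast hD
  have H0 : ∀ m : σ → ℤ, ∑ s, (m s : ℚ) * u s = 0 → ∏ s, g (Sum.inr s) ^ m s = 1 := by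
    intro m hm
    refine le_antisymm ((H m).1 hm.ge) ?_
    have h2 := (H (-m)).1 (by
      simp only [Pi.neg_apply, Int.cast_neg, neg_mul, Finset.sum_neg_distrib, hm, neg_zero, le_refl])
    simp only [Pi.neg_apply, zpow_neg, Finset.prod_inv_distrib] at h2
    exact Left.inv_le_one_iff.1 h2
  set S1 := Q.filter (fun q => ∏ k, g k ^ q k < 1) with hS1
  set S2 := (Q.filter (fun q => 1 < ∏ k, g k ^ q k)).image (fun q => -q) with hS2
  set S3 := (univ.filter (fun s => u s ≠ 0)).image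
    (fun s => (Sum.elim 0 (Pi.single s (u' s)) : δ ⊕ σ → ℤ)) with hS3
  set E1 := Q.filter (fun q => ∏ k, g k ^ q k = 1) with hE1
  set E2 := (univ : Finset (σ × σ)).image
    (fun p => (Sum.elim 0 (Pi.single p.2 (u' p.1) - Pi.single p.1 (u' p.2)) : δ ⊕ σ → ℤ)) with hE2
  set E3 := (univ.filter (fun _ : σ => ∀ s, u s = 0)).image
    (fun s => (Sum.elim 0 (Pi.single s 1) : δ ⊕ σ → ℤ)) with hE3
  obtain ⟨w, hwS, hwE⟩ := transfer_mul g (S1 ∪ S2 ∪ S3) (E1 ∪ E2 ∪ E3) (by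
    intro s hs
    rw [mem_union, mem_union] at hs
    rcases hs with (hs | hs) | hs
    · exact (mem_filter.1 hs).2
    · obtain ⟨q, hq, rfl⟩ := mem_image.1 hs
      simp only [Pi.neg_apply, zpow_neg, Finset.prod_inv_distrib]
      exact Left.inv_lt_one_iff.2 (mem_filter.1 hq).2
    · obtain ⟨s', hs', rfl⟩ := mem_image.1 hs
      rw [WFromV_prod_ex]
      refine (H _).2 ?_
      rw [Finset.sum_eq_single s' (fun b _ hb => by simp [Pi.single_eq_of_ne hb])
        (fun h => absurd (mem_univ s') h), Pi.single_eq_same, hu' s']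
      have h3 : u s' ≠ 0 := (mem_filter.1 hs').2
      have h4 : 0 < u s' * u s' := mul_self_pos.2 h3
      rw [mul_assoc]
      positivity) (by
    intro e he
    rw [mem_union, mem_union] at he
    rcases he with (he | he) | he
    · exact (mem_filter.1 he).2
    · obtain ⟨p, -, rfl⟩ := mem_image.1 he
      rw [WFromV_prod_ex]
      refine H0 _ ?_
      simp only [Pi.sub_apply, Int.cast_sub, sub_mul, Finset.sum_sub_distrib]
      rw [Finset.sum_eq_single p.2 (fun b _ hb => by simp [Pi.single_eq_of_ne hb])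
        (fun h => absurd (mem_univ _) h), Finset.sum_eq_single p.1
        (fun b _ hb => by simp [Pi.single_eq_of_ne hb])
        (fun h => absurd (mem_univ _) h), Pi.single_eq_same, Pi.single_eq_same, hu', hu']
      ring
    · obtain ⟨s, hs, rfl⟩ := mem_image.1 he
      rw [WFromV_prod_ex]
      refine H0 _ ?_
      refine Finset.sum_eq_zero fun b _ => ?_
      rw [(mem_filter.1 hs).2 b, mul_zero])
  -- the weights are proportional
  have hprop : ∃ lam : ℚ, 0 < lam ∧ ∀ s, w (Sum.inr s) = lam * u s := by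
    by_cases h0 : ∀ s, u s = 0
    · refine ⟨1, one_pos, fun s => ?_⟩
      have h1 := hwE (Sum.elim 0 (Pi.single s 1)) (by
        rw [mem_union]
        exact Or.inr (mem_image.2 ⟨s, mem_filter.2 ⟨mem_univ _, h0⟩, rfl⟩))
      rw [WFromV_sum_ex, Finset.sum_eq_single s (fun b _ hb => by simp [Pi.single_eq_of_ne hb])
        (fun h => absurd (mem_univ s) h), Pi.single_eq_same] at h1
      rw [h0 s, mul_zero]
      simpa using h1
    · push Not at h0
      obtain ⟨s0, hs0⟩ := h0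
      have h1 := hwS (Sum.elim 0 (Pi.single s0 (u' s0))) (by
        rw [mem_union]
        exact Or.inr (mem_image.2 ⟨s0, mem_filter.2 ⟨mem_univ _, hs0⟩, rfl⟩))
      rw [WFromV_sum_ex, Finset.sum_eq_single s0 (fun b _ hb => by simp [Pi.single_eq_of_ne hb])
        (fun h => absurd (mem_univ s0) h), Pi.single_eq_same, hu' s0, mul_assoc] at h1
      have h2 : 0 < u s0 * w (Sum.inr s0) := by
        rcases (mul_pos_iff.1 h1) with h | h
        · exact h.2
        · exact absurd h.1 (not_lt.2 hDq.le)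
      refine ⟨w (Sum.inr s0) / u s0, ?_, fun s => ?_⟩
      · rcases mul_pos_iff.1 h2 with h | h
        · exact div_pos h.2 h.1
        · exact div_pos_of_neg_of_neg h.2 h.1
      · have h3 := hwE (Sum.elim 0 (Pi.single s (u' s0) - Pi.single s0 (u' s))) (by
          rw [mem_union, mem_union]
          exact Or.inl (Or.inr (mem_image.2 ⟨(s0, s), mem_univ _, rfl⟩)))
        rw [WFromV_sum_ex] at h3
        simp only [Pi.sub_apply, Int.cast_sub, sub_mul, Finset.sum_sub_distrib] at h3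
        rw [Finset.sum_eq_single s (fun b _ hb => by simp [Pi.single_eq_of_ne hb])
          (fun h => absurd (mem_univ _) h), Finset.sum_eq_single s0
          (fun b _ hb => by simp [Pi.single_eq_of_ne hb])
          (fun h => absurd (mem_univ _) h), Pi.single_eq_same, Pi.single_eq_same, hu', hu'] at h3
        have h4 : (D : ℚ) * (u s0 * w (Sum.inr s) - u s * w (Sum.inr s0)) = 0 := by
          linear_combination h3
        have h5 : u s0 * w (Sum.inr s) - u s * w (Sum.inr s0) = 0 := by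
          rcases mul_eq_zero.1 h4 with h | h
          · exact absurd h hDq.ne'
          · exact h
        field_simp
        linear_combination h5
  obtain ⟨lam, hlam, hw⟩ := hprop
  refine ⟨fun k => w (Sum.inl k) / lam, fun q hq => ?_⟩
  have hkey : ∑ k, (q k : ℚ) * w k = lam * (∑ k, (q (Sum.inl k) : ℚ) * (w (Sum.inl k) / lam) +
      ∑ s, (q (Sum.inr s) : ℚ) * u s) := by
    rw [Fintype.sum_sum_type, mul_add, Finset.mul_sum, Finset.mul_sum]
    congr 1
    · refine Finset.sum_congr rfl fun k _ => ?_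
      field_simp
    · refine Finset.sum_congr rfl fun s _ => ?_
      rw [hw s]
      ring
  have hiff : 0 ≤ ∑ k, (q (Sum.inl k) : ℚ) * (w (Sum.inl k) / lam) +
      ∑ s, (q (Sum.inr s) : ℚ) * u s ↔ 0 ≤ ∑ k, (q k : ℚ) * w k := by
    rw [hkey]
    exact (mul_nonneg_iff_of_pos_left hlam).symm
  rw [hiff]
  constructor
  · intro h
    rcases h.lt_or_eq with h | h
    · exact (hwS q (by
        rw [mem_union, mem_union]
        exact Or.inl (Or.inl (mem_filter.2 ⟨hq, h⟩)))).le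
    · exact (hwE q (by
        rw [mem_union, mem_union]
        exact Or.inl (Or.inl (mem_filter.2 ⟨hq, h⟩)))).ge
  · intro h
    by_contra hc
    rw [not_le] at hc
    have h1 := hwS (-q) (by
      rw [mem_union, mem_union]
      exact Or.inl (Or.inr (mem_image.2 ⟨q, mem_filter.2 ⟨hq, hc⟩, rfl⟩)))
    simp only [Pi.neg_apply, Int.cast_neg, neg_mul, Finset.sum_neg_distrib] at h1
    linarith

theorem exists_w {L : Type*} [Field L] (V : ValuationSubring L) {n d : ℕ}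
    (T : Fin n → Finset (Fin d → ℤ)) (x : Fin n → (Fin d → ℤ) → L)
    (hx : ∀ i, ∀ p ∈ T i, x i p ≠ 0) (f : Fin n → L) (hf : ∀ i, f i ≠ 0)
    (t : Fin d → L) (ht : ∀ k, t k ≠ 0) (η : Fin n → (Fin d → ℤ) → ℚ) (z : Fin n → ℚ)
    (hV : ∀ (a : Fin n → (Fin d → ℤ) → ℤ) (b : Fin n → ℤ),
      (0 ≤ ∑ i, ((b i : ℚ) * z i + ∑ p ∈ T i, (a i p : ℚ) * η i p) →
        ∏ i, (f i ^ (b i) * ∏ p ∈ T i, x i p ^ (a i p)) ∈ V) ∧
      (0 < ∑ i, ((b i : ℚ) * z i + ∑ p ∈ T i, (a i p : ℚ) * η i p) →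
        ∏ i, (f i ^ (b i) * ∏ p ∈ T i, x i p ^ (a i p)) ∈ V.nonunits)) :
    ∃ w : Fin d → ℚ, ∀ i, ∀ p ∈ T i,
      (∀ q ∈ T i, (dot w p + η i p ≤ dot w q + η i q ↔
        (x i q * ∏ k, t k ^ (q k)) / (x i p * ∏ k, t k ^ (p k)) ∈ V)) ∧
      (dot w p + η i p ≤ z i ↔ f i / (x i p * ∏ k, t k ^ (p k)) ∈ V) ∧
      (z i ≤ dot w p + η i p ↔ (x i p * ∏ k, t k ^ (p k)) / f i ∈ V) := by
  classical
  set gu : Lˣ →* (V.ValueGroup)ˣ :=
    Units.map (V.valuation.toMonoidWithZeroHom : L →* V.ValueGroup) with hgu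
  have hle : ∀ y : Lˣ, gu y ≤ 1 ↔ (y : L) ∈ V := by
    intro y
    rw [← Units.val_le_val, ← V.valuation_le_one_iff]
    rfl
  have hlt : ∀ y : Lˣ, gu y < 1 ↔ (y : L) ∈ V.nonunits := by
    intro y
    rw [← Units.val_lt_val, ValuationSubring.mem_nonunits_iff]
    rfl
  let σ := Fin n ⊕ (Σ i : Fin n, {p // p ∈ T i})
  let yt : Fin d → Lˣ := fun k => Units.mk0 (t k) (ht k)
  let ys : σ → Lˣ := Sum.elim (fun i => Units.mk0 (f i) (hf i))
    (fun s => Units.mk0 (x s.1 s.2.1) (hx s.1 s.2.1 s.2.2))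
  let y : Fin d ⊕ σ → Lˣ := Sum.elim yt ys
  let u : σ → ℚ := Sum.elim z (fun s => η s.1 s.2.1)
  have hprod : ∀ (κ : Type) [Fintype κ] (y : κ → Lˣ) (q : κ → ℤ),
      ∏ k, (gu (y k)) ^ q k = gu (∏ k, y k ^ q k) := by
    intro κ _ y q
    rw [map_prod]
    exact Finset.prod_congr rfl fun k _ => (map_zpow gu (y k) (q k)).symm
  have hco : ∀ m : σ → ℤ, ((∏ s, ys s ^ m s : Lˣ) : L) =
      ∏ i, (f i ^ (m (Sum.inl i)) * ∏ p ∈ T i, x i p ^
        (if h : p ∈ T i then m (Sum.inr ⟨i, ⟨p, h⟩⟩) else 0)) := by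
    intro m
    rw [Units.coe_prod, Fintype.prod_sum_type, Fintype.prod_sigma, ← Finset.prod_mul_distrib]
    refine Finset.prod_congr rfl fun i _ => ?_
    rw [← Finset.prod_coe_sort (T i)]
    congr 1
    · simp [ys]
    · refine Finset.prod_congr rfl fun p _ => ?_
      rw [dif_pos p.2]
      simp [ys]
  have hwt : ∀ m : σ → ℤ, ∑ s, (m s : ℚ) * u s =
      ∑ i, (((m (Sum.inl i) : ℤ) : ℚ) * z i + ∑ p ∈ T i,
        (((if h : p ∈ T i then m (Sum.inr ⟨i, ⟨p, h⟩⟩) else 0 : ℤ) : ℚ)) * η i p) := by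
    intro m
    rw [Fintype.sum_sum_type, Fintype.sum_sigma, ← Finset.sum_add_distrib]
    refine Finset.sum_congr rfl fun i _ => ?_
    rw [← Finset.sum_coe_sort (T i)]
    congr 1
    refine Finset.sum_congr rfl fun p _ => ?_
    rw [dif_pos p.2]
    rfl
  have H : ∀ m : σ → ℤ, (0 ≤ ∑ s, (m s : ℚ) * u s → ∏ s, gu (y (Sum.inr s)) ^ m s ≤ 1) ∧
      (0 < ∑ s, (m s : ℚ) * u s → ∏ s, gu (y (Sum.inr s)) ^ m s < 1) := by
    intro m
    have h1 := hV (fun i p => if h : p ∈ T i then m (Sum.inr ⟨i, ⟨p, h⟩⟩) else 0)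
      (fun i => m (Sum.inl i))
    rw [← hwt m, ← hco m] at h1
    rw [hprod σ (fun s => y (Sum.inr s)) m, hle, hlt]
    exact h1
  -- the vectors
  let vx : (i : Fin n) → {p // p ∈ T i} → (Fin d ⊕ σ → ℤ) := fun i p =>
    Sum.elim (fun k => p.1 k) (Pi.single (Sum.inr ⟨i, p⟩) 1)
  let vf : Fin n → (Fin d ⊕ σ → ℤ) := fun i => Sum.elim 0 (Pi.single (Sum.inl i) 1)
  let Q : Finset (Fin d ⊕ σ → ℤ) := univ.biUnion fun i : Fin n =>
    ((univ : Finset ({p // p ∈ T i} × {p // p ∈ T i})).image fun r => vx i r.2 - vx i r.1) ∪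
    ((univ : Finset {p // p ∈ T i}).image fun r => vf i - vx i r) ∪
    ((univ : Finset {p // p ∈ T i}).image fun r => vx i r - vf i)
  obtain ⟨w, hw⟩ := WFromV_abs (fun k => gu (y k)) u H Q
  let Wt : (Fin d ⊕ σ → ℤ) → ℚ := fun q =>
    ∑ k, (q (Sum.inl k) : ℚ) * w k + ∑ s, (q (Sum.inr s) : ℚ) * u s
  have hWsub : ∀ a b, Wt (a - b) = Wt a - Wt b := by
    intro a b
    simp only [Wt, Pi.sub_apply, Int.cast_sub, sub_mul, Finset.sum_sub_distrib]
    ring
  have hWx : ∀ i (p : {p // p ∈ T i}), Wt (vx i p) = dot w p.1 + η i p.1 := by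
    intro i p
    simp only [Wt, vx, Sum.elim_inl, Sum.elim_inr, dot]
    congr 1
    · exact Finset.sum_congr rfl fun k _ => mul_comm _ _
    · rw [Finset.sum_eq_single (Sum.inr ⟨i, p⟩) (fun b _ hb => by simp [Pi.single_eq_of_ne hb])
        (fun h => absurd (mem_univ _) h), Pi.single_eq_same]
      simp [u]
  have hWf : ∀ i, Wt (vf i) = z i := by
    intro i
    simp only [Wt, vf, Sum.elim_inl, Sum.elim_inr]
    rw [Finset.sum_eq_single (Sum.inl i) (fun b _ hb => by simp [Pi.single_eq_of_ne hb])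
        (fun h => absurd (mem_univ _) h), Pi.single_eq_same]
    simp [u]
  let Y : (Fin d ⊕ σ → ℤ) → Lˣ := fun q => ∏ k, y k ^ q k
  have hYsub : ∀ a b, Y (a - b) = Y a / Y b := by
    intro a b
    simp only [Y, Pi.sub_apply, zpow_sub, ← div_eq_mul_inv]
    exact Finset.prod_div_distrib _ _
  have hYx : ∀ i (p : {p // p ∈ T i}), ((Y (vx i p) : Lˣ) : L) =
      x i p.1 * ∏ k, t k ^ (p.1 k) := by
    intro i p
    simp only [Y]
    rw [Fintype.prod_sum_type, Units.val_mul, mul_comm]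
    congr 1
    · rw [Finset.prod_eq_single (Sum.inr ⟨i, p⟩) (fun b _ hb => by
        simp [vx, Pi.single_eq_of_ne hb])
        (fun h => absurd (mem_univ _) h)]
      simp [vx, y, ys]
    · rw [Units.coe_prod]
      refine Finset.prod_congr rfl fun k _ => ?_
      simp [vx, y, yt]
  have hYf : ∀ i, ((Y (vf i) : Lˣ) : L) = f i := by
    intro i
    simp only [Y]
    rw [Fintype.prod_sum_type, Finset.prod_eq_single (Sum.inl i : σ) (fun b _ hb => by
        change y (Sum.inr b) ^ (Pi.single (Sum.inl i) 1 : σ → ℤ) b = 1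
        rw [Pi.single_eq_of_ne hb, zpow_zero])
        (fun h => absurd (mem_univ _) h)]
    simp [vf, y, ys]
  have hmain : ∀ q ∈ Q, (0 ≤ Wt q ↔ ((Y q : Lˣ) : L) ∈ V) := by
    intro q hq
    rw [← hle, ← hw q hq, hprod _ y q]
  refine ⟨w, fun i p hp => ⟨fun q hq => ?_, ?_, ?_⟩⟩
  · have h1 := hmain (vx i ⟨q, hq⟩ - vx i ⟨p, hp⟩) (by
      refine mem_biUnion.2 ⟨i, mem_univ _, ?_⟩
      rw [mem_union, mem_union]
      exact Or.inl (Or.inl (mem_image.2 ⟨(⟨p, hp⟩, ⟨q, hq⟩), mem_univ _, rfl⟩)))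
    rw [hWsub, hWx, hWx, hYsub, Units.val_div_eq_div_val, hYx, hYx, sub_nonneg] at h1
    exact h1
  · have h1 := hmain (vf i - vx i ⟨p, hp⟩) (by
      refine mem_biUnion.2 ⟨i, mem_univ _, ?_⟩
      rw [mem_union, mem_union]
      exact Or.inl (Or.inr (mem_image.2 ⟨⟨p, hp⟩, mem_univ _, rfl⟩)))
    rw [hWsub, hWx, hWf, hYsub, Units.val_div_eq_div_val, hYx, hYf, sub_nonneg] at h1
    exact h1
  · have h1 := hmain (vx i ⟨p, hp⟩ - vf i) (by
      refine mem_biUnion.2 ⟨i, mem_univ _, ?_⟩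
      rw [mem_union, mem_union]
      exact Or.inr (mem_image.2 ⟨⟨p, hp⟩, mem_univ _, rfl⟩))
    rw [hWsub, hWx, hWf, hYsub, Units.val_div_eq_div_val, hYx, hYf, sub_nonneg] at h1
    exact h1

end Pool.Agent.Lib.MP_4e7804_co
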