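import Mathlib
import Pool.Agent.Lib.MP_4e7804_co.Up.Key
import Pool.Agent.Lib.MP_4e7804_co.Up.Chev
import Pool.Agent.Lib.MP_4e7804_co.Up.WFromV
import Pool.Agent.Lib.MP_4e7804_co.Up.TieV

/-! MP_4e7804_co, upper bound, module Trop (120 lines): the tropical hypersurface with weights on
the coefficients is contained in the expected set.

PROOF. `exists_descent` gives `𝔽`; its support is the support of `F` (`map 𝔽 = C μ * F` and
`aeval (cof P c)` is injective, `hc`). Let `ϕ α`, `low α` be the lowest weight and form of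
`𝔽.coeff α` for the weights `η'` on `Cof P` (`η' ⟨i, p⟩ = η i p`), `exists_hasLow`; `ϕ α = 0` outside
of the support. Given `z` and the tie `α, β`: `key` and `exists_valuationSubring` (with `x = xL`,
`u = Sum.elim η' z`; `xL ≠ 0`: the coefficients are not zero, and `lau .. i ≠ 0` because it has the
nonzero coefficient `c i p` at a lattice point, `hne`) give the valuation subring `V` of
`L = FractionRing (AddMonoidAlgebra ℂ (Fin d → ℤ))`. Apply `exists_w` with `T i = (hfin i).toFinset`,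
`x i p` = the image of `single 0 (c i p)`, `f i` = the image of `lau .. i`, `t k` = the image of
`single (Pi.single k 1) 1`; then `x i p * ∏ t_k^(p_k)` is the image of `single p (c i p)` and
`f i = ∑_p x i p * ∏ t_k^(p_k)`; `hV` is a reindexing of the statement on `V`
(`m (inl ⟨i, p⟩) = a i p`, `m (inr i) = b i`). Finally `tie_of_valuation` for each `i` with
`g p = x i p * ∏ t_k^(p_k)`, translated by the three equivalences of `exists_w`, is the claim. -/

set_option autoImplicit false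

open Finset

namespace Pool.Agent.Lib.MP_4e7804_co

/-- The minimum of `z` and all `p·w + η p`, `p` a lattice point of `P`, is attained twice. -/
def Tie {d : ℕ} (P : Set (Fin d → ℝ)) (η : (Fin d → ℤ) → ℚ) (z : ℚ) (w : Fin d → ℚ) : Prop :=
  (∃ p ∈ latticePoints P, dot w p + η p = z ∧ ∀ q ∈ latticePoints P, z ≤ dot w q + η q) ∨
    ∃ p ∈ latticePoints P, ∃ q ∈ latticePoints P, p ≠ q ∧ dot w p + η p = dot w q + η q ∧
      dot w p + η p ≤ z ∧ ∀ r ∈ latticePoints P, dot w p + η p ≤ dot w r + η r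

theorem trop_aeval {σ L : Type*} [CommRing L] (i1 i2 : Algebra ℤ L) (x : σ → L)
    (G : MvPolynomial σ ℤ) :
    @MvPolynomial.aeval ℤ L σ _ _ i1 x G = @MvPolynomial.aeval ℤ L σ _ _ i2 x G := by
  have h : i1 = i2 := Subsingleton.elim _ _
  rw [h]

/-- monomials of the function field -/
noncomputable def tropM (d : ℕ) :
    Multiplicative (Fin d → ℤ) →* FractionRing (AddMonoidAlgebra ℂ (Fin d → ℤ)) :=
  ((algebraMap (AddMonoidAlgebra ℂ (Fin d → ℤ))
    (FractionRing (AddMonoidAlgebra ℂ (Fin d → ℤ)))) : _ →* _).comp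
    (AddMonoidAlgebra.of ℂ (Fin d → ℤ))

theorem tropM_apply (d : ℕ) (p : Fin d → ℤ) :
    tropM d (Multiplicative.ofAdd p) =
      algebraMap (AddMonoidAlgebra ℂ (Fin d → ℤ)) _ (AddMonoidAlgebra.single p 1) := rfl

theorem tropM_prod (d : ℕ) (p : Fin d → ℤ) :
    ∏ k, tropM d (Multiplicative.ofAdd (Pi.single k 1)) ^ (p k) =
      tropM d (Multiplicative.ofAdd p) := by
  have h1 : ∏ k, (Multiplicative.ofAdd (Pi.single k (1 : ℤ)) : Multiplicative (Fin d → ℤ)) ^ (p k)
      = Multiplicative.ofAdd p := by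
    have h2 : ∑ k, p k • (Pi.single k (1 : ℤ) : Fin d → ℤ) = p := by
      funext j
      rw [Finset.sum_apply]
      simp [Pi.single_apply]
    conv_rhs => rw [← h2]
    rw [ofAdd_sum]
    rfl
  rw [← h1, map_prod]
  refine prod_congr rfl fun k _ => ?_
  rw [map_zpow]

theorem tropM_ne (d : ℕ) (p : Fin d → ℤ) : tropM d (Multiplicative.ofAdd p) ≠ 0 := by
  have h : tropM d (Multiplicative.ofAdd p) * tropM d (Multiplicative.ofAdd (-p)) = 1 := by
    rw [← map_mul, ← ofAdd_add, add_neg_cancel, ofAdd_zero, map_one]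
  exact left_ne_zero_of_mul_eq_one h

theorem trop_subset {n d : ℕ} (P : Fin n → Set (Fin d → ℝ))
    (hfin : ∀ i, (latticePoints (P i)).Finite) (hne : ∀ i, (latticePoints (P i)).Nonempty)
    (c : Fin n → (Fin d → ℤ) → ℂ) (hc : IsGeneric P c) (F : MvPolynomial (Fin n) ℂ)
    (hF : IsImplicitEq P c F) (η : Fin n → (Fin d → ℤ) → ℚ) :
    ∃ ϕ : (Fin n →₀ ℕ) → ℚ, ∀ z : Fin n → ℚ,
      (∃ α ∈ F.support, ∃ β ∈ F.support, α ≠ β ∧
        ϕ α + ∑ i, (α i : ℚ) * z i = ϕ β + ∑ i, (β i : ℚ) * z i ∧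
        ∀ γ ∈ F.support, ϕ α + ∑ i, (α i : ℚ) * z i ≤ ϕ γ + ∑ i, (γ i : ℚ) * z i) →
      ∃ w : Fin d → ℚ, ∀ i, Tie (P i) (η i) (z i) w := by
  classical
  let : ∀ i, Fintype (latticePoints (P i)) := fun i => (hfin i).fintype
  let : Fintype (Cof P) := inferInstanceAs (Fintype (Σ i : Fin n, latticePoints (P i)))
  obtain ⟨𝔽, μ, hμ, hmap, hG⟩ := exists_descent P hfin c hc F hF
  have hj : Function.Injective (MvPolynomial.aeval (R := ℚ) (cof P c)) := hc
  have hsupp : F.support = 𝔽.support := by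
    ext α
    rw [MvPolynomial.mem_support_iff, MvPolynomial.mem_support_iff]
    have h1 := congrArg (MvPolynomial.coeff α) hmap
    rw [MvPolynomial.coeff_map, MvPolynomial.coeff_C_mul] at h1
    constructor
    · intro h h0
      rw [h0, map_zero] at h1
      exact (mul_ne_zero hμ h) h1.symm
    · intro h h0
      rw [h0, mul_zero] at h1
      exact h (hj (by rw [map_zero]; exact h1))
  let η' : Cof P → ℚ := fun q => η q.1 q.2
  have hlow : ∀ α, ∃ (ϕα : ℚ) (lowα : MvPolynomial (Cof P) ℚ),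
      α ∈ 𝔽.support → HasLow η' ϕα (𝔽.coeff α) lowα := by
    intro α
    by_cases h : α ∈ 𝔽.support
    · obtain ⟨ν, G0, h'⟩ := exists_hasLow η' (G := 𝔽.coeff α) (MvPolynomial.mem_support_iff.1 h)
      exact ⟨ν, G0, fun _ => h'⟩
    · exact ⟨0, 0, fun h' => absurd h' h⟩
  choose ϕ low hϕ using hlow
  refine ⟨ϕ, fun z => ?_⟩
  rintro ⟨α, hα, β, hβ, hne', htie, hmin⟩
  obtain ⟨ζ, hζ, hkey⟩ := key P hfin c hc 𝔽 hG η' z ϕ low hϕ α β (hsupp ▸ hα) (hsupp ▸ hβ) hne'
    htie (fun γ hγ => hmin γ (hsupp ▸ hγ))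
  -- the field and the nonvanishing elements
  let Λ := AddMonoidAlgebra ℂ (Fin d → ℤ)
  let L := FractionRing Λ
  have hinj : Function.Injective (algebraMap Λ L) := IsFractionRing.injective Λ L
  have hcne : ∀ q : Cof P, cof P c q ≠ 0 := fun q => hc.ne_zero q
  have hcne' : ∀ i, ∀ p ∈ (hfin i).toFinset, c i p ≠ 0 := by
    intro i p hp
    exact hcne ⟨i, ⟨p, (hfin i).mem_toFinset.1 hp⟩⟩
  have hxne : ∀ i, ∀ p ∈ (hfin i).toFinset,
      algebraMap Λ L (AddMonoidAlgebra.single (0 : Fin d → ℤ) (c i p)) ≠ 0 := by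
    intro i p hp h0
    rw [map_eq_zero_iff _ hinj] at h0
    exact hcne' i p hp (AddMonoidAlgebra.single_eq_zero.1 h0)
  have hlau : ∀ i, lau P hfin c i ≠ 0 := by
    intro i h0
    obtain ⟨p, hp⟩ := hne i
    have hp' : p ∈ (hfin i).toFinset := (hfin i).mem_toFinset.2 hp
    have h1 := congrArg (fun y : Λ => y.coeff p) h0
    unfold lau at h1
    simp only [AddMonoidAlgebra.coeff_sum, AddMonoidAlgebra.coeff_single,
      AddMonoidAlgebra.coeff_zero, Finsupp.finsetSum_apply, Finsupp.single_apply,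
      Finsupp.coe_zero, Pi.zero_apply] at h1
    rw [Finset.sum_ite_eq', if_pos hp'] at h1
    exact hcne' i p hp' h1
  have hfne : ∀ i, algebraMap Λ L (lau P hfin c i) ≠ 0 := by
    intro i h0
    rw [map_eq_zero_iff _ hinj] at h0
    exact hlau i h0
  have hx : ∀ s, xL P hfin c s ≠ 0 := by
    rintro (q | i)
    · exact hxne q.1 q.2 ((hfin q.1).mem_toFinset.2 q.2.2)
    · exact hfne i
  obtain ⟨V, hV⟩ := exists_valuationSubring (xL P hfin c) hx (Sum.elim η' z) ζ hζ
    (fun G ν h1 h2 => hkey G ν h1 ((trop_aeval _ _ _ _).trans h2))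
  -- reindexing
  have hsum : ∀ (a : Fin n → (Fin d → ℤ) → ℤ) (b : Fin n → ℤ),
      ∑ s : Cof P ⊕ Fin n, ((Sum.elim (fun q : Cof P => a q.1 q.2) b s : ℤ) : ℚ) *
        Sum.elim η' z s =
      ∑ i, ((b i : ℚ) * z i + ∑ p ∈ (hfin i).toFinset, (a i p : ℚ) * η i p) := by
    intro a b
    rw [Fintype.sum_sum_type, Finset.sum_add_distrib, add_comm]
    simp only [Sum.elim_inl, Sum.elim_inr]
    congr 1
    rw [Fintype.sum_sigma]
    refine Finset.sum_congr rfl fun i _ => ?_
    exact (Finset.sum_subtype (hfin i).toFinset (fun x => (hfin i).mem_toFinset)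
      (fun p => (a i p : ℚ) * η i p)).symm
  have hprod : ∀ (a : Fin n → (Fin d → ℤ) → ℤ) (b : Fin n → ℤ),
      ∏ s : Cof P ⊕ Fin n, xL P hfin c s ^ (Sum.elim (fun q : Cof P => a q.1 q.2) b s : ℤ) =
      ∏ i, (algebraMap Λ L (lau P hfin c i) ^ (b i) * ∏ p ∈ (hfin i).toFinset,
        algebraMap Λ L (AddMonoidAlgebra.single (0 : Fin d → ℤ) (c i p)) ^ (a i p)) := by
    intro a b
    rw [Fintype.prod_sum_type, Finset.prod_mul_distrib, mul_comm]
    simp only [Sum.elim_inl, Sum.elim_inr]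
    congr 1
    rw [Fintype.prod_sigma]
    refine Finset.prod_congr rfl fun i _ => ?_
    exact (Finset.prod_subtype (hfin i).toFinset (fun x => (hfin i).mem_toFinset)
      (fun p => algebraMap Λ L (AddMonoidAlgebra.single (0 : Fin d → ℤ) (c i p)) ^ (a i p))).symm
  obtain ⟨w, hw⟩ := exists_w V (fun i => (hfin i).toFinset)
    (fun i p => algebraMap Λ L (AddMonoidAlgebra.single (0 : Fin d → ℤ) (c i p))) hxne
    (fun i => algebraMap Λ L (lau P hfin c i)) hfne
    (fun k => tropM d (Multiplicative.ofAdd (Pi.single k 1))) (fun k => tropM_ne d _) η z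
    (fun a b => by
      have h1 := hV (Sum.elim (fun q : Cof P => a q.1 q.2) b)
      rw [hsum a b, hprod a b] at h1
      exact h1)
  refine ⟨w, fun i => ?_⟩
  have hterm : ∀ p : Fin d → ℤ,
      algebraMap Λ L (AddMonoidAlgebra.single (0 : Fin d → ℤ) (c i p)) *
        ∏ k, tropM d (Multiplicative.ofAdd (Pi.single k 1)) ^ (p k) =
      algebraMap Λ L (AddMonoidAlgebra.single p (c i p)) := by
    intro p
    rw [tropM_prod, tropM_apply, ← map_mul, AddMonoidAlgebra.single_mul_single, zero_add, mul_one]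
  have ht := tie_of_valuation V (hfin i).toFinset
    (fun p => algebraMap Λ L (AddMonoidAlgebra.single (0 : Fin d → ℤ) (c i p)) *
        ∏ k, tropM d (Multiplicative.ofAdd (Pi.single k 1)) ^ (p k))
    (fun p hp => mul_ne_zero (hxne i p hp) (by rw [tropM_prod]; exact tropM_ne d p))
    (algebraMap Λ L (lau P hfin c i)) (hfne i) (by
      simp only [hterm]
      unfold lau
      rw [map_sum])
  unfold Tie
  have hm : ∀ p, p ∈ (hfin i).toFinset ↔ p ∈ latticePoints (P i) := fun p =>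
    (hfin i).mem_toFinset
  rcases ht with ⟨p, hp, h1, h2, h3⟩ | ⟨p, hp, q, hq, hpq, h1, h2, h3, h4⟩
  · left
    refine ⟨p, (hm p).1 hp, le_antisymm ((hw i p hp).2.1.2 h2) ((hw i p hp).2.2.2 h1), ?_⟩
    intro q hq
    exact (hw i q ((hm q).2 hq)).2.2.2 (h3 q ((hm q).2 hq))
  · right
    refine ⟨p, (hm p).1 hp, q, (hm q).1 hq, hpq, le_antisymm (((hw i p hp).1 q hq).2 h1)
      (((hw i q hq).1 p hp).2 h2), (hw i p hp).2.1.2 h3, ?_⟩
    intro r hr
    exact ((hw i p hp).1 r ((hm r).2 hr)).2 (h4 r ((hm r).2 hr))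

end Pool.Agent.Lib.MP_4e7804_co
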