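import Mathlib
import Pool.Agent.Lib.MP_4e7804_co.Up.GeoD
import Pool.Agent.Lib.MP_4e7804_co.Up.Trop

/-! MP_4e7804_co, upper bound, module Latt (150 lines): the vertices of a lattice polytope, and the
tie condition in terms of the vertices.

PROOF of `exists_vertices`. `P = convexHull ℝ (toReal '' A0)`; `A` = all `a ∈ A0` with `toReal a` an
extreme point of `P`. `extremePoints ⊆ toReal '' A0` (`extremePoints_convexHull_subset`), so
`toReal '' A` is the set of extreme points, `A.card = numVertices P` (`toReal` injective), and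
`P = convexHull ℝ (toReal '' A)` by Krein-Milman (`closure_convexHull_extremePoints`; `P` is compact
and convex, the convex hull of a finite set is closed, `Set.Finite.isCompact_convexHull`,
`Set.Finite.isClosed_convexHull`). `A` is not empty because `P` is not.
PROOF of `tie_vertices`. Let `η' i p = η i p` for `p ∈ A i` and `η' i p = 2` otherwise, `|η i a| ≤ 1`
on `A i`. CLAIM: for a lattice point `p ∉ A i` of `P i` and every `w` there is `a ∈ A i` with
`dot w a + η' i a < dot w p + η' i p`: `toReal p` is in the hull of `toReal '' A i`, so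
`dot w p ≥ dot w a` for some `a ∈ A i` (otherwise all `dot w a > dot w p` and the half space
`{x | ∑ w x > dot w p}` is convex and contains the hull), and `η' i a ≤ 1 < 2`. So all the lattice
points `p` which are minimal in `Tie` are in `A i`, they are the elements of `Bs A η w i` (cast to
`ℝ`), and `Tie (P i) (η' i) (z i) w` gives: either `z i = val η i a w` for some `a ∈ Bs A η w i`, or
`2 ≤ (Bs A η w i).card`. (First alternative of `Tie`: `p` with `dot w p + η' p = z`, `z ≤` all values,
so `p` is minimal. Second: `p ≠ q` both minimal.) -/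

set_option autoImplicit false

open Finset

namespace Pool.Agent.Lib.MP_4e7804_co

theorem Latt_inj {d : ℕ} : Function.Injective (toReal : (Fin d → ℤ) → (Fin d → ℝ)) := by
  intro p q h
  funext k
  have := congrFun h k
  unfold toReal at this
  exact_mod_cast this

theorem exists_vertices {d : ℕ} (P : Set (Fin d → ℝ)) (hP : IsLatticePolytope P) :
    (latticePoints P).Finite ∧ (latticePoints P).Nonempty ∧ ∃ A : Finset (Fin d → ℤ),
      A.Nonempty ∧ A.card = numVertices P ∧
        P = convexHull ℝ (toReal '' (A : Set (Fin d → ℤ))) := by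
  classical
  obtain ⟨A0, ⟨a0, ha0⟩, hPA⟩ := hP
  have hfin0 : (toReal '' (A0 : Set (Fin d → ℤ))).Finite := A0.finite_toSet.image _
  have hcpt : IsCompact P := by rw [hPA]; exact hfin0.isCompact_convexHull ℝ
  have hconv : Convex ℝ P := by rw [hPA]; exact convex_convexHull ℝ _
  have ha0P : toReal a0 ∈ P := by
    rw [hPA]
    exact subset_convexHull ℝ _ ⟨a0, ha0, rfl⟩
  refine ⟨?_, ⟨a0, ha0P⟩, ?_⟩
  · obtain ⟨R, hR⟩ := hcpt.isBounded.exists_norm_le
    obtain ⟨N, hN⟩ := exists_nat_ge R
    refine (Set.finite_Icc (fun _ : Fin d => -(N : ℤ)) (fun _ => (N : ℤ))).subset fun p hp => ?_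
    have h1 : ∀ k, |(p k : ℝ)| ≤ N := fun k =>
      ((norm_le_pi_norm (toReal p) k).trans (hR _ hp)).trans hN
    constructor
    · intro k
      have h2 := (abs_le.1 (h1 k)).1
      show -(N : ℤ) ≤ p k
      exact_mod_cast h2
    · intro k
      have h2 := (abs_le.1 (h1 k)).2
      show p k ≤ (N : ℤ)
      exact_mod_cast h2
  · have hext : P.extremePoints ℝ ⊆ toReal '' (A0 : Set (Fin d → ℤ)) := by
      have h1 := extremePoints_convexHull_subset (𝕜 := ℝ) (A := toReal '' (A0 : Set (Fin d → ℤ)))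
      rwa [← hPA] at h1
    have himg : toReal '' ((A0.filter fun a => toReal a ∈ P.extremePoints ℝ :
        Finset (Fin d → ℤ)) : Set (Fin d → ℤ)) = P.extremePoints ℝ := by
      ext x
      constructor
      · rintro ⟨a, ha, rfl⟩
        rw [Finset.mem_coe, Finset.mem_filter] at ha
        exact ha.2
      · intro hx
        obtain ⟨a, ha, rfl⟩ := hext hx
        exact ⟨a, by rw [Finset.mem_coe, Finset.mem_filter]; exact ⟨ha, hx⟩, rfl⟩
    have hhull : P = convexHull ℝ (P.extremePoints ℝ) := by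
      have h1 := closure_convexHull_extremePoints hcpt hconv
      have h2 : IsClosed (convexHull ℝ (P.extremePoints ℝ)) :=
        (hfin0.subset hext).isClosed_convexHull ℝ
      rw [h2.closure_eq] at h1
      exact h1.symm
    refine ⟨A0.filter fun a => toReal a ∈ P.extremePoints ℝ, ?_, ?_, ?_⟩
    · rw [Finset.nonempty_iff_ne_empty]
      intro h0
      rw [h0, Finset.coe_empty, Set.image_empty] at himg
      rw [← himg, convexHull_empty] at hhull
      rw [hhull] at ha0P
      exact ha0P
    · have h3 := congrArg Set.ncard himg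
      rw [Set.ncard_image_of_injective _ Latt_inj, Set.ncard_coe_finset] at h3
      exact h3
    · rw [himg]
      exact hhull

theorem Latt_below {d : ℕ} (P : Set (Fin d → ℝ)) (A : Finset (Fin d → ℤ))
    (hP : P = convexHull ℝ (toReal '' (A : Set (Fin d → ℤ)))) (w : Fin d → ℚ)
    (p : Fin d → ℤ) (hp : p ∈ latticePoints P) : ∃ a ∈ A, dot w a ≤ dot w p := by
  by_contra hcon
  push Not at hcon
  have hf : IsLinearMap ℝ (fun x : Fin d → ℝ => ∑ k, (w k : ℝ) * x k) := by
    constructor
    · intro x y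
      rw [← Finset.sum_add_distrib]
      exact Finset.sum_congr rfl fun k _ => by rw [Pi.add_apply]; ring
    · intro c x
      rw [smul_eq_mul, Finset.mul_sum]
      exact Finset.sum_congr rfl fun k _ => by rw [Pi.smul_apply, smul_eq_mul]; ring
  have hd : ∀ q : Fin d → ℤ, ∑ k, (w k : ℝ) * toReal q k = ((dot w q : ℚ) : ℝ) := by
    intro q
    unfold dot toReal
    push_cast
    rfl
  have hH := convex_halfSpace_gt hf ((dot w p : ℚ) : ℝ)
  have hsub : toReal '' (A : Set (Fin d → ℤ)) ⊆
      {x | ((dot w p : ℚ) : ℝ) < ∑ k, (w k : ℝ) * x k} := by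
    rintro _ ⟨a, ha, rfl⟩
    show ((dot w p : ℚ) : ℝ) < ∑ k, (w k : ℝ) * toReal a k
    rw [hd]
    exact_mod_cast hcon a ha
  have h1 : toReal p ∈ {x | ((dot w p : ℚ) : ℝ) < ∑ k, (w k : ℝ) * x k} := by
    apply convexHull_min hsub hH
    rw [← hP]
    exact hp
  have h2 : ((dot w p : ℚ) : ℝ) < ∑ k, (w k : ℝ) * toReal p k := h1
  rw [hd] at h2
  exact lt_irrefl _ h2

theorem tie_vertices {n d : ℕ} (P : Fin n → Set (Fin d → ℝ)) (A : Fin n → Finset (Fin d → ℤ))
    (hA : ∀ i, (A i).Nonempty) (hP : ∀ i, P i = convexHull ℝ (toReal '' (A i : Set (Fin d → ℤ))))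
    (η : Fin n → (Fin d → ℤ) → ℚ) (hη : ∀ i, ∀ a ∈ A i, |η i a| ≤ 1)
    (z : Fin n → ℚ) (w : Fin d → ℚ)
    (h : ∀ i, Tie (P i) (fun p => if p ∈ A i then η i p else 2) (z i) w) (i : Fin n) :
    (∃ a ∈ Bs A (fun i a => (η i a : ℝ)) (fun k => (w k : ℝ)) i,
      ((z i : ℚ) : ℝ) = val (fun i a => (η i a : ℝ)) i a (fun k => (w k : ℝ))) ∨
      2 ≤ (Bs A (fun i a => (η i a : ℝ)) (fun k => (w k : ℝ)) i).card := by
  have hval : ∀ a, val (fun i a => (η i a : ℝ)) i a (fun k => (w k : ℝ)) =
      ((dot w a + η i a : ℚ) : ℝ) := by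
    intro a
    unfold val dot
    push_cast
    congr 1
    exact Finset.sum_congr rfl fun k _ => mul_comm _ _
  have hmemB : ∀ a, a ∈ A i → (∀ b ∈ A i, dot w a + η i a ≤ dot w b + η i b) →
      a ∈ Bs A (fun i a => (η i a : ℝ)) (fun k => (w k : ℝ)) i := by
    intro a ha hb
    unfold Bs
    rw [Finset.mem_filter]
    refine ⟨ha, fun b hb' => ?_⟩
    rw [hval, hval]
    exact_mod_cast hb b hb'
  have hlat : ∀ a ∈ A i, a ∈ latticePoints (P i) := by
    intro a ha
    show toReal a ∈ P i
    rw [hP i]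
    exact subset_convexHull ℝ _ ⟨a, ha, rfl⟩
  have hmin : ∀ p ∈ latticePoints (P i),
      (∀ q ∈ latticePoints (P i), dot w p + (if p ∈ A i then η i p else 2) ≤
        dot w q + (if q ∈ A i then η i q else 2)) →
      p ∈ A i ∧ p ∈ Bs A (fun i a => (η i a : ℝ)) (fun k => (w k : ℝ)) i := by
    intro p hp hq
    have hpA : p ∈ A i := by
      by_contra hpA
      obtain ⟨a, ha, hle⟩ := Latt_below (P i) (A i) (hP i) w p hp
      have h1 := hq a (hlat a ha)
      rw [if_neg hpA, if_pos ha] at h1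
      have h2 := (abs_le.1 (hη i a ha)).2
      linarith
    refine ⟨hpA, hmemB p hpA fun b hb => ?_⟩
    have h1 := hq b (hlat b hb)
    rwa [if_pos hpA, if_pos hb] at h1
  rcases h i with ⟨p, hp, hpz, hz⟩ | ⟨p, hp, q, hq, hpq, hpq2, -, hr⟩
  · left
    obtain ⟨hpA, hpB⟩ := hmin p hp fun q hq => by rw [hpz]; exact hz q hq
    refine ⟨p, hpB, ?_⟩
    rw [hval, ← hpz]
    show ((dot w p + (if p ∈ A i then η i p else 2) : ℚ) : ℝ) = _
    rw [if_pos hpA]
  · right
    obtain ⟨-, hpB⟩ := hmin p hp hr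
    obtain ⟨-, hqB⟩ := hmin q hq fun r hr' => by rw [← hpq2]; exact hr r hr'
    exact Finset.one_lt_card.2 ⟨p, hpB, q, hqB, hpq⟩

end Pool.Agent.Lib.MP_4e7804_co
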