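import Mathlib
import Pool.Agent.Lib.MP_4e7804_co.Up.GeoD

/-! MP_4e7804_co, upper bound, module GenEta (150 lines): generic weights exist.

PROOF. A pattern is `π = (B, K, σ)`: `B i ⊆ A i`, `K ⊆ Fin d`, `σ : Fin d → {1, -1}` (finitely many
patterns: `Finset.pi`/powersets; or index by `Fin n → Finset (A i)`, `Finset (Fin d)`,
`Fin d → Bool`). A relation of `π` is `(lam, ν) ≠ 0` with `lam i` supported on `B i`,
`∑ a ∈ A i, lam i a = 0` for all `i`, `ν` supported on `K`, `∑ lam i a * a k + ν k = 0` for all `k`.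
If `lam = 0` then `ν = 0`; so `lam ≠ 0`. For every pattern which has a relation choose one,
`(lam^π, ν^π)`. The set of all `η : Fin n → (Fin d → ℤ) → ℚ`, restricted to the finite set of pairs
`(i, a)`, `a ∈ A i`, with `∑ lam^π i a * η i a = 0` is a `ℚ`-subspace, not the whole space (it does
not contain the unit vector at a pair with `lam^π i a ≠ 0`); a vector space over an infinite field
is not a finite union of proper subspaces (`Subspace.biUnion_ne_univ_of_top_notMem` or similar), so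
there is `η` with `∑ lam^π i a * η i a ≠ 0` for all `π` which have a relation; scale `η` so that all
`|η i a| ≤ 1`. Given `s0` choose `s ≥ s0`, `s > 0` different from the finitely many numbers
`(∑ lam^π η)/(∑_k ν^π_k σ_k)` (`Set.Infinite`/`Finset.exists_notMem`, an interval is infinite).
GP: let `w` be in the box and suppose there is a relation at `w` which is not zero. Then the
pattern `π = (Bs A η w, {k | |w k| = s}, sign of w)` has a relation, so `(lam^π, ν^π)` is defined;
`w k = σ_k s` for `k ∈ K`. For each `i` all `val η i a w`, `a ∈ B i`, are equal (`= h_i`), so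
`0 = ∑_i h_i ∑_a lam^π i a = ∑ lam^π i a * val η i a w = ∑_k (∑ lam^π i a * a k) w k + ∑ lam^π η`
`= - ∑_k ν^π_k w k + ∑ lam^π η = - s ∑_k ν^π_k σ_k + ∑ lam^π η`. If `∑_k ν^π_k σ_k = 0` this
contradicts the choice of `η`, otherwise the choice of `s`. -/

set_option autoImplicit false

open Finset

namespace Pool.Agent.Lib.MP_4e7804_co

/-- A relation of the pattern `(B, K)`. -/
def GenEtaRel {n d : ℕ} (A : Fin n → Finset (Fin d → ℤ)) (B : Fin n → Finset (Fin d → ℤ))
    (K : Finset (Fin d)) (lam : Fin n → (Fin d → ℤ) → ℝ) (ν : Fin d → ℝ) : Prop :=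
  (∀ i a, a ∉ B i → lam i a = 0) ∧ (∀ i, ∑ a ∈ A i, lam i a = 0) ∧ (∀ k, k ∉ K → ν k = 0) ∧
    (∀ k, ∑ i, ∑ a ∈ A i, lam i a * (a k : ℝ) + ν k = 0) ∧
    ¬ ((∀ i a, lam i a = 0) ∧ ∀ k, ν k = 0)

/-- The linear functional of the coefficients `lam` on the weights. -/
noncomputable def genEtaT {n d : ℕ} (A : Fin n → Finset (Fin d → ℤ))
    (lam : Fin n → (Fin d → ℤ) → ℝ) : (Fin n → (Fin d → ℤ) → ℚ) →ₗ[ℚ] ℝ where
  toFun η := ∑ i, ∑ a ∈ A i, lam i a * (η i a : ℝ)
  map_add' η η' := by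
    rw [← Finset.sum_add_distrib]
    refine Finset.sum_congr rfl fun i _ => ?_
    rw [← Finset.sum_add_distrib]
    refine Finset.sum_congr rfl fun a _ => ?_
    simp only [Pi.add_apply]
    push_cast
    ring
  map_smul' c η := by
    rw [RingHom.id_apply, Finset.smul_sum]
    refine Finset.sum_congr rfl fun i _ => ?_
    rw [Finset.smul_sum]
    refine Finset.sum_congr rfl fun a _ => ?_
    simp only [Pi.smul_apply, smul_eq_mul, Rat.smul_def]
    push_cast
    ring

lemma genEtaT_apply {n d : ℕ} (A : Fin n → Finset (Fin d → ℤ))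
    (lam : Fin n → (Fin d → ℤ) → ℝ) (η : Fin n → (Fin d → ℤ) → ℚ) :
    genEtaT A lam η = ∑ i, ∑ a ∈ A i, lam i a * (η i a : ℝ) := rfl

lemma genEtaT_ker_ne_top {n d : ℕ} (A : Fin n → Finset (Fin d → ℤ))
    (lam : Fin n → (Fin d → ℤ) → ℝ) (i : Fin n) (a : Fin d → ℤ) (ha : a ∈ A i)
    (h : lam i a ≠ 0) : LinearMap.ker (genEtaT A lam) ≠ ⊤ := by
  classical
  intro htop
  have h1 : (fun j b => if j = i ∧ b = a then (1 : ℚ) else 0) ∈ LinearMap.ker (genEtaT A lam) := by
    rw [htop]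
    trivial
  rw [LinearMap.mem_ker, genEtaT_apply] at h1
  rw [Finset.sum_eq_single i, Finset.sum_eq_single a] at h1
  · simp at h1
    exact h h1
  · intro b _ hb
    simp [hb]
  · intro hb
    exact absurd ha hb
  · intro j _ hj
    refine Finset.sum_eq_zero fun b _ => ?_
    simp [hj]
  · intro hj
    exact absurd (Finset.mem_univ i) hj

lemma genEta_exists_ne {n d : ℕ} (A B : Fin n → Finset (Fin d → ℤ)) (K : Finset (Fin d))
    (lam : Fin n → (Fin d → ℤ) → ℝ) (ν : Fin d → ℝ) (h : GenEtaRel A B K lam ν)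
    (hB : ∀ i, B i ⊆ A i) : ∃ i, ∃ a ∈ A i, lam i a ≠ 0 := by
  obtain ⟨h1, _, _, h4, h5⟩ := h
  by_contra hcon
  push Not at hcon
  apply h5
  have h6 : ∀ i a, lam i a = 0 := by
    intro i a
    by_cases ha : a ∈ B i
    · exact hcon i a (hB i ha)
    · exact h1 i a ha
  refine ⟨h6, fun k => ?_⟩
  have := h4 k
  simpa [h6] using this

/-- The main identity. -/
lemma genEta_identity {n d : ℕ} (A : Fin n → Finset (Fin d → ℤ)) (K : Finset (Fin d))
    (lam : Fin n → (Fin d → ℤ) → ℝ) (ν : Fin d → ℝ) (η : Fin n → (Fin d → ℤ) → ℚ) (s : ℝ)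
    (w : Fin d → ℝ) (σ : Fin d → ℝ) (hσ : ∀ k ∈ K, w k = σ k * s)
    (h : GenEtaRel A (Bs A (fun i a => (η i a : ℝ)) w) K lam ν) :
    genEtaT A lam η = s * ∑ k, ν k * σ k := by
  obtain ⟨h1, h2, h3, h4, _⟩ := h
  have e1 : ∀ i, ∑ a ∈ A i, lam i a * val (fun i a => (η i a : ℝ)) i a w = 0 := by
    intro i
    by_cases hne : (Bs A (fun i a => (η i a : ℝ)) w i).Nonempty
    · obtain ⟨b, hb⟩ := hne
      have hb' := hb
      simp only [Bs, Finset.mem_filter] at hb'
      have e2 : ∀ a ∈ A i, lam i a * val (fun i a => (η i a : ℝ)) i a w =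
          lam i a * val (fun i a => (η i a : ℝ)) i b w := by
        intro a ha
        by_cases hab : a ∈ Bs A (fun i a => (η i a : ℝ)) w i
        · simp only [Bs, Finset.mem_filter] at hab
          rw [le_antisymm (hab.2 b hb'.1) (hb'.2 a hab.1)]
        · rw [h1 i a hab, zero_mul, zero_mul]
      rw [Finset.sum_congr rfl e2, ← Finset.sum_mul, h2, zero_mul]
    · rw [Finset.not_nonempty_iff_eq_empty] at hne
      refine Finset.sum_eq_zero fun a _ => ?_
      rw [h1 i a (by rw [hne]; exact Finset.notMem_empty a), zero_mul]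
  have e3 : ∑ i, ∑ a ∈ A i, lam i a * val (fun i a => (η i a : ℝ)) i a w =
      ∑ k, (∑ i, ∑ a ∈ A i, lam i a * (a k : ℝ)) * w k + genEtaT A lam η := by
    rw [genEtaT_apply]
    simp only [val, mul_add, Finset.sum_add_distrib]
    congr 1
    simp only [Finset.sum_mul, Finset.mul_sum]
    refine Eq.symm ?_
    calc ∑ k, ∑ i, ∑ a ∈ A i, lam i a * (a k : ℝ) * w k
        = ∑ i, ∑ k, ∑ a ∈ A i, lam i a * (a k : ℝ) * w k := Finset.sum_comm
      _ = ∑ i, ∑ a ∈ A i, ∑ k, lam i a * ((a k : ℝ) * w k) := by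
        refine Finset.sum_congr rfl fun i _ => ?_
        rw [Finset.sum_comm]
        refine Finset.sum_congr rfl fun a _ => Finset.sum_congr rfl fun k _ => ?_
        ring
  rw [Finset.sum_eq_zero (fun i _ => e1 i)] at e3
  have e4 : ∑ k, (∑ i, ∑ a ∈ A i, lam i a * (a k : ℝ)) * w k = - (s * ∑ k, ν k * σ k) := by
    rw [Finset.mul_sum, ← Finset.sum_neg_distrib]
    refine Finset.sum_congr rfl fun k _ => ?_
    have h5 : ∑ i, ∑ a ∈ A i, lam i a * (a k : ℝ) = - ν k := by
      have := h4 k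
      linarith
    rw [h5]
    by_cases hk : k ∈ K
    · rw [hσ k hk]
      ring
    · rw [h3 k hk]
      ring
  rw [e4] at e3
  linarith

theorem exists_eta {n d : ℕ} (A : Fin n → Finset (Fin d → ℤ)) :
    ∃ η : Fin n → (Fin d → ℤ) → ℚ, (∀ i, ∀ a ∈ A i, |η i a| ≤ 1) ∧
      ∀ s0 : ℝ, ∃ s : ℝ, s0 ≤ s ∧ 0 < s ∧ GP A (fun i a => (η i a : ℝ)) s := by
  classical
  have hch : ∀ (B : Fin n → Finset (Fin d → ℤ)) (K : Finset (Fin d)),
      ∃ (lam : Fin n → (Fin d → ℤ) → ℝ) (ν : Fin d → ℝ),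
        (∃ lam' ν', GenEtaRel A B K lam' ν') → GenEtaRel A B K lam ν := by
    intro B K
    by_cases h : ∃ lam' ν', GenEtaRel A B K lam' ν'
    · obtain ⟨lam, ν, h'⟩ := h
      exact ⟨lam, ν, fun _ => h'⟩
    · exact ⟨0, 0, fun h' => absurd h' h⟩
  choose lam ν hlam using hch
  let Pat : Finset ((Fin n → Finset (Fin d → ℤ)) × Finset (Fin d)) :=
    ((Fintype.piFinset fun i => (A i).powerset) ×ˢ (Finset.univ : Finset (Finset (Fin d)))).filter
      fun q => ∃ lam' ν', GenEtaRel A q.1 q.2 lam' ν'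
  have hPat : ∀ q : (Fin n → Finset (Fin d → ℤ)) × Finset (Fin d), q ∈ Pat ↔
      (∀ i, q.1 i ⊆ A i) ∧ ∃ lam' ν', GenEtaRel A q.1 q.2 lam' ν' := by
    intro q
    simp only [Pat, Finset.mem_filter, Finset.mem_product, Fintype.mem_piFinset,
      Finset.mem_powerset, Finset.mem_univ, and_true]
  let SS : Finset (Subspace ℚ (Fin n → (Fin d → ℤ) → ℚ)) :=
    Pat.image fun q => LinearMap.ker (genEtaT A (lam q.1 q.2))
  have hSS : ⊤ ∉ SS := by
    intro h
    simp only [SS, Finset.mem_image] at h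
    obtain ⟨q, hq, h⟩ := h
    rw [hPat] at hq
    obtain ⟨i, a, ha, hne⟩ := genEta_exists_ne A q.1 q.2 _ _ (hlam q.1 q.2 hq.2) hq.1
    exact genEtaT_ker_ne_top A _ i a ha hne h
  have hex := Subspace.biUnion_ne_univ_of_top_notMem hSS
  rw [Set.ne_univ_iff_exists_notMem] at hex
  obtain ⟨η0, hη0⟩ := hex
  simp only [Set.mem_iUnion, not_exists] at hη0
  have hη1 : ∀ q ∈ Pat, genEtaT A (lam q.1 q.2) η0 ≠ 0 := by
    intro q hq h
    exact hη0 _ (Finset.mem_image_of_mem _ hq) (by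
      rw [SetLike.mem_coe, LinearMap.mem_ker]
      exact h)
  let c : ℚ := 1 + ∑ i, ∑ a ∈ A i, |η0 i a|
  have hc0 : 0 < c := by positivity
  have hc : ∀ i, ∀ a ∈ A i, |η0 i a| ≤ c := by
    intro i a ha
    have h1 : |η0 i a| ≤ ∑ a ∈ A i, |η0 i a| :=
      Finset.single_le_sum (f := fun a => |η0 i a|) (fun _ _ => abs_nonneg _) ha
    have h2 : ∑ a ∈ A i, |η0 i a| ≤ ∑ i, ∑ a ∈ A i, |η0 i a| :=
      Finset.single_le_sum (f := fun i => ∑ a ∈ A i, |η0 i a|)
        (fun _ _ => Finset.sum_nonneg fun _ _ => abs_nonneg _) (Finset.mem_univ i)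
    simp only [c]
    linarith
  let η : Fin n → (Fin d → ℤ) → ℚ := c⁻¹ • η0
  have hη2 : ∀ q ∈ Pat, genEtaT A (lam q.1 q.2) η ≠ 0 := by
    intro q hq h
    simp only [η] at h
    rw [map_smul, smul_eq_zero] at h
    rcases h with h | h
    · exact (inv_ne_zero hc0.ne') h
    · exact hη1 q hq h
  refine ⟨η, ?_, ?_⟩
  · intro i a ha
    simp only [η, Pi.smul_apply, smul_eq_mul]
    rw [abs_mul, abs_inv, abs_of_pos hc0, inv_mul_le_iff₀ hc0, mul_one]
    exact hc i a ha
  · intro s0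
    let bad : Finset ℝ := (Pat ×ˢ (Fintype.piFinset fun _ : Fin d => ({1, -1} : Finset ℝ))).image
      fun q => genEtaT A (lam q.1.1 q.1.2) η / ∑ k, ν q.1.1 q.1.2 k * q.2 k
    obtain ⟨s, hs1, hs2⟩ := (Set.Ioi_infinite (max s0 0)).exists_notMem_finset bad
    rw [Set.mem_Ioi, max_lt_iff] at hs1
    refine ⟨s, hs1.1.le, hs1.2, ?_⟩
    intro w hw lam' ν' h1 h2 h3 h4
    by_contra hcon
    have hrel : GenEtaRel A (Bs A (fun i a => (η i a : ℝ)) w)
        (Finset.univ.filter fun k => |w k| = s) lam' ν' := by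
      refine ⟨h1, h2, ?_, h4, hcon⟩
      intro k hk
      apply h3
      simp only [Finset.mem_filter, Finset.mem_univ, true_and] at hk
      exact lt_of_le_of_ne (hw k) hk
    have hq : (Bs A (fun i a => (η i a : ℝ)) w, Finset.univ.filter fun k => |w k| = s) ∈ Pat := by
      rw [hPat]
      exact ⟨fun i => Finset.filter_subset _ _, lam', ν', hrel⟩
    have hrel2 := hlam _ _ ⟨lam', ν', hrel⟩
    let σ : Fin d → ℝ := fun k => if 0 ≤ w k then 1 else -1
    have hσ : σ ∈ Fintype.piFinset fun _ : Fin d => ({1, -1} : Finset ℝ) := by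
      rw [Fintype.mem_piFinset]
      intro k
      simp only [σ]
      split_ifs <;> simp
    have hid := genEta_identity A _ _ _ η s w σ (by
      intro k hk
      simp only [Finset.mem_filter, Finset.mem_univ, true_and] at hk
      simp only [σ]
      split_ifs with h0
      · rw [abs_of_nonneg h0] at hk
        rw [hk, one_mul]
      · rw [abs_of_neg (not_le.mp h0)] at hk
        linarith) hrel2
    have hne := hη2 _ hq
    by_cases hz : ∑ k, ν (Bs A (fun i a => (η i a : ℝ)) w)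
        (Finset.univ.filter fun k => |w k| = s) k * σ k = 0
    · rw [hz, mul_zero] at hid
      exact hne hid
    · apply hs2
      simp only [bad, Finset.mem_image, Finset.mem_product]
      refine ⟨((Bs A (fun i a => (η i a : ℝ)) w, Finset.univ.filter fun k => |w k| = s), σ),
        ⟨hq, hσ⟩, ?_⟩
      rw [div_eq_iff hz]
      exact hid

end Pool.Agent.Lib.MP_4e7804_co
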