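import Mathlib
import Pool.Agent.Lib.MP_4e7804_co.Up.GeoD

/-! MP_4e7804_co, upper bound, module Ray (120 lines): every cell has a vertex.

PROOF. Among all `w'` in the box with `Bs A η w i ⊆ Bs A η w' i` for all `i` and `w' k = w k` for all
`k` with `|w k| = s` choose one with maximal `N(w') = ∑_i |Bs A η w' i| + #{k | |w' k| = s}` (a bounded
natural number, `w` itself is a candidate). Suppose it is not spanning: there is `u ≠ 0` with
`∑ (a k - b k) u k = 0` for `a, b ∈ Bs A η w' i` and `u k = 0` if `|w' k| = s`. Let `g_i` be an element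
of `Bs A η w' i` (if `A i` is not empty). Consider `w' + τ u`, `τ ≥ 0`, and the finitely many affine
functions of `τ`: `val η i b (w' + τ u) - val η i g_i (w' + τ u)` for `b ∈ A i \ Bs A η w' i`
(positive at `τ = 0`), `s - (w' k + τ u k)` and `s + (w' k + τ u k)` for `|w' k| < s` (positive at
`0`). At least one of them has negative slope (`u k ≠ 0` for some `k`, and then `|w' k| < s`). Let
`τ > 0` be the smallest zero of those with negative slope (`Finset.exists_min_image`). At
`w'' = w' + τ u` all these functions are `≥ 0`, and one of them is `0`; the elements of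
`Bs A η w' i` still have equal values. So `w''` is in the box, `Bs A η w' i ⊆ Bs A η w'' i`,
`w'' k = w' k` if `|w' k| = s`, and `N(w'') > N(w')`: contradiction. -/

set_option autoImplicit false

open Finset

namespace Pool.Agent.Lib.MP_4e7804_co

open Classical in
/-- number of minimizers and active facets -/
noncomputable def Ray_N {n d : ℕ} (A : Fin n → Finset (Fin d → ℤ))
    (η : Fin n → (Fin d → ℤ) → ℝ) (s : ℝ) (w : Fin d → ℝ) : ℕ :=
  ∑ i, (Bs A η w i).card + (univ.filter fun k => |w k| = s).card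

theorem Ray_N_le {n d : ℕ} (A : Fin n → Finset (Fin d → ℤ))
    (η : Fin n → (Fin d → ℤ) → ℝ) (s : ℝ) (w : Fin d → ℝ) :
    Ray_N A η s w ≤ ∑ i, (A i).card + d := by
  classical
  unfold Ray_N
  refine add_le_add (Finset.sum_le_sum fun i _ => Finset.card_le_card ?_) ?_
  · unfold Bs
    exact Finset.filter_subset _ _
  · exact (Finset.card_le_univ _).trans (by rw [Fintype.card_fin])

theorem Ray_mem_Bs {n d : ℕ} {A : Fin n → Finset (Fin d → ℤ)}
    {η : Fin n → (Fin d → ℤ) → ℝ} {w : Fin d → ℝ} {i : Fin n} {a : Fin d → ℤ} :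
    a ∈ Bs A η w i ↔ a ∈ A i ∧ ∀ b ∈ A i, val η i a w ≤ val η i b w := by
  classical
  unfold Bs
  rw [Finset.mem_filter]

theorem Ray_line {n d : ℕ} (η : Fin n → (Fin d → ℤ) → ℝ) (i : Fin n) (a : Fin d → ℤ)
    (w u : Fin d → ℝ) (τ : ℝ) :
    val η i a (w + τ • u) = val η i a w + τ * ∑ k, (a k : ℝ) * u k := by
  unfold val
  rw [Finset.mul_sum, add_right_comm, ← Finset.sum_add_distrib]
  congr 1
  refine Finset.sum_congr rfl fun k _ => ?_
  simp only [Pi.add_apply, Pi.smul_apply, smul_eq_mul]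
  ring

theorem Ray_step {n d : ℕ} (A : Fin n → Finset (Fin d → ℤ))
    (η : Fin n → (Fin d → ℤ) → ℝ) (s : ℝ) (w : Fin d → ℝ) (hw : InBox s w)
    (hns : ¬ Spanning A η s w) :
    ∃ w' : Fin d → ℝ, InBox s w' ∧ (∀ i, Bs A η w i ⊆ Bs A η w' i) ∧
      (∀ k, |w k| = s → w' k = w k) ∧ Ray_N A η s w < Ray_N A η s w' := by
  classical
  unfold Spanning at hns
  push Not at hns
  obtain ⟨u, hu1, hu2, hu0⟩ := hns
  obtain ⟨k0, hk0⟩ := Function.ne_iff.1 hu0
  rw [Pi.zero_apply] at hk0
  obtain ⟨T, hTdef⟩ : ∃ T : Set ℝ, T = Set.Ici (0 : ℝ) ∩ ((⋂ k, {τ : ℝ | |w k + τ * u k| ≤ s}) ∩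
      ⋂ i, ⋂ a ∈ Bs A η w i, ⋂ b ∈ A i,
        {τ : ℝ | val η i a (w + τ • u) ≤ val η i b (w + τ • u)}) := ⟨_, rfl⟩
  have hmem : ∀ τ, τ ∈ T ↔ 0 ≤ τ ∧ (∀ k, |w k + τ * u k| ≤ s) ∧
      ∀ i, ∀ a ∈ Bs A η w i, ∀ b ∈ A i, val η i a (w + τ • u) ≤ val η i b (w + τ • u) := by
    intro τ
    rw [hTdef]
    simp only [Set.mem_inter_iff, Set.mem_iInter]
    rfl
  have hcont : ∀ i a, Continuous fun τ : ℝ => val η i a (w + τ • u) := by
    intro i a
    have : (fun τ : ℝ => val η i a (w + τ • u)) =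
        fun τ => val η i a w + τ * ∑ k, (a k : ℝ) * u k := by
      funext τ
      exact Ray_line η i a w u τ
    rw [this]
    fun_prop
  have hclosed : IsClosed T := by
    rw [hTdef]
    refine isClosed_Ici.inter ((isClosed_iInter fun k => isClosed_le (by fun_prop)
      continuous_const).inter ?_)
    exact isClosed_iInter fun i => isClosed_iInter fun a => isClosed_iInter fun _ =>
      isClosed_iInter fun b => isClosed_iInter fun _ => isClosed_le (hcont i a) (hcont i b)
  have h0 : (0 : ℝ) ∈ T := by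
    rw [hmem]
    refine ⟨le_rfl, ?_, ?_⟩
    · intro k
      rw [zero_mul, add_zero]
      exact hw k
    · intro i a ha b hb
      rw [zero_smul, add_zero]
      exact (Ray_mem_Bs.1 ha).2 b hb
  have hbdd : BddAbove T := by
    refine ⟨2 * s / |u k0|, fun τ hτ => ?_⟩
    obtain ⟨h1, h2, _⟩ := (hmem τ).1 hτ
    rw [le_div_iff₀ (abs_pos.2 hk0)]
    have h3 : τ * |u k0| = |τ * u k0| := by rw [abs_mul, abs_of_nonneg h1]
    have h4 : |τ * u k0| ≤ |w k0 + τ * u k0| + |w k0| := by
      have := abs_sub (w k0 + τ * u k0) (w k0)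
      rwa [add_sub_cancel_left] at this
    rw [h3]
    linarith [h2 k0, hw k0]
  obtain ⟨τ, hτdef⟩ : ∃ τ : ℝ, τ = sSup T := ⟨_, rfl⟩
  have hτ : τ ∈ T := by
    rw [hτdef]
    exact hclosed.csSup_mem ⟨0, h0⟩ hbdd
  have hτmax : ∀ σ ∈ T, σ ≤ τ := by
    intro σ hσ
    rw [hτdef]
    exact le_csSup hbdd hσ
  obtain ⟨hτ0, hτ1, hτ2⟩ := (hmem τ).1 hτ
  have hsub : ∀ i, Bs A η w i ⊆ Bs A η (w + τ • u) i := by
    intro i a ha
    exact Ray_mem_Bs.2 ⟨(Ray_mem_Bs.1 ha).1, hτ2 i a ha⟩
  have hact : ∀ k, |w k| = s → (w + τ • u) k = w k := by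
    intro k hk
    simp only [Pi.add_apply, Pi.smul_apply, smul_eq_mul]
    rw [hu2 k hk, mul_zero, add_zero]
  have hfsub : (univ.filter fun k => |w k| = s) ⊆ univ.filter fun k => |(w + τ • u) k| = s := by
    intro k hk
    rw [Finset.mem_filter] at hk ⊢
    exact ⟨hk.1, by rw [hact k hk.2]; exact hk.2⟩
  refine ⟨w + τ • u, fun k => hτ1 k, hsub, hact, ?_⟩
  by_contra hN
  rw [not_lt] at hN
  have hcs : ∀ i ∈ univ, (Bs A η w i).card ≤ (Bs A η (w + τ • u) i).card :=
    fun i _ => Finset.card_le_card (hsub i)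
  have hcf := Finset.card_le_card hfsub
  have hs1 := Finset.sum_le_sum hcs
  unfold Ray_N at hN
  have hs2 : ∑ i, (Bs A η w i).card = ∑ i, (Bs A η (w + τ • u) i).card := by omega
  have hs3 := (Finset.sum_eq_sum_iff_of_le hcs).1 hs2
  have hBeq : ∀ i, Bs A η w i = Bs A η (w + τ • u) i := fun i =>
    Finset.eq_of_subset_of_card_le (hsub i) (hs3 i (Finset.mem_univ i)).ge
  have hfeq : (univ.filter fun k => |w k| = s) = univ.filter fun k => |(w + τ • u) k| = s :=
    Finset.eq_of_subset_of_card_le hfsub (by omega)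
  have hev1 : ∀ k, ∀ᶠ σ in nhds τ, |w k + σ * u k| ≤ s := by
    intro k
    rcases (hτ1 k).lt_or_eq with h | h
    · have hc : Continuous fun σ : ℝ => |w k + σ * u k| := by fun_prop
      filter_upwards [(hc.tendsto τ).eventually (gt_mem_nhds h)] with σ hσ using le_of_lt hσ
    · have hk : k ∈ univ.filter fun k => |w k| = s := by
        rw [hfeq, Finset.mem_filter]
        exact ⟨Finset.mem_univ k, h⟩
      have hk' := (Finset.mem_filter.1 hk).2
      refine Filter.Eventually.of_forall fun σ => ?_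
      rw [hu2 k hk', mul_zero, add_zero]
      exact hk'.le
  have hev2 : ∀ i, ∀ a ∈ Bs A η w i, ∀ b ∈ A i, ∀ᶠ σ in nhds τ,
      val η i a (w + σ • u) ≤ val η i b (w + σ • u) := by
    intro i a ha b hb
    by_cases hbB : b ∈ Bs A η w i
    · refine Filter.Eventually.of_forall fun σ => ?_
      have h5 := hu1 i a ha b hbB
      have h6 : val η i a w ≤ val η i b w := (Ray_mem_Bs.1 ha).2 b hb
      rw [Ray_line, Ray_line]
      have h7 : ∑ k, (a k : ℝ) * u k = ∑ k, (b k : ℝ) * u k := by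
        rw [← sub_eq_zero, ← Finset.sum_sub_distrib, ← h5]
        refine Finset.sum_congr rfl fun k _ => ?_
        ring
      rw [h7]
      linarith
    · have h8 : val η i a (w + τ • u) < val η i b (w + τ • u) := by
        by_contra h9
        rw [not_lt] at h9
        apply hbB
        rw [hBeq i, Ray_mem_Bs]
        exact ⟨hb, fun c hc => h9.trans (hτ2 i a ha c hc)⟩
      filter_upwards [((hcont i a).tendsto τ).eventually_lt ((hcont i b).tendsto τ) h8] with σ hσ
        using le_of_lt hσ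
  have hev : ∀ᶠ σ in nhds τ, (∀ k, |w k + σ * u k| ≤ s) ∧
      ∀ i, ∀ a ∈ Bs A η w i, ∀ b ∈ A i, val η i a (w + σ • u) ≤ val η i b (w + σ • u) := by
    refine Filter.Eventually.and (Filter.eventually_all.2 hev1) ?_
    refine Filter.eventually_all.2 fun i => ?_
    refine (Filter.eventually_all_finset _).2 fun a ha => ?_
    exact (Filter.eventually_all_finset _).2 fun b hb => hev2 i a ha b hb
  obtain ⟨σ, hσ1, hσ2⟩ := ((hev.filter_mono nhdsWithin_le_nhds).and
    (self_mem_nhdsWithin : Set.Ioi τ ∈ nhdsWithin τ (Set.Ioi τ))).exists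
  have hσ3 : τ < σ := hσ2
  have hσT : σ ∈ T := (hmem σ).2 ⟨hτ0.trans hσ3.le, hσ1.1, hσ1.2⟩
  exact absurd (hτmax σ hσT) (not_le.2 hσ3)

theorem exists_spanning {n d : ℕ} (A : Fin n → Finset (Fin d → ℤ))
    (η : Fin n → (Fin d → ℤ) → ℝ) (s : ℝ) (hs : 0 < s) (w : Fin d → ℝ) (hw : InBox s w) :
    ∃ w' : Fin d → ℝ, InBox s w' ∧ (∀ i, Bs A η w i ⊆ Bs A η w' i) ∧
      (∀ k, |w k| = s → w' k = w k) ∧ Spanning A η s w' := by
  have main : ∀ (m : ℕ) (w : Fin d → ℝ), InBox s w → ∑ i, (A i).card + d ≤ Ray_N A η s w + m →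
      ∃ w' : Fin d → ℝ, InBox s w' ∧ (∀ i, Bs A η w i ⊆ Bs A η w' i) ∧
      (∀ k, |w k| = s → w' k = w k) ∧ Spanning A η s w' := by
    intro m
    induction m with
    | zero =>
      intro w hw hm
      by_cases hsp : Spanning A η s w
      · exact ⟨w, hw, fun i => Finset.Subset.refl _, fun k _ => rfl, hsp⟩
      · obtain ⟨w', _, _, _, h4⟩ := Ray_step A η s w hw hsp
        have := Ray_N_le A η s w'
        omega
    | succ m ih =>
      intro w hw hm
      by_cases hsp : Spanning A η s w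
      · exact ⟨w, hw, fun i => Finset.Subset.refl _, fun k _ => rfl, hsp⟩
      · obtain ⟨w', h1, h2, h3, h4⟩ := Ray_step A η s w hw hsp
        obtain ⟨w'', g1, g2, g3, g4⟩ := ih w' h1 (by omega)
        refine ⟨w'', g1, fun i => (h2 i).trans (g2 i), fun k hk => ?_, g4⟩
        rw [g3 k (by rw [h3 k hk]; exact hk), h3 k hk]
  exact main _ w hw (Nat.le_add_left _ _)

end Pool.Agent.Lib.MP_4e7804_co
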