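import Mathlib
import Pool.Agent.Lib.MP_4e7804_co.Up.GeoD

/-! MP_4e7804_co, upper bound, module Expand (180 lines): expansions at the vertices of the overlay.

PROOF of `exists_expansion`. Let `U` be the linear subspace of `ℝ^d` of all `l` which have an
expansion at `w` (it contains all `a - b`, `a, b ∈ Bs A η w i`, and `e_k` for `|w k| = s`). If it is
not `ℝ^d` there is `u ≠ 0` with `∑ l k * u k = 0` for all `l ∈ U` (a linear functional vanishing on a
proper subspace, `Submodule.exists_le_ker_of_lt_top`; the functional is `l ↦ ∑ l k u k`), which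
contradicts `Spanning`.
PROOF of `WSt_finite`. `w ∈ WSt` is determined by the sets `Bs A η w i` (finitely many
possibilities), the set `{k | |w k| = s}` and the signs of `w k` there: if `w, w'` have the same data
then `u = w - w'` satisfies `∑ (a k - b k) u k = 0` for `a, b ∈ Bs A η w i` (subtract
`val η i a w = val η i b w` and `val η i a w' = val η i b w'`) and `u k = 0` for `|w k| = s`; so
`u = 0`.
PROOF of `exists_generic_l`. For `w ∈ WSt` the expansion of `l` is unique (`GP`), so
`l ↦ lam i a` and `l ↦ ν k` are linear functionals on `ℝ^d`; for `a ∈ Bs A η w i` with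
`|Bs A η w i| ≥ 2` the functional `lam i a` is not zero (`l = a - b`, `b ∈ Bs A η w i`, `b ≠ a`, has
the expansion `lam i a = 1`, `lam i b = -1`), and for `|w k| = s` the functional `ν k` is not zero
(`l = e_k`). A finite number (`WSt_finite`) of proper subspaces does not cover `ℝ^d`. (To avoid
linear functionals: the set of all `l` which have an expansion at `w` with `lam i a = 0` is a
subspace, proper by uniqueness.) -/

set_option autoImplicit false

open Finset

namespace Pool.Agent.Lib.MP_4e7804_co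

/-- The subspace of the vectors which have an expansion at `w` satisfying a linear condition. -/
def ExpandSub {n d : ℕ} (A : Fin n → Finset (Fin d → ℤ)) (η : Fin n → (Fin d → ℤ) → ℝ) (s : ℝ)
    (w : Fin d → ℝ) (φ : (Fin n → (Fin d → ℤ) → ℝ) × (Fin d → ℝ) →ₗ[ℝ] ℝ) :
    Submodule ℝ (Fin d → ℝ) where
  carrier := {l | ∃ lam ν, Expands A η s w l lam ν ∧ φ (lam, ν) = 0}
  zero_mem' := by
    refine ⟨0, 0, ⟨fun _ _ _ => rfl, fun _ => by simp, fun _ _ => rfl, fun k => by simp⟩, ?_⟩
    have : ((0 : Fin n → (Fin d → ℤ) → ℝ), (0 : Fin d → ℝ)) = 0 := rfl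
    rw [this, map_zero]
  add_mem' := by
    rintro x y ⟨l1, n1, ⟨h1, h2, h3, h4⟩, h5⟩ ⟨l2, n2, ⟨g1, g2, g3, g4⟩, g5⟩
    refine ⟨l1 + l2, n1 + n2, ⟨?_, ?_, ?_, ?_⟩, ?_⟩
    · intro i a ha
      simp [h1 i a ha, g1 i a ha]
    · intro i
      simp [Finset.sum_add_distrib, h2 i, g2 i]
    · intro k hk
      simp [h3 k hk, g3 k hk]
    · intro k
      simp only [Pi.add_apply, add_mul, Finset.sum_add_distrib]
      rw [← h4 k, ← g4 k]
      ring
    · have : (l1 + l2, n1 + n2) = (l1, n1) + (l2, n2) := rfl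
      rw [this, map_add, h5, g5, add_zero]
  smul_mem' := by
    rintro c x ⟨l1, n1, ⟨h1, h2, h3, h4⟩, h5⟩
    refine ⟨c • l1, c • n1, ⟨?_, ?_, ?_, ?_⟩, ?_⟩
    · intro i a ha
      simp [h1 i a ha]
    · intro i
      simp [← Finset.mul_sum, h2 i]
    · intro k hk
      simp [h3 k hk]
    · intro k
      simp only [Pi.smul_apply, smul_eq_mul, mul_assoc, ← Finset.mul_sum]
      rw [← h4 k]
      ring
    · have : (c • l1, c • n1) = c • (l1, n1) := rfl
      rw [this, map_smul, h5, smul_zero]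

theorem Expand_mem {n d : ℕ} {A : Fin n → Finset (Fin d → ℤ)} {η : Fin n → (Fin d → ℤ) → ℝ}
    {s : ℝ} {w : Fin d → ℝ} {φ : (Fin n → (Fin d → ℤ) → ℝ) × (Fin d → ℝ) →ₗ[ℝ] ℝ}
    {l : Fin d → ℝ} : l ∈ ExpandSub A η s w φ ↔ ∃ lam ν, Expands A η s w l lam ν ∧ φ (lam, ν) = 0 :=
  Iff.rfl

theorem Expand_mem_A {n d : ℕ} {A : Fin n → Finset (Fin d → ℤ)} {η : Fin n → (Fin d → ℤ) → ℝ}
    {w : Fin d → ℝ} {i : Fin n} {a : Fin d → ℤ} (h : a ∈ Bs A η w i) : a ∈ A i := by
  classical
  unfold Bs at h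
  exact (Finset.mem_filter.mp h).1

/-- The expansion of a difference of two minimizers. -/
theorem Expand_diff {n d : ℕ} {A : Fin n → Finset (Fin d → ℤ)} {η : Fin n → (Fin d → ℤ) → ℝ}
    {s : ℝ} {w : Fin d → ℝ} {i : Fin n} {a b : Fin d → ℤ} (ha : a ∈ Bs A η w i)
    (hb : b ∈ Bs A η w i) :
    Expands A η s w (fun k => (a k : ℝ) - b k)
      (fun j c => if j = i then (if c = a then 1 else 0) - (if c = b then 1 else 0) else 0) 0 := by
  classical
  refine ⟨?_, ?_, fun _ _ => rfl, ?_⟩
  · intro j c hc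
    by_cases hj : j = i
    · subst hj
      have h1 : c ≠ a := fun h => hc (h ▸ ha)
      have h2 : c ≠ b := fun h => hc (h ▸ hb)
      simp [h1, h2]
    · simp [hj]
  · intro j
    by_cases hj : j = i
    · subst hj
      simp [Finset.sum_sub_distrib, Expand_mem_A ha, Expand_mem_A hb]
    · simp [hj]
  · intro k
    rw [Finset.sum_eq_single i]
    · simp [sub_mul, Finset.sum_sub_distrib, Expand_mem_A ha, Expand_mem_A hb]
    · intro j _ hj
      simp [hj]
    · intro h
      exact absurd (Finset.mem_univ i) h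

theorem Expand_unit {n d : ℕ} {A : Fin n → Finset (Fin d → ℤ)} {η : Fin n → (Fin d → ℤ) → ℝ}
    {s : ℝ} {w : Fin d → ℝ} {k : Fin d} (hk : |w k| = s) :
    Expands A η s w (Pi.single k 1) 0 (Pi.single k 1) := by
  classical
  refine ⟨fun _ _ _ => rfl, fun _ => by simp, ?_, fun j => by simp⟩
  intro j hj
  have : j ≠ k := by
    rintro rfl
    exact absurd hk hj.ne
  simp [this]

theorem exists_expansion {n d : ℕ} {A : Fin n → Finset (Fin d → ℤ)}
    {η : Fin n → (Fin d → ℤ) → ℝ} {s : ℝ} {w : Fin d → ℝ} (hb : InBox s w)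
    (hw : Spanning A η s w) (l : Fin d → ℝ) : ∃ lam ν, Expands A η s w l lam ν := by
  classical
  by_contra hcon
  have hne : ExpandSub A η s w 0 < ⊤ := by
    rw [lt_top_iff_ne_top]
    intro htop
    have : l ∈ ExpandSub A η s w 0 := by rw [htop]; trivial
    obtain ⟨lam, ν, h, -⟩ := this
    exact hcon ⟨lam, ν, h⟩
  obtain ⟨f, hf0, hf⟩ := Submodule.exists_le_ker_of_lt_top _ hne
  have key : ∀ x : Fin d → ℝ, f x = ∑ k, x k * f (Pi.single k 1) := by
    intro x
    conv_lhs => rw [pi_eq_sum_univ' x]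
    rw [map_sum]
    refine Finset.sum_congr rfl fun k _ => ?_
    rw [map_smul, smul_eq_mul]
  have hu : (fun k => f (Pi.single k 1)) = 0 := by
    apply hw
    · intro i a ha b hb
      have hm : (fun k => (a k : ℝ) - b k) ∈ ExpandSub A η s w 0 :=
        ⟨_, _, Expand_diff ha hb, rfl⟩
      have := hf hm
      rw [LinearMap.mem_ker, key] at this
      exact this
    · intro k hk
      have hm : (Pi.single k 1 : Fin d → ℝ) ∈ ExpandSub A η s w 0 :=
        ⟨_, _, Expand_unit hk, rfl⟩
      have := hf hm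
      rwa [LinearMap.mem_ker] at this
  apply hf0
  ext x
  have := congrFun hu x
  simpa using this

theorem WSt_finite {n d : ℕ} (A : Fin n → Finset (Fin d → ℤ)) (η : Fin n → (Fin d → ℤ) → ℝ)
    (s : ℝ) : (WSt A η s).Finite := by
  classical
  let F : (Fin d → ℝ) → (Fin n → Finset (Fin d → ℤ)) × (Fin d → Prop × Prop) :=
    fun w => (fun i => Bs A η w i, fun k => (w k = s, w k = -s))
  have hfin : ((Set.univ.pi fun i : Fin n => ((A i).powerset : Set (Finset (Fin d → ℤ)))) ×ˢ
      (Set.univ : Set (Fin d → Prop × Prop))).Finite :=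
    (Set.Finite.pi fun i => (A i).powerset.finite_toSet).prod Set.finite_univ
  refine Set.Finite.of_injOn (f := F) ?_ ?_ hfin
  · intro w _
    refine ⟨?_, trivial⟩
    intro i _
    simp only [F, Finset.coe_powerset, Set.mem_preimage, Set.mem_powerset_iff, Finset.coe_subset]
    intro a ha
    exact Expand_mem_A ha
  · rintro w ⟨hw1, hw2⟩ w' ⟨hw1', hw2'⟩ heq
    simp only [F, Prod.mk.injEq] at heq
    obtain ⟨hB, hS⟩ := heq
    have hu : (fun k => w k - w' k) = 0 := by
      apply hw2
      · intro i a ha b hb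
        have ha' : a ∈ Bs A η w' i := by rw [← congrFun hB i]; exact ha
        have hb' : b ∈ Bs A η w' i := by rw [← congrFun hB i]; exact hb
        have h1 : val η i a w = val η i b w := by
          unfold Bs at ha hb
          exact le_antisymm ((Finset.mem_filter.mp ha).2 b (Finset.mem_filter.mp hb).1)
            ((Finset.mem_filter.mp hb).2 a (Finset.mem_filter.mp ha).1)
        have h2 : val η i a w' = val η i b w' := by
          unfold Bs at ha' hb'
          exact le_antisymm ((Finset.mem_filter.mp ha').2 b (Finset.mem_filter.mp hb').1)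
            ((Finset.mem_filter.mp hb').2 a (Finset.mem_filter.mp ha').1)
        unfold val at h1 h2
        have e : ∑ k, ((a k : ℝ) - b k) * (w k - w' k) =
            (∑ k, (a k : ℝ) * w k - ∑ k, (b k : ℝ) * w k) -
              (∑ k, (a k : ℝ) * w' k - ∑ k, (b k : ℝ) * w' k) := by
          simp only [← Finset.sum_sub_distrib]
          refine Finset.sum_congr rfl fun k _ => ?_
          ring
        rw [e]
        linarith
      · intro k hk
        have hk' := congrFun hS k
        simp only [Prod.mk.injEq, eq_iff_iff] at hk'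
        rcases abs_choice (w k) with h | h
        · rw [h] at hk
          rw [hk, hk'.1.mp hk, sub_self]
        · rw [h] at hk
          have h1 : w k = -s := by linarith
          rw [h1, hk'.2.mp h1, sub_self]
    funext k
    have := congrFun hu k
    simpa [sub_eq_zero] using this

/-- Uniqueness of the expansion. -/
theorem Expand_unique {n d : ℕ} {A : Fin n → Finset (Fin d → ℤ)}
    {η : Fin n → (Fin d → ℤ) → ℝ} {s : ℝ} (hGP : GP A η s) {w l : Fin d → ℝ} (hw : InBox s w)
    {lam lam' : Fin n → (Fin d → ℤ) → ℝ} {ν ν' : Fin d → ℝ} (h : Expands A η s w l lam ν)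
    (h' : Expands A η s w l lam' ν') : lam = lam' ∧ ν = ν' := by
  obtain ⟨h1, h2, h3, h4⟩ := h
  obtain ⟨g1, g2, g3, g4⟩ := h'
  have := hGP w hw (fun i a => lam i a - lam' i a) (fun k => ν k - ν' k)
    (fun i a ha => by simp [h1 i a ha, g1 i a ha])
    (fun i => by simp [Finset.sum_sub_distrib, h2 i, g2 i])
    (fun k hk => by simp [h3 k hk, g3 k hk])
    (fun k => by
      simp only [sub_mul, Finset.sum_sub_distrib]
      have a := h4 k
      have b := g4 k
      linarith)
  refine ⟨?_, ?_⟩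
  · funext i a
    have := this.1 i a
    linarith
  · funext k
    have := this.2 k
    linarith

theorem exists_generic_l {n d : ℕ} {A : Fin n → Finset (Fin d → ℤ)}
    {η : Fin n → (Fin d → ℤ) → ℝ} {s : ℝ} (hGP : GP A η s) :
    ∃ l : Fin d → ℝ, ∀ w ∈ WSt A η s, ∀ lam ν, Expands A η s w l lam ν →
      (∀ i, ∀ a ∈ Bs A η w i, 2 ≤ (Bs A η w i).card → lam i a ≠ 0) ∧
        ∀ k, |w k| = s → ν k ≠ 0 := by
  classical
  -- the linear forms
  let cl : Fin n → (Fin d → ℤ) → ((Fin n → (Fin d → ℤ) → ℝ) × (Fin d → ℝ) →ₗ[ℝ] ℝ) :=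
    fun i a => (LinearMap.proj a ∘ₗ LinearMap.proj i) ∘ₗ LinearMap.fst ℝ _ _
  let cn : Fin d → ((Fin n → (Fin d → ℤ) → ℝ) × (Fin d → ℝ) →ₗ[ℝ] ℝ) :=
    fun k => LinearMap.proj k ∘ₗ LinearMap.snd ℝ _ _
  let I1 : Set ((Fin d → ℝ) × (Σ _ : Fin n, (Fin d → ℤ))) :=
    {x | x.1 ∈ WSt A η s ∧ x.2.2 ∈ Bs A η x.1 x.2.1 ∧ 2 ≤ (Bs A η x.1 x.2.1).card}
  let I2 : Set ((Fin d → ℝ) × Fin d) := {x | x.1 ∈ WSt A η s ∧ |x.1 x.2| = s}
  have hI1 : I1.Finite := by
    refine ((WSt_finite A η s).prod (Finset.univ.sigma A).finite_toSet).subset ?_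
    rintro ⟨w, i, a⟩ ⟨h1, h2, -⟩
    refine ⟨h1, ?_⟩
    simp only [Finset.coe_sigma, Set.mem_sigma_iff]
    exact ⟨by simp, Expand_mem_A h2⟩
  have hI2 : I2.Finite := by
    refine ((WSt_finite A η s).prod (Set.finite_univ (α := Fin d))).subset ?_
    rintro ⟨w, k⟩ ⟨h1, -⟩
    exact ⟨h1, trivial⟩
  have := hI1.to_subtype
  have := hI2.to_subtype
  let p : I1 ⊕ I2 → Submodule ℝ (Fin d → ℝ) := fun x =>
    match x with
    | Sum.inl x => ExpandSub A η s x.1.1 (cl x.1.2.1 x.1.2.2)
    | Sum.inr x => ExpandSub A η s x.1.1 (cn x.1.2)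
  by_cases hcov : ⋃ i, (p i : Set (Fin d → ℝ)) = Set.univ
  · exfalso
    obtain ⟨x, hx⟩ := Subspace.exists_eq_top_of_iUnion_eq_univ (k := ℝ) (p := p) hcov
    rcases x with ⟨⟨w, i, a⟩, hw, ha, h2⟩ | ⟨⟨w, k⟩, hw, hk⟩
    · simp only at hw ha h2
      obtain ⟨b, hb, hba⟩ : ∃ b ∈ Bs A η w i, b ≠ a := by
        by_contra hcon
        push Not at hcon
        have : (Bs A η w i) ⊆ {a} := fun b hb => by simpa using hcon b hb
        have := Finset.card_le_card this
        simp at this
        omega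
      have hm : (fun k => (a k : ℝ) - b k) ∈ ExpandSub A η s w (cl i a) := by
        have : ExpandSub A η s w (cl i a) = ⊤ := hx
        rw [this]
        trivial
      obtain ⟨lam, ν, hE, h0⟩ := hm
      have := (Expand_unique hGP hw.1.1 hE (Expand_diff ha hb)).1
      have h0' : lam i a = 0 := h0
      rw [this] at h0'
      simp [hba.symm] at h0'
    · simp only at hw hk
      have hm : (Pi.single k 1 : Fin d → ℝ) ∈ ExpandSub A η s w (cn k) := by
        have : ExpandSub A η s w (cn k) = ⊤ := hx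
        rw [this]
        trivial
      obtain ⟨lam, ν, hE, h0⟩ := hm
      have := (Expand_unique hGP hw.1.1 hE (Expand_unit hk)).2
      have h0' : ν k = 0 := h0
      rw [this] at h0'
      simp at h0'
  · rw [Set.eq_univ_iff_forall] at hcov
    push Not at hcov
    obtain ⟨l, hl⟩ := hcov
    simp only [Set.mem_iUnion, not_exists] at hl
    refine ⟨l, fun w hw lam ν hE => ⟨fun i a ha h2 h0 => ?_, fun k hk h0 => ?_⟩⟩
    · exact hl (Sum.inl ⟨(w, ⟨i, a⟩), hw, ha, h2⟩) ⟨lam, ν, hE, h0⟩
    · exact hl (Sum.inr ⟨(w, k), hw, hk⟩) ⟨lam, ν, hE, h0⟩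

end Pool.Agent.Lib.MP_4e7804_co
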