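import Mathlib
import Pool.Agent.Lib.MP_4e7804_co.Up.GeoD

/-! MP_4e7804_co, upper bound, module Extr (120 lines): extremality of the vertices (Seidel).

PROOF. Let `g_i ∈ Bs A η w' i` be a minimizer at `w'` (if `A i` is nonempty), `h_i' = val η i g_i w'`.
By `Expands`: `∑ l k w' k - ∑ l k w k = ∑_{i,a} lam i a (a·w' - a·w) + ∑ ν k (w' k - w k)`. For each
`i`: `∑_a lam i a (a·w') = ∑_a lam i a * (val η i a w' - h_i')- ∑_a lam i a η i a` because
`∑_a lam i a = 0`, and `∑_a lam i a (a·w) = - ∑_a lam i a η i a` because `val η i a w` is the same for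
all `a` with `lam i a ≠ 0` (they belong to `Bs A η w i`). So the first sum is
`∑_{i,a} lam i a * (val η i a w' - h_i')`, where `val η i a w' - h_i' ≥ 0`, with equality if
`lam i a < 0` (`hN`); so all terms are `≥ 0`. Facets: `ν k ≠ 0` only if `|w k| = s`; if `ν k * w k > 0`
then `w' k = w k` (`hF`), the term is `0`; if `ν k * w k < 0`: `w k = s` gives `ν k < 0`,
`w' k - w k ≤ 0`, term `≥ 0`, and `w k = -s` gives `ν k > 0`, `w' k - w k ≥ 0`, term `≥ 0`
(`s > 0`). If the total is `0` then all terms are `0`: for every `i` with `|Bs A η w i| ≥ 2` all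
`a ∈ Bs A η w i` have `lam i a ≠ 0`, so `val η i a w' = h_i'`; and `w' k = w k` for all `k` with
`|w k| = s`. So `u = w' - w` satisfies `∑ (a k - b k) u k = 0` for `a, b ∈ Bs A η w i` and `u k = 0` for
`|w k| = s`: `u = 0` by `Spanning`. -/

set_option autoImplicit false

open Finset

namespace Pool.Agent.Lib.MP_4e7804_co

theorem Extr_mem_Bs {n d : ℕ} {A : Fin n → Finset (Fin d → ℤ)} {η : Fin n → (Fin d → ℤ) → ℝ}
    {w : Fin d → ℝ} {i : Fin n} {a : Fin d → ℤ} :
    a ∈ Bs A η w i ↔ a ∈ A i ∧ ∀ b ∈ A i, val η i a w ≤ val η i b w := by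
  unfold Bs
  rw [Finset.mem_filter]

theorem Extr_min {n d : ℕ} (A : Fin n → Finset (Fin d → ℤ)) (η : Fin n → (Fin d → ℤ) → ℝ)
    (w : Fin d → ℝ) (i : Fin n) :
    ∃ m : ℝ, (∀ a ∈ A i, m ≤ val η i a w) ∧ ∀ a ∈ Bs A η w i, val η i a w = m := by
  by_cases hA : (A i).Nonempty
  · obtain ⟨g, hg, hmin⟩ := Finset.exists_min_image (A i) (fun a => val η i a w) hA
    refine ⟨val η i g w, hmin, fun a ha => ?_⟩
    rw [Extr_mem_Bs] at ha
    exact le_antisymm (ha.2 g hg) (hmin a ha.1)
  · rw [Finset.not_nonempty_iff_eq_empty] at hA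
    refine ⟨0, ?_, ?_⟩
    · intro a ha
      rw [hA] at ha
      exact absurd ha (Finset.notMem_empty _)
    · intro a ha
      rw [Extr_mem_Bs, hA] at ha
      exact absurd ha.1 (Finset.notMem_empty _)

theorem Extr_val_sub {n d : ℕ} (η : Fin n → (Fin d → ℤ) → ℝ) (i : Fin n) (a : Fin d → ℤ)
    (w w' : Fin d → ℝ) :
    val η i a w' - val η i a w = ∑ k, (a k : ℝ) * (w' k - w k) := by
  unfold val
  simp only [mul_sub, Finset.sum_sub_distrib]
  ring

theorem extremal {n d : ℕ} {A : Fin n → Finset (Fin d → ℤ)} {η : Fin n → (Fin d → ℤ) → ℝ}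
    {s : ℝ} (hs : 0 < s) {w w' l : Fin d → ℝ} {lam : Fin n → (Fin d → ℤ) → ℝ} {ν : Fin d → ℝ}
    (hw : w ∈ WSt A η s) (hw' : InBox s w') (h : Expands A η s w l lam ν)
    (hlam : ∀ i, ∀ a ∈ Bs A η w i, 2 ≤ (Bs A η w i).card → lam i a ≠ 0)
    (hν : ∀ k, |w k| = s → ν k ≠ 0)
    (hN : ∀ i, ∀ a, lam i a < 0 → a ∈ Bs A η w' i)
    (hF : ∀ k, |w k| = s → 0 < ν k * w k → w' k = w k) :
    ∑ k, l k * w k ≤ ∑ k, l k * w' k ∧
      (∑ k, l k * w k = ∑ k, l k * w' k → w' = w) := by
  obtain ⟨hl1, hl2, hl3, hl4⟩ := h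
  obtain ⟨hbd, hsp⟩ := hw
  choose m hm1 hm2 using fun i => Extr_min A η w i
  choose m' hm1' hm2' using fun i => Extr_min A η w' i
  -- the terms
  have hterm1 : ∀ i, ∀ a ∈ A i, 0 ≤ lam i a * (val η i a w' - m' i) := by
    intro i a ha
    rcases lt_or_ge (lam i a) 0 with h1 | h1
    · rw [hm2' i a (hN i a h1), sub_self, mul_zero]
    · exact mul_nonneg h1 (sub_nonneg.mpr (hm1' i a ha))
  have hterm2 : ∀ k, 0 ≤ ν k * (w' k - w k) := by
    intro k
    rcases lt_or_eq_of_le (hbd.1 k) with h1 | h1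
    · rw [hl3 k h1, zero_mul]
    · by_cases h2 : 0 < ν k * w k
      · rw [hF k h1 h2, sub_self, mul_zero]
      · have h3 := not_lt.mp h2
        have h4 := abs_le.mp (hw' k)
        rcases (abs_eq hs.le).mp h1 with h5 | h5
        · rw [h5] at h3 ⊢
          have h6 : ν k ≤ 0 := by
            by_contra hcon
            have := mul_pos (not_le.mp hcon) hs
            linarith
          exact mul_nonneg_of_nonpos_of_nonpos h6 (by linarith)
        · rw [h5] at h3 ⊢
          have h6 : 0 ≤ ν k := by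
            by_contra hcon
            have := mul_pos (neg_pos.mpr (not_le.mp hcon)) hs
            nlinarith
          exact mul_nonneg h6 (by linarith)
  have hD : ∑ k, l k * w' k - ∑ k, l k * w k =
      ∑ i, ∑ a ∈ A i, lam i a * (val η i a w' - m' i) + ∑ k, ν k * (w' k - w k) := by
    have e1 : ∑ k, l k * w' k - ∑ k, l k * w k = ∑ k, l k * (w' k - w k) := by
      simp only [mul_sub, Finset.sum_sub_distrib]
    have e2 : ∑ k, l k * (w' k - w k) =
        ∑ k, ∑ i, ∑ a ∈ A i, lam i a * (a k : ℝ) * (w' k - w k) + ∑ k, ν k * (w' k - w k) := by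
      rw [← Finset.sum_add_distrib]
      apply Finset.sum_congr rfl
      intro k _
      rw [← hl4 k, add_mul, Finset.sum_mul]
      congr 1
      apply Finset.sum_congr rfl
      intro i _
      rw [Finset.sum_mul]
    have e3 : ∑ k, ∑ i, ∑ a ∈ A i, lam i a * (a k : ℝ) * (w' k - w k) =
        ∑ i, ∑ a ∈ A i, lam i a * (val η i a w' - val η i a w) := by
      rw [Finset.sum_comm]
      apply Finset.sum_congr rfl
      intro i _
      rw [Finset.sum_comm]
      apply Finset.sum_congr rfl
      intro a _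
      rw [Extr_val_sub, Finset.mul_sum]
      apply Finset.sum_congr rfl
      intro k _
      ring
    have e4 : ∀ i, ∑ a ∈ A i, lam i a * (val η i a w' - val η i a w) =
        ∑ a ∈ A i, lam i a * (val η i a w' - m' i) := by
      intro i
      have f1 : ∑ a ∈ A i, lam i a * (val η i a w' - val η i a w) =
          ∑ a ∈ A i, (lam i a * (val η i a w' - m' i) + lam i a * (m' i - m i)) := by
        apply Finset.sum_congr rfl
        intro a _
        by_cases ha : a ∈ Bs A η w i
        · rw [hm2 i a ha]; ring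
        · rw [hl1 i a ha]; ring
      rw [f1, Finset.sum_add_distrib, ← Finset.sum_mul, hl2 i, zero_mul, add_zero]
    rw [e1, e2, e3]
    congr 1
    exact Finset.sum_congr rfl (fun i _ => e4 i)
  have hS1 : 0 ≤ ∑ i, ∑ a ∈ A i, lam i a * (val η i a w' - m' i) :=
    Finset.sum_nonneg (fun i _ => Finset.sum_nonneg (fun a ha => hterm1 i a ha))
  have hS2 : 0 ≤ ∑ k, ν k * (w' k - w k) := Finset.sum_nonneg (fun k _ => hterm2 k)
  refine ⟨by linarith, fun heq => ?_⟩
  have hz1 : ∑ i, ∑ a ∈ A i, lam i a * (val η i a w' - m' i) = 0 := by linarith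
  have hz2 : ∑ k, ν k * (w' k - w k) = 0 := by linarith
  have hz1' : ∀ i, ∀ a ∈ A i, lam i a * (val η i a w' - m' i) = 0 := by
    intro i a ha
    have h1 := (Finset.sum_eq_zero_iff_of_nonneg
      (fun i _ => Finset.sum_nonneg (fun a ha => hterm1 i a ha))).mp hz1 i (Finset.mem_univ i)
    exact (Finset.sum_eq_zero_iff_of_nonneg (fun a ha => hterm1 i a ha)).mp h1 a ha
  have hz2' : ∀ k, ν k * (w' k - w k) = 0 := fun k =>
    (Finset.sum_eq_zero_iff_of_nonneg (fun k _ => hterm2 k)).mp hz2 k (Finset.mem_univ k)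
  have hu := hsp (fun k => w' k - w k) ?_ ?_
  · funext k
    have := congrFun hu k
    simp only [Pi.zero_apply] at this
    linarith
  · intro i a ha b hb
    by_cases hab : a = b
    · subst hab
      simp
    · have hcard : 2 ≤ (Bs A η w i).card := by
        have : 1 < (Bs A η w i).card := Finset.one_lt_card.mpr ⟨a, ha, b, hb, hab⟩
        omega
      have ha' := (Extr_mem_Bs.mp ha).1
      have hb' := (Extr_mem_Bs.mp hb).1
      have e1 : val η i a w' = m' i := by
        rcases mul_eq_zero.mp (hz1' i a ha') with h1 | h1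
        · exact absurd h1 (hlam i a ha hcard)
        · linarith
      have e2 : val η i b w' = m' i := by
        rcases mul_eq_zero.mp (hz1' i b hb') with h1 | h1
        · exact absurd h1 (hlam i b hb hcard)
        · linarith
      have e3 := hm2 i a ha
      have e4 := hm2 i b hb
      have e5 : ∑ k, ((a k : ℝ) - b k) * (w' k - w k) =
          (val η i a w' - val η i a w) - (val η i b w' - val η i b w) := by
        rw [Extr_val_sub, Extr_val_sub, ← Finset.sum_sub_distrib]
        apply Finset.sum_congr rfl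
        intro k _
        ring
      rw [e5, e1, e2, e3, e4]
      ring
  · intro k hk
    rcases mul_eq_zero.mp (hz2' k) with h1 | h1
    · exact absurd h1 (hν k hk)
    · exact h1

end Pool.Agent.Lib.MP_4e7804_co
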