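import Mathlib
import Pool.Agent.Lib.MP_4e7804_co.Up.GeoD

/-! MP_4e7804_co, upper bound, module Mu (150 lines): dimension counts from general position.

PROOF of `sum_card_le`. Choose `a_i ∈ Bs A η w i` for every `i` (nonempty). The family of vectors
`a - a_i` (`a ∈ Bs i`, `a ≠ a_i`, all `i`) and `e_k` (`|w k| = s`) in `ℝ^d` is linearly independent by
`GP` (a relation with coefficients `c_{i,a}`, `ν_k` gives `lam i a = c_{i,a}` for `a ≠ a_i`,
`lam i a_i = - ∑ c_{i,a}`), so its number `∑_i (|Bs i| - 1) + #K` is at most `d`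
(`LinearIndependent.fintype_card_le_finrank`).
PROOF of `exists_mu`. Consider the real vector space of all pairs `(c, μ)`: `c` a function on the
pairs `(i, a)`, `a ∈ Bs i`, `a ≠ a_i`, and `μ` a function on the `i ∉ J`; its dimension is
`∑_i (|Bs i| - 1) + (n - |J|) ≥ |J| + n - |J| = n > d`, so the linear map
`(c, μ) ↦ ∑ c_{i,a} (a - a_i) - ∑ μ_i a_i` to `ℝ^d` has a nonzero element `(c, μ)` in its kernel
(`LinearMap.exists_ne_zero_of_finrank_lt`-like: `Module.exists_nontrivial_relation...`,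
`LinearMap.ker_ne_bot_of_finrank_lt`). If `μ = 0` then `c = 0` by `GP` (with `ν = 0`). So `μ ≠ 0`.
Let `lam` be as above, `∑ lam i a * a = ∑ μ_i a_i`. Let `Bs A η w ⊆ Bs A η w'`, and `z i` as in the
statement, i.e. `z i = val η i a_i w'` for `i ∉ J` (all elements of `Bs A η w' i` have the same value,
and `a_i` is one of them). Then `∑_i μ_i z_i = ∑ μ_i (a_i · w' + η i a_i)
= ∑ lam i a (a · w') + ∑ μ_i η i a_i`, and
`0 = ∑_i (min value)_i * ∑_a lam i a = ∑ lam i a * val η i a w' = ∑ lam i a (a·w') + ∑ lam i a η i a`.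
So `∑ μ_i z_i = C := ∑ μ_i η i a_i - ∑ lam i a η i a`. -/

set_option autoImplicit false

open Finset

namespace Pool.Agent.Lib.MP_4e7804_co

theorem Bs_nonempty {n d : ℕ} {A : Fin n → Finset (Fin d → ℤ)} {η : Fin n → (Fin d → ℤ) → ℝ}
    (hA : ∀ i, (A i).Nonempty) (w : Fin d → ℝ) (i : Fin n) : (Bs A η w i).Nonempty := by
  obtain ⟨a, ha, h⟩ := Finset.exists_min_image (A i) (fun a => val η i a w) (hA i)
  exact ⟨a, by simp only [Bs, Finset.mem_filter]; exact ⟨ha, h⟩⟩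

lemma Mu_val_eq {n d : ℕ} {A : Fin n → Finset (Fin d → ℤ)} {η : Fin n → (Fin d → ℤ) → ℝ}
    {w : Fin d → ℝ} {i : Fin n} {a b : Fin d → ℤ} (ha : a ∈ Bs A η w i) (hb : b ∈ Bs A η w i) :
    val η i a w = val η i b w := by
  simp only [Bs, Finset.mem_filter] at ha hb
  exact le_antisymm (ha.2 b hb.1) (hb.2 a ha.1)

open Classical in
/-- The coefficients with sum zero given by the coefficients off the base point. -/
noncomputable def MuLam {d : ℕ} (B : Finset (Fin d → ℤ)) (a₀ : Fin d → ℤ)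
    (c : {a // a ∈ B.erase a₀} → ℝ) (a : Fin d → ℤ) : ℝ :=
  if h : a ∈ B.erase a₀ then c ⟨a, h⟩ else if a = a₀ then - ∑ b, c b else 0

lemma MuLam_of_notMem {d : ℕ} {B : Finset (Fin d → ℤ)} {a₀ : Fin d → ℤ} (h0 : a₀ ∈ B)
    (c : {a // a ∈ B.erase a₀} → ℝ) {a : Fin d → ℤ} (ha : a ∉ B) : MuLam B a₀ c a = 0 := by
  have h1 : a ∉ B.erase a₀ := fun h => ha (Finset.mem_of_mem_erase h)
  have h2 : a ≠ a₀ := fun h => ha (h ▸ h0)
  rw [MuLam, dif_neg h1, if_neg h2]

lemma MuLam_of_mem {d : ℕ} {B : Finset (Fin d → ℤ)} {a₀ : Fin d → ℤ}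
    (c : {a // a ∈ B.erase a₀} → ℝ) (a : {a // a ∈ B.erase a₀}) : MuLam B a₀ c a = c a := by
  rw [MuLam, dif_pos a.2]

lemma MuLam_base {d : ℕ} {B : Finset (Fin d → ℤ)} {a₀ : Fin d → ℤ}
    (c : {a // a ∈ B.erase a₀} → ℝ) : MuLam B a₀ c a₀ = - ∑ b, c b := by
  rw [MuLam, dif_neg (Finset.notMem_erase a₀ B), if_pos rfl]

lemma MuLam_sum {d : ℕ} {A B : Finset (Fin d → ℤ)} (hB : B ⊆ A) {a₀ : Fin d → ℤ} (h0 : a₀ ∈ B)
    (c : {a // a ∈ B.erase a₀} → ℝ) (f : (Fin d → ℤ) → ℝ) :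
    ∑ a ∈ A, MuLam B a₀ c a * f a = ∑ b : {a // a ∈ B.erase a₀}, c b * (f b - f a₀) := by
  have e1 : ∑ a ∈ A, MuLam B a₀ c a * f a = ∑ a ∈ B, MuLam B a₀ c a * f a := by
    refine (Finset.sum_subset hB fun a _ ha => ?_).symm
    rw [MuLam_of_notMem h0 c ha, zero_mul]
  rw [e1, ← Finset.add_sum_erase B _ h0, MuLam_base,
    ← Finset.sum_coe_sort (B.erase a₀) (fun x => MuLam B a₀ c x * f x)]
  have e2 : ∑ b : {a // a ∈ B.erase a₀}, MuLam B a₀ c b * f b =
      ∑ b : {a // a ∈ B.erase a₀}, c b * f b :=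
    Finset.sum_congr rfl fun b _ => by rw [MuLam_of_mem]
  rw [e2, neg_mul, Finset.sum_mul, neg_add_eq_sub, ← Finset.sum_sub_distrib]
  exact Finset.sum_congr rfl fun b _ => by ring

/-- The sum of the values of one colour vanishes. -/
lemma Mu_sum_val {n d : ℕ} {A : Fin n → Finset (Fin d → ℤ)} {η : Fin n → (Fin d → ℤ) → ℝ}
    {w w' : Fin d → ℝ} {i : Fin n} (hsub : Bs A η w i ⊆ Bs A η w' i)
    (lam : (Fin d → ℤ) → ℝ) (h1 : ∀ a, a ∉ Bs A η w i → lam a = 0)
    (h2 : ∑ a ∈ A i, lam a = 0) : ∑ a ∈ A i, lam a * val η i a w' = 0 := by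
  by_cases hne : (Bs A η w i).Nonempty
  · obtain ⟨b, hb⟩ := hne
    have e2 : ∀ a ∈ A i, lam a * val η i a w' = lam a * val η i b w' := by
      intro a _
      by_cases hab : a ∈ Bs A η w i
      · rw [Mu_val_eq (hsub hab) (hsub hb)]
      · rw [h1 a hab, zero_mul, zero_mul]
    rw [Finset.sum_congr rfl e2, ← Finset.sum_mul, h2, zero_mul]
  · rw [Finset.not_nonempty_iff_eq_empty] at hne
    refine Finset.sum_eq_zero fun a _ => ?_
    rw [h1 a (by rw [hne]; exact Finset.notMem_empty a), zero_mul]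

/-- The index type of the differences. -/
abbrev MuIdx {n d : ℕ} (B : Fin n → Finset (Fin d → ℤ)) (a₀ : Fin n → Fin d → ℤ) : Type :=
  Σ i : Fin n, {a // a ∈ (B i).erase (a₀ i)}

lemma Mu_card_idx {n d : ℕ} (B : Fin n → Finset (Fin d → ℤ)) (a₀ : Fin n → Fin d → ℤ)
    (h0 : ∀ i, a₀ i ∈ B i) : Fintype.card (MuIdx B a₀) = ∑ i, ((B i).card - 1) := by
  rw [Fintype.card_sigma]
  refine Finset.sum_congr rfl fun i _ => ?_
  rw [Fintype.card_coe, Finset.card_erase_of_mem (h0 i)]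

/-- The linear combination of the differences. -/
noncomputable def MuD {n d : ℕ} (B : Fin n → Finset (Fin d → ℤ)) (a₀ : Fin n → Fin d → ℤ) :
    (MuIdx B a₀ → ℝ) →ₗ[ℝ] (Fin d → ℝ) where
  toFun c := fun k => ∑ x : MuIdx B a₀, c x * ((x.2.1 k : ℝ) - (a₀ x.1 k : ℝ))
  map_add' c c' := by
    funext k
    simp only [Pi.add_apply, add_mul, Finset.sum_add_distrib]
  map_smul' r c := by
    funext k
    simp only [Pi.smul_apply, smul_eq_mul, RingHom.id_apply, Finset.mul_sum, mul_assoc]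

lemma MuD_apply {n d : ℕ} (A B : Fin n → Finset (Fin d → ℤ)) (a₀ : Fin n → Fin d → ℤ)
    (hB : ∀ i, B i ⊆ A i) (h0 : ∀ i, a₀ i ∈ B i) (c : MuIdx B a₀ → ℝ) (k : Fin d) :
    MuD B a₀ c k = ∑ i, ∑ a ∈ A i, MuLam (B i) (a₀ i) (fun b => c ⟨i, b⟩) a * (a k : ℝ) := by
  change ∑ x : MuIdx B a₀, c x * ((x.2.1 k : ℝ) - (a₀ x.1 k : ℝ)) = _
  rw [Fintype.sum_sigma]
  refine Finset.sum_congr rfl fun i _ => ?_
  rw [MuLam_sum (hB i) (h0 i) (fun b => c ⟨i, b⟩) (fun a => (a k : ℝ))]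

/-- General position for the coefficients `c`. -/
lemma Mu_GP {n d : ℕ} {A : Fin n → Finset (Fin d → ℤ)} {η : Fin n → (Fin d → ℤ) → ℝ}
    {s : ℝ} (hGP : GP A η s) {w : Fin d → ℝ} (hw : InBox s w) (a₀ : Fin n → Fin d → ℤ)
    (h0 : ∀ i, a₀ i ∈ Bs A η w i) (c : MuIdx (Bs A η w) a₀ → ℝ) (ν : Fin d → ℝ)
    (hν : ∀ k, |w k| < s → ν k = 0) (h : ∀ k, MuD (Bs A η w) a₀ c k + ν k = 0) :
    c = 0 ∧ ν = 0 := by
  have hB : ∀ i, Bs A η w i ⊆ A i := fun i => Finset.filter_subset _ _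
  have h1 := hGP w hw (fun i a => MuLam (Bs A η w i) (a₀ i) (fun b => c ⟨i, b⟩) a) ν
    (fun i a ha => MuLam_of_notMem (h0 i) _ ha)
    (fun i => by
      have := MuLam_sum (hB i) (h0 i) (fun b => c ⟨i, b⟩) (fun _ => 1)
      simpa using this)
    hν (fun k => by rw [← MuD_apply A (Bs A η w) a₀ hB h0 c k]; exact h k)
  refine ⟨?_, funext h1.2⟩
  funext x
  obtain ⟨i, b⟩ := x
  have h2 := h1.1 i b.1
  rw [MuLam_of_mem (fun b => c ⟨i, b⟩) b] at h2
  exact h2

theorem sum_card_le {n d : ℕ} {A : Fin n → Finset (Fin d → ℤ)} {η : Fin n → (Fin d → ℤ) → ℝ}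
    {s : ℝ} (hA : ∀ i, (A i).Nonempty) (hGP : GP A η s) (w : Fin d → ℝ) (hw : InBox s w) :
    ∑ i, ((Bs A η w i).card - 1) + (univ.filter fun k => |w k| = s).card ≤ d := by
  classical
  have hch := fun i => Bs_nonempty (η := η) hA w i
  choose a₀ h0 using hch
  let ext : ({k // |w k| = s} → ℝ) →ₗ[ℝ] (Fin d → ℝ) :=
    { toFun := fun ν k => if h : |w k| = s then ν ⟨k, h⟩ else 0
      map_add' := by
        intro ν ν'
        funext k
        simp only [Pi.add_apply]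
        split_ifs <;> simp
      map_smul' := by
        intro r ν
        funext k
        simp only [Pi.smul_apply, RingHom.id_apply]
        split_ifs <;> simp }
  let L : ((MuIdx (Bs A η w) a₀ → ℝ) × ({k // |w k| = s} → ℝ)) →ₗ[ℝ] (Fin d → ℝ) :=
    (MuD (Bs A η w) a₀).coprod ext
  have hinj : Function.Injective L := by
    rw [← LinearMap.ker_eq_bot, LinearMap.ker_eq_bot']
    rintro ⟨c, ν⟩ h
    have h1 : ∀ k, MuD (Bs A η w) a₀ c k + ext ν k = 0 := by
      intro k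
      have := congrFun h k
      simpa [L] using this
    have h2 := Mu_GP hGP hw a₀ h0 c (ext ν) (by
      intro k hk
      change (if h : |w k| = s then ν ⟨k, h⟩ else 0) = 0
      rw [dif_neg hk.ne]) h1
    refine Prod.ext h2.1 ?_
    funext k
    have h3 := congrFun h2.2 k.1
    change (if h : |w k| = s then ν ⟨k, h⟩ else 0) = 0 at h3
    rw [dif_pos k.2] at h3
    exact h3
  have h4 := LinearMap.finrank_le_finrank_of_injective hinj
  rw [Module.finrank_prod, Module.finrank_fintype_fun_eq_card, Module.finrank_fintype_fun_eq_card,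
    Module.finrank_fintype_fun_eq_card, Mu_card_idx _ _ h0, Fintype.card_fin,
    Fintype.card_subtype] at h4
  exact h4

theorem exists_mu {n d : ℕ} (hn : d < n) {A : Fin n → Finset (Fin d → ℤ)}
    {η : Fin n → (Fin d → ℤ) → ℝ} {s : ℝ} (hA : ∀ i, (A i).Nonempty) (hGP : GP A η s)
    (w : Fin d → ℝ) (hw : InBox s w) (J : Finset (Fin n))
    (hJ : ∀ i ∈ J, 2 ≤ (Bs A η w i).card) :
    ∃ μ : Fin n → ℝ, μ ≠ 0 ∧ ∃ C : ℝ, ∀ w' : Fin d → ℝ, (∀ i, Bs A η w i ⊆ Bs A η w' i) →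
      ∀ z : Fin n → ℝ, (∀ i, i ∉ J → ∃ a ∈ Bs A η w' i, z i = val η i a w') →
        ∑ i, μ i * z i = C := by
  classical
  have hch := fun i => Bs_nonempty (η := η) hA w i
  choose a₀ h0 using hch
  have hB : ∀ i, Bs A η w i ⊆ A i := fun i => Finset.filter_subset _ _
  let E : ({i // i ∉ J} → ℝ) →ₗ[ℝ] (Fin d → ℝ) :=
    { toFun := fun μ k => ∑ i : {i // i ∉ J}, μ i * (a₀ i.1 k : ℝ)
      map_add' := by
        intro μ μ'
        funext k
        simp only [Pi.add_apply, add_mul, Finset.sum_add_distrib]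
      map_smul' := by
        intro r μ
        funext k
        simp only [Pi.smul_apply, smul_eq_mul, RingHom.id_apply, Finset.mul_sum, mul_assoc] }
  let L : ((MuIdx (Bs A η w) a₀ → ℝ) × ({i // i ∉ J} → ℝ)) →ₗ[ℝ] (Fin d → ℝ) :=
    (MuD (Bs A η w) a₀).coprod (-E)
  have hdim : Module.finrank ℝ (Fin d → ℝ) <
      Module.finrank ℝ ((MuIdx (Bs A η w) a₀ → ℝ) × ({i // i ∉ J} → ℝ)) := by
    rw [Module.finrank_prod, Module.finrank_fintype_fun_eq_card,
      Module.finrank_fintype_fun_eq_card, Module.finrank_fintype_fun_eq_card,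
      Mu_card_idx _ _ h0, Fintype.card_fin, Fintype.card_subtype]
    have h1 : J.card ≤ ∑ i, ((Bs A η w i).card - 1) := by
      calc J.card = ∑ i ∈ J, 1 := by simp
        _ ≤ ∑ i ∈ J, ((Bs A η w i).card - 1) := by
          refine Finset.sum_le_sum fun i hi => ?_
          have := hJ i hi
          omega
        _ ≤ ∑ i, ((Bs A η w i).card - 1) :=
          Finset.sum_le_sum_of_subset (Finset.subset_univ J)
    have h2 : (Finset.univ.filter fun i => i ∉ J).card = n - J.card := by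
      have h3 : (Finset.univ.filter fun i => i ∉ J) = Jᶜ := by
        ext i
        simp
      rw [h3, Finset.card_compl, Fintype.card_fin]
    have h4 : J.card ≤ n := by
      have := Finset.card_le_univ J
      rwa [Fintype.card_fin] at this
    rw [h2]
    omega
  have hker := LinearMap.ker_ne_bot_of_finrank_lt (f := L) hdim
  rw [Submodule.ne_bot_iff] at hker
  obtain ⟨⟨c, μ⟩, hmem, hne⟩ := hker
  rw [LinearMap.mem_ker] at hmem
  have hk : ∀ k, MuD (Bs A η w) a₀ c k = ∑ i : {i // i ∉ J}, μ i * (a₀ i.1 k : ℝ) := by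
    intro k
    have h1 := congrFun hmem k
    have h2 : MuD (Bs A η w) a₀ c k - E μ k = 0 := by
      simpa [L, sub_eq_add_neg] using h1
    exact sub_eq_zero.mp h2
  have hμ : μ ≠ 0 := by
    rintro rfl
    apply hne
    have h3 := Mu_GP hGP hw a₀ h0 c 0 (fun _ _ => rfl) (by
      intro k
      rw [hk k]
      simp)
    rw [h3.1]
    rfl
  let μ' : Fin n → ℝ := fun i => if h : i ∉ J then μ ⟨i, h⟩ else 0
  have hμ'J : ∀ i ∈ J, μ' i = 0 := by
    intro i hi
    simp only [μ']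
    rw [dif_neg (not_not.mpr hi)]
  have hμ'sub : ∀ i : {i // i ∉ J}, μ' i = μ i := by
    intro i
    simp only [μ']
    rw [dif_pos i.2]
  have hμ'sum : ∀ f : Fin n → ℝ, ∑ i, μ' i * f i = ∑ i : {i // i ∉ J}, μ i * f i.1 := by
    intro f
    have h1 : ∑ i, μ' i * f i = ∑ i ∈ Finset.univ.filter (fun i => i ∉ J), μ' i * f i := by
      rw [Finset.sum_filter]
      refine Finset.sum_congr rfl fun i _ => ?_
      by_cases hi : i ∉ J
      · rw [if_pos hi]
      · rw [if_neg hi, hμ'J i (not_not.mp hi), zero_mul]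
    rw [h1, ← Finset.sum_subtype_eq_sum_filter]
    refine Finset.sum_congr ?_ fun i _ => ?_
    · ext i
      simp
    · rw [hμ'sub]
  refine ⟨μ', ?_, ?_⟩
  · intro h
    apply hμ
    funext i
    rw [← hμ'sub, h]
    rfl
  · let lam : Fin n → (Fin d → ℤ) → ℝ := fun i a =>
      MuLam (Bs A η w i) (a₀ i) (fun b => c ⟨i, b⟩) a
    refine ⟨∑ i, μ' i * η i (a₀ i) - ∑ i, ∑ a ∈ A i, lam i a * η i a, ?_⟩
    intro w' hsub z hz
    have e1 : ∑ i, μ' i * z i = ∑ i, μ' i * val η i (a₀ i) w' := by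
      refine Finset.sum_congr rfl fun i _ => ?_
      by_cases hi : i ∈ J
      · rw [hμ'J i hi, zero_mul, zero_mul]
      · obtain ⟨a, ha, h⟩ := hz i hi
        rw [h, Mu_val_eq ha (hsub i (h0 i))]
    have e2 : ∀ k, ∑ i, μ' i * (a₀ i k : ℝ) = ∑ i, ∑ a ∈ A i, lam i a * (a k : ℝ) := by
      intro k
      rw [hμ'sum, ← hk k, MuD_apply A (Bs A η w) a₀ hB h0 c k]
    have e3 : ∑ i, ∑ a ∈ A i, lam i a * val η i a w' = 0 := by
      refine Finset.sum_eq_zero fun i _ => ?_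
      refine Mu_sum_val (hsub i) (lam i) (fun a ha => MuLam_of_notMem (h0 i) _ ha) ?_
      have := MuLam_sum (hB i) (h0 i) (fun b => c ⟨i, b⟩) (fun _ => 1)
      simpa using this
    have e4 : ∑ i, ∑ a ∈ A i, lam i a * val η i a w' =
        ∑ k, (∑ i, ∑ a ∈ A i, lam i a * (a k : ℝ)) * w' k + ∑ i, ∑ a ∈ A i, lam i a * η i a := by
      simp only [val, mul_add, Finset.sum_add_distrib]
      congr 1
      simp only [Finset.sum_mul, Finset.mul_sum]
      refine Eq.symm ?_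
      calc ∑ k, ∑ i, ∑ a ∈ A i, lam i a * (a k : ℝ) * w' k
          = ∑ i, ∑ k, ∑ a ∈ A i, lam i a * (a k : ℝ) * w' k := Finset.sum_comm
        _ = ∑ i, ∑ a ∈ A i, ∑ k, lam i a * ((a k : ℝ) * w' k) := by
          refine Finset.sum_congr rfl fun i _ => ?_
          rw [Finset.sum_comm]
          refine Finset.sum_congr rfl fun a _ => Finset.sum_congr rfl fun k _ => ?_
          ring
    have e5 : ∑ i, μ' i * val η i (a₀ i) w' =
        ∑ k, (∑ i, μ' i * (a₀ i k : ℝ)) * w' k + ∑ i, μ' i * η i (a₀ i) := by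
      simp only [val, mul_add, Finset.sum_add_distrib]
      congr 1
      simp only [Finset.sum_mul, Finset.mul_sum]
      rw [Finset.sum_comm]
      refine Finset.sum_congr rfl fun k _ => Finset.sum_congr rfl fun i _ => ?_
      ring
    have e6 : ∑ k, (∑ i, μ' i * (a₀ i k : ℝ)) * w' k =
        ∑ k, (∑ i, ∑ a ∈ A i, lam i a * (a k : ℝ)) * w' k :=
      Finset.sum_congr rfl fun k _ => by rw [e2 k]
    rw [e1, e5, e6]
    linarith

end Pool.Agent.Lib.MP_4e7804_co
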