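import Mathlib
import Pool.Agent.Lib.MP_4e7804_co.Up.Expand
import Pool.Agent.Lib.MP_4e7804_co.Up.Extr
import Pool.Agent.Lib.MP_4e7804_co.Up.Mu

/-! MP_4e7804_co, upper bound, module Seidel (180 lines): the number of vertices of the overlay on
the boundary of the box.

PROOF. Fix `l` from `exists_generic_l` and for every `w ∈ WSt` an expansion `(lam, ν)` of `l`
(`exists_expansion`). For a sign `ε ∈ {1, -1}` let
`N_ε(w) = {(i, a) | a ∈ A i, ε lam i a < 0}` and
`F_ε(w) = {(k, sign of w k) | |w k| = s, ε ν k * w k > 0}` (a subset of `Fin d × Bool`).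
(1) `(N_ε, F_ε)` is injective on `WSt` for each `ε`: if `w, w'` have the same `N_ε, F_ε` then
`extremal` for `w, w'` and for `w', w` (expansion `(ε lam, ε ν)` of `ε l`) gives
`∑ ε l k w k = ∑ ε l k w' k` and then `w' = w`.
(2) `|N_1(w)| + |N_{-1}(w)| ≤ ∑_{i : |Bs i| ≥ 2} |Bs A η w i| ≤ 2 ∑_i (|Bs A η w i| - 1)
≤ 2 (d - 1)` by `sum_card_le`, since at least one `k` has `|w k| = s` (if `|Bs i| = 1` then
`lam i = 0` because the sum is zero). So for one of the signs `|N_ε(w)| ≤ d - 1`.
(3) So `|WSt|` is at most twice the number of pairs `(N, F)`, `N` a subset of the disjoint union of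
the `A i` (`Finset.sigma univ A`, with `T` elements) with at most `d - 1` elements, `F` a subset of
`Fin d × Bool`: at most `2 * (T + 1)^(d - 1) * 4^d` (`card_small_subsets`: map
`Fin m → Option α` onto the subsets with at most `m` elements; or `∑_{j ≤ m} T.choose j ≤ (T+1)^m`
by induction on `m`). -/

set_option autoImplicit false

open Finset

namespace Pool.Agent.Lib.MP_4e7804_co

theorem card_small_subsets {α : Type*} [DecidableEq α] (T : Finset α) (m : ℕ) :
    (T.powerset.filter fun N => N.card ≤ m).card ≤ (T.card + 1) ^ m := by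
  induction m with
  | zero =>
    have : (T.powerset.filter fun N => N.card ≤ 0) ⊆ {∅} := by
      intro N hN
      simp only [Finset.mem_filter, Nat.le_zero, Finset.card_eq_zero] at hN
      simp [hN.2]
    simpa using Finset.card_le_card this
  | succ m ih =>
    have hsub : (T.powerset.filter fun N => N.card ≤ m + 1) ⊆
        ((T.powerset.filter fun N => N.card ≤ m) ×ˢ Finset.insertNone T).image
          (fun x => match x.2 with
            | none => x.1
            | some a => insert a x.1) := by
      intro N hN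
      simp only [Finset.mem_filter, Finset.mem_powerset] at hN
      rw [Finset.mem_image]
      by_cases hc : N.card ≤ m
      · refine ⟨(N, none), ?_, rfl⟩
        simp [hN.1, hc]
      · have hne : N.Nonempty := by
          rw [← Finset.card_pos]
          omega
        obtain ⟨a, ha⟩ := hne
        refine ⟨(N.erase a, some a), ?_, ?_⟩
        · simp only [Finset.mem_product, Finset.mem_filter, Finset.mem_powerset,
            Finset.some_mem_insertNone]
          refine ⟨⟨(Finset.erase_subset _ _).trans hN.1, ?_⟩, hN.1 ha⟩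
          rw [Finset.card_erase_of_mem ha]
          omega
        · exact Finset.insert_erase ha
    calc (T.powerset.filter fun N => N.card ≤ m + 1).card
        ≤ _ := Finset.card_le_card hsub
      _ ≤ ((T.powerset.filter fun N => N.card ≤ m) ×ˢ Finset.insertNone T).card :=
          Finset.card_image_le
      _ = (T.powerset.filter fun N => N.card ≤ m).card * (T.card + 1) := by
          rw [Finset.card_product, Finset.card_insertNone]
      _ ≤ (T.card + 1) ^ m * (T.card + 1) := Nat.mul_le_mul_right _ ih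
      _ = (T.card + 1) ^ (m + 1) := (pow_succ _ _).symm

/-- Scaling an expansion. -/
theorem Seidel_smul {n d : ℕ} {A : Fin n → Finset (Fin d → ℤ)}
    {η : Fin n → (Fin d → ℤ) → ℝ} {s : ℝ} {w l : Fin d → ℝ} {lam : Fin n → (Fin d → ℤ) → ℝ}
    {ν : Fin d → ℝ} (ε : ℝ) (h : Expands A η s w l lam ν) :
    Expands A η s w (fun k => ε * l k) (fun i a => ε * lam i a) (fun k => ε * ν k) := by
  obtain ⟨h1, h2, h3, h4⟩ := h
  refine ⟨?_, ?_, ?_, ?_⟩
  · intro i a ha
    simp [h1 i a ha]
  · intro i
    simp [← Finset.mul_sum, h2 i]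
  · intro k hk
    simp [h3 k hk]
  · intro k
    simp only [mul_assoc, ← Finset.mul_sum, ← mul_add]
    rw [h4 k]

theorem card_WSt {n d : ℕ} (hd : 1 ≤ d) {A : Fin n → Finset (Fin d → ℤ)}
    {η : Fin n → (Fin d → ℤ) → ℝ} {s : ℝ} (hs : 0 < s) (hA : ∀ i, (A i).Nonempty)
    (hGP : GP A η s) :
    (WSt A η s).ncard ≤ 2 * 4 ^ d * (∑ i, (A i).card + 1) ^ (d - 1) := by
  classical
  obtain ⟨l, hl⟩ := exists_generic_l hGP
  have hex : ∀ w : Fin d → ℝ, ∃ lam ν, w ∈ WSt A η s → Expands A η s w l lam ν := by
    intro w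
    by_cases hw : w ∈ WSt A η s
    · obtain ⟨lam, ν, h⟩ := exists_expansion (A := A) (η := η) hw.1.1 hw.2 l
      exact ⟨lam, ν, fun _ => h⟩
    · exact ⟨0, 0, fun h => absurd h hw⟩
  choose lam ν hE using hex
  set T : Finset (Σ _ : Fin n, (Fin d → ℤ)) := Finset.univ.sigma A with hT
  have hTc : T.card = ∑ i, (A i).card := by
    rw [hT, Finset.card_sigma]
  let N : ℝ → (Fin d → ℝ) → Finset (Σ _ : Fin n, (Fin d → ℤ)) :=
    fun ε w => T.filter fun x => ε * lam w x.1 x.2 < 0
  let F : ℝ → (Fin d → ℝ) → Finset (Fin d × Bool) :=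
    fun ε w => Finset.univ.filter fun x =>
      |w x.1| = s ∧ (x.2 = true ↔ 0 < w x.1) ∧ 0 < ε * ν w x.1 * w x.1
  -- injectivity
  have half : ∀ ε : ℝ, ε ≠ 0 → ∀ w ∈ WSt A η s, ∀ w' ∈ WSt A η s, N ε w = N ε w' →
      F ε w = F ε w' → ∑ k, ε * l k * w k ≤ ∑ k, ε * l k * w' k ∧
        (∑ k, ε * l k * w k = ∑ k, ε * l k * w' k → w' = w) := by
    intro ε hε w hw w' hw' hN hF
    have hw0 := hl w hw _ _ (hE w hw)
    refine extremal (l := fun k => ε * l k) hs hw hw'.1.1 (Seidel_smul ε (hE w hw)) ?_ ?_ ?_ ?_
    · intro i a ha h2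
      exact mul_ne_zero hε (hw0.1 i a ha h2)
    · intro k hk
      exact mul_ne_zero hε (hw0.2 k hk)
    · intro i a hneg
      have haB : a ∈ Bs A η w i := by
        by_contra hcon
        have := (hE w hw).1 i a hcon
        rw [this] at hneg
        simp at hneg
      have hm : (⟨i, a⟩ : Σ _ : Fin n, (Fin d → ℤ)) ∈ N ε w := by
        simp only [N, Finset.mem_filter, hT, Finset.mem_sigma, Finset.mem_univ, true_and]
        exact ⟨Expand_mem_A haB, hneg⟩
      rw [hN] at hm
      simp only [N, Finset.mem_filter] at hm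
      by_contra hcon
      have := (hE w' hw').1 i a hcon
      rw [this] at hm
      simp at hm
    · intro k hk hpos
      have hm : ((k, decide (0 < w k)) : Fin d × Bool) ∈ F ε w := by
        simp only [F, Finset.mem_filter, Finset.mem_univ, true_and]
        exact ⟨hk, by simp, hpos⟩
      rw [hF] at hm
      simp only [F, Finset.mem_filter, Finset.mem_univ, true_and, decide_eq_true_eq] at hm
      obtain ⟨h1, h2, -⟩ := hm
      by_cases hp : 0 < w k
      · have hp' := h2.mp hp
        rw [abs_of_pos hp] at hk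
        rw [abs_of_pos hp'] at h1
        rw [h1, hk]
      · have hp' : ¬ 0 < w' k := fun h => hp (h2.mpr h)
        push Not at hp hp'
        rw [abs_of_nonpos hp] at hk
        rw [abs_of_nonpos hp'] at h1
        linarith
  have hinj : ∀ ε : ℝ, ε ≠ 0 → ∀ w ∈ WSt A η s, ∀ w' ∈ WSt A η s, N ε w = N ε w' →
      F ε w = F ε w' → w = w' := by
    intro ε hε w hw w' hw' hN hF
    have h1 := half ε hε w hw w' hw' hN hF
    have h2 := half ε hε w' hw' w hw hN.symm hF.symm
    exact (h1.2 (le_antisymm h1.1 h2.1)).symm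
  -- one of the two sets is small
  have hsmall : ∀ w ∈ WSt A η s, (N 1 w).card ≤ d - 1 ∨ (N (-1) w).card ≤ d - 1 := by
    intro w hw
    have hdis : Disjoint (N 1 w) (N (-1) w) := by
      rw [Finset.disjoint_left]
      intro x h1 h2
      simp only [N, Finset.mem_filter] at h1 h2
      have a := h1.2
      have b := h2.2
      linarith
    have hsub : (N 1 w) ∪ (N (-1) w) ⊆
        (Finset.univ.sigma fun i => if 2 ≤ (Bs A η w i).card then Bs A η w i else ∅) := by
      intro x hx
      have hne : lam w x.1 x.2 ≠ 0 := by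
        rw [Finset.mem_union] at hx
        rcases hx with hx | hx <;> simp only [N, Finset.mem_filter] at hx
        · intro h
          rw [h] at hx
          simp at hx
        · intro h
          rw [h] at hx
          simp at hx
      have haB : x.2 ∈ Bs A η w x.1 := by
        by_contra hcon
        exact hne ((hE w hw).1 _ _ hcon)
      have h2 : 2 ≤ (Bs A η w x.1).card := by
        by_contra hcon
        have hc1 : (Bs A η w x.1).card = 1 := by
          have := Finset.card_pos.mpr ⟨_, haB⟩
          omega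
        obtain ⟨a, ha⟩ := Finset.card_eq_one.mp hc1
        have hxa : x.2 = a := by
          rw [ha] at haB
          simpa using haB
        have hsum := (hE w hw).2.1 x.1
        rw [Finset.sum_eq_single x.2] at hsum
        · exact hne hsum
        · intro b _ hb
          apply (hE w hw).1
          rw [ha, Finset.mem_singleton, ← hxa]
          exact hb
        · intro h
          exact absurd (Expand_mem_A haB) h
      rw [Finset.mem_sigma]
      exact ⟨Finset.mem_univ _, by rw [if_pos h2]; exact haB⟩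
    have hc := Finset.card_le_card hsub
    rw [Finset.card_union_of_disjoint hdis, Finset.card_sigma] at hc
    have h3 : ∑ i, (if 2 ≤ (Bs A η w i).card then Bs A η w i else ∅).card ≤
        ∑ i, 2 * ((Bs A η w i).card - 1) := by
      refine Finset.sum_le_sum fun i _ => ?_
      split_ifs with h
      · omega
      · simp
    rw [← Finset.mul_sum] at h3
    have h4 := sum_card_le hA hGP w hw.1.1
    have h5 : 1 ≤ (Finset.univ.filter fun k => |w k| = s).card := by
      obtain ⟨k, hk⟩ := hw.1.2
      exact Finset.card_pos.mpr ⟨k, by simp [hk]⟩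
    omega
  -- counting
  have hcount : ∀ ε : ℝ, ε ≠ 0 → {w | w ∈ WSt A η s ∧ (N ε w).card ≤ d - 1}.ncard ≤
      4 ^ d * (∑ i, (A i).card + 1) ^ (d - 1) := by
    intro ε hε
    have h1 := Set.ncard_le_ncard_of_injOn
      (s := {w | w ∈ WSt A η s ∧ (N ε w).card ≤ d - 1})
      (t := (((T.powerset.filter fun N => N.card ≤ d - 1) ×ˢ
        (Finset.univ : Finset (Finset (Fin d × Bool))) :
          Finset (Finset (Σ _ : Fin n, (Fin d → ℤ)) × Finset (Fin d × Bool))) : Set _))
      (fun w => (N ε w, F ε w)) ?_ ?_ (Finset.finite_toSet _)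
    · refine h1.trans ?_
      rw [Set.ncard_coe_finset, Finset.card_product, Finset.card_univ, Fintype.card_finset,
        Fintype.card_prod, Fintype.card_fin, Fintype.card_bool, mul_comm d 2, pow_mul, mul_comm]
      refine Nat.mul_le_mul (by norm_num) ?_
      rw [← hTc]
      exact card_small_subsets T (d - 1)
    · rintro w ⟨hw, hc⟩
      simp only [Finset.coe_product, Set.mem_prod, Finset.mem_coe, Finset.mem_filter,
        Finset.mem_powerset, Finset.mem_univ, and_true]
      exact ⟨Finset.filter_subset _ _, hc⟩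
    · rintro w ⟨hw, hc⟩ w' ⟨hw', hc'⟩ heq
      simp only [Prod.mk.injEq] at heq
      exact hinj ε hε w hw w' hw' heq.1 heq.2
  have hcov : WSt A η s ⊆ {w | w ∈ WSt A η s ∧ (N 1 w).card ≤ d - 1} ∪
      {w | w ∈ WSt A η s ∧ (N (-1) w).card ≤ d - 1} := by
    intro w hw
    rcases hsmall w hw with h | h
    · exact Or.inl ⟨hw, h⟩
    · exact Or.inr ⟨hw, h⟩
  have hfin : ({w | w ∈ WSt A η s ∧ (N 1 w).card ≤ d - 1} ∪
      {w | w ∈ WSt A η s ∧ (N (-1) w).card ≤ d - 1}).Finite :=
    ((WSt_finite A η s).subset fun w hw => hw.1).union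
      ((WSt_finite A η s).subset fun w hw => hw.1)
  calc (WSt A η s).ncard ≤ _ := Set.ncard_le_ncard hcov hfin
    _ ≤ _ := Set.ncard_union_le _ _
    _ ≤ 4 ^ d * (∑ i, (A i).card + 1) ^ (d - 1) + 4 ^ d * (∑ i, (A i).card + 1) ^ (d - 1) :=
        Nat.add_le_add (hcount 1 one_ne_zero) (hcount (-1) (by norm_num))
    _ = 2 * 4 ^ d * (∑ i, (A i).card + 1) ^ (d - 1) := by ring

end Pool.Agent.Lib.MP_4e7804_co
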