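import Mathlib
import Pool.Agent.Lib.MP_4e7804_co.Up.Seidel
import Pool.Agent.Lib.MP_4e7804_co.Up.Ray

/-! MP_4e7804_co, upper bound, module Types (100 lines): the number of types on the boundary of the
box.

PROOF of `card_types`. For `w` on the boundary `exists_spanning` gives `w'` with
`Bs A η w i ⊆ Bs A η w' i` for all `i` and `w' k = w k` if `|w k| = s`, so `w' ∈ WSt A η s`. So every
type is a family of subsets of the sets `Bs A η w' i`, `w' ∈ WSt` (finite, `WSt_finite`), and for
given `w'` there are `∏_i 2^|Bs A η w' i| = 2^(∑_i |Bs A η w' i|) ≤ 2^(n + d)` such families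
(`sum_card_le`). Multiply by `card_WSt`.
PROOF of `exists_s0`. There are finitely many functions of the form `Bs A η w` (values in the
powersets of the `A i`); for each of them choose one `w`, and let `s0` be larger than all the
coordinates of these points. -/

set_option autoImplicit false

open Finset

namespace Pool.Agent.Lib.MP_4e7804_co

/-- The types on the boundary of the box. -/
def types {n d : ℕ} (A : Fin n → Finset (Fin d → ℤ)) (η : Fin n → (Fin d → ℤ) → ℝ) (s : ℝ) :
    Set (Fin n → Finset (Fin d → ℤ)) := {B | ∃ w, OnBd s w ∧ Bs A η w = B}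

theorem card_types {n d : ℕ} (hd : 1 ≤ d) {A : Fin n → Finset (Fin d → ℤ)}
    {η : Fin n → (Fin d → ℤ) → ℝ} {s : ℝ} (hs : 0 < s) (hA : ∀ i, (A i).Nonempty)
    (hGP : GP A η s) :
    (types A η s).Finite ∧
      (types A η s).ncard ≤ 2 ^ (n + d) * (2 * 4 ^ d * (∑ i, (A i).card + 1) ^ (d - 1)) := by
  classical
  have hfin := WSt_finite A η s
  set WS := hfin.toFinset with hWS
  have hWSm : ∀ w, w ∈ WS ↔ w ∈ WSt A η s := fun w => by rw [hWS, Set.Finite.mem_toFinset]
  set U : Finset (Fin n → Finset (Fin d → ℤ)) :=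
    WS.biUnion (fun w' => Fintype.piFinset (fun i => (Bs A η w' i).powerset)) with hU
  have hsub : types A η s ⊆ (U : Set (Fin n → Finset (Fin d → ℤ))) := by
    rintro B ⟨w, hw, rfl⟩
    obtain ⟨w', h1, h2, h3, h4⟩ := exists_spanning A η s hs w hw.1
    rw [hU]
    simp only [Finset.coe_biUnion, Set.mem_iUnion, Finset.mem_coe]
    refine ⟨w', ?_, ?_⟩
    · rw [hWSm]
      refine ⟨⟨h1, ?_⟩, h4⟩
      obtain ⟨k, hk⟩ := hw.2
      exact ⟨k, by rw [h3 k hk]; exact hk⟩
    · rw [Fintype.mem_piFinset]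
      intro i
      rw [Finset.mem_powerset]
      exact h2 i
  have hUfin : (U : Set (Fin n → Finset (Fin d → ℤ))).Finite := U.finite_toSet
  refine ⟨hUfin.subset hsub, ?_⟩
  have h1 : (types A η s).ncard ≤ U.card := by
    have := Set.ncard_le_ncard hsub hUfin
    rwa [Set.ncard_coe_finset] at this
  have h2 : U.card ≤ WS.card * 2 ^ (n + d) := by
    rw [hU]
    apply Finset.card_biUnion_le_card_mul
    intro w' hw'
    have hw'' := (hWSm w').mp hw'
    rw [Fintype.card_piFinset]
    simp only [Finset.card_powerset]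
    rw [Finset.prod_pow_eq_pow_sum]
    apply Nat.pow_le_pow_right (by norm_num)
    have h3 := sum_card_le hA hGP w' hw''.1.1
    have h4 : ∑ i, (Bs A η w' i).card ≤ ∑ i, ((Bs A η w' i).card - 1) + n := by
      calc ∑ i, (Bs A η w' i).card ≤ ∑ i : Fin n, (((Bs A η w' i).card - 1) + 1) := by
            apply Finset.sum_le_sum
            intro i _
            omega
        _ = ∑ i, ((Bs A η w' i).card - 1) + n := by
            rw [Finset.sum_add_distrib]; simp
    omega
  have h3 : WS.card = (WSt A η s).ncard := (Set.ncard_eq_toFinset_card _ hfin).symm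
  have h4 := card_WSt hd hs hA hGP
  calc (types A η s).ncard ≤ WS.card * 2 ^ (n + d) := h1.trans h2
    _ = 2 ^ (n + d) * (WSt A η s).ncard := by rw [h3, mul_comm]
    _ ≤ _ := Nat.mul_le_mul_left _ h4

theorem exists_s0 {n d : ℕ} (A : Fin n → Finset (Fin d → ℤ)) (η : Fin n → (Fin d → ℤ) → ℝ) :
    ∃ s0 : ℝ, ∀ s, s0 ≤ s → ∀ w : Fin d → ℝ, ∃ w', InBox s w' ∧ Bs A η w' = Bs A η w := by
  classical
  have hex : ∀ B : Fin n → Finset (Fin d → ℤ), ∃ w' : Fin d → ℝ,
      (∃ w, Bs A η w = B) → Bs A η w' = B := by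
    intro B
    by_cases h : ∃ w, Bs A η w = B
    · obtain ⟨w, hw⟩ := h
      exact ⟨w, fun _ => hw⟩
    · exact ⟨0, fun h' => absurd h' h⟩
  choose f hf using hex
  set U : Finset (Fin n → Finset (Fin d → ℤ)) := Fintype.piFinset (fun i => (A i).powerset)
    with hU
  have hmem : ∀ w, Bs A η w ∈ U := by
    intro w
    rw [hU, Fintype.mem_piFinset]
    intro i
    rw [Finset.mem_powerset]
    exact Finset.filter_subset _ _
  refine ⟨∑ B ∈ U, ∑ k, |f B k|, fun s hs w => ⟨f (Bs A η w), ?_, hf _ ⟨w, rfl⟩⟩⟩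
  intro k
  refine le_trans ?_ hs
  calc |f (Bs A η w) k| ≤ ∑ k, |f (Bs A η w) k| :=
        Finset.single_le_sum (f := fun k => |f (Bs A η w) k|) (fun _ _ => abs_nonneg _)
          (Finset.mem_univ k)
    _ ≤ ∑ B ∈ U, ∑ k, |f B k| :=
        Finset.single_le_sum (f := fun B => ∑ k, |f B k|)
          (fun _ _ => Finset.sum_nonneg (fun _ _ => abs_nonneg _)) (hmem w)

end Pool.Agent.Lib.MP_4e7804_co
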