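import Mathlib
import Pool.Agent.Lib.MP_4e7804_co.Up.Types

/-! MP_4e7804_co, upper bound, module Hyp (180 lines): the finite set of hyperplanes.

PROOF. For every type `B ∈ types A η s` choose `w_B` on the boundary of the box with
`Bs A η w_B = B`, and for every `J : Finset (Fin n)` with `2 ≤ (B i).card` for `i ∈ J` choose `μ_{B,J}`,
`C_{B,J}` from `exists_mu`. Let `Hy` be the set of all unit vectors `Pi.single i 1` and of all
`μ_{B,J}`: at most `n + 2^n * |types|` elements. Let `C` be larger than all `|C_{B,J}|` and than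
`|val η i a w|` for all `i`, `a ∈ A i`, `w` in the box (`≤ ∑ |a k| s + |η i a|`).
Given `w, z` as in the last statement let `J` be the set of all `i` such that
`z i = val η i a w` for no `a ∈ Bs A η w i`, so `2 ≤ (Bs A η w i).card` for `i ∈ J`.
Case 1: `w` in the box. By `sum_card_le` `|J| ≤ ∑ (|Bs i| - 1) ≤ d < n`, so there is `i ∉ J`; then
`|z i| = |val η i a w| ≤ C` and `μ = Pi.single i 1` works.
Case 2: `w` is not in the box. By `hs0` there is `w'` in the box with `Bs A η w' = Bs A η w`. On the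
segment from `w'` to `w` there is a point `w''` with `max_k |w'' k| = s` (intermediate value theorem
for the continuous function `max_k |·|`, or `sSup`), so `w''` is on the boundary, and
`Bs A η w'' = Bs A η w`: for `a ∈ Bs A η w i`, `b ∈ A i` the affine function
`val η i b - val η i a` is `≥ 0` at `w'` and `w`, and it is zero at both or positive at both. Let
`B = Bs A η w'' ∈ types`; then `∑ μ_{B,J} i * z i = C_{B,J}` by the property of `exists_mu` (applied to
`w' := w`, `Bs A η w_B i = Bs A η w i`). -/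

set_option autoImplicit false

open Finset

namespace Pool.Agent.Lib.MP_4e7804_co

theorem Hyp_val_conv {n d : ℕ} (η : Fin n → (Fin d → ℤ) → ℝ) (i : Fin n) (a : Fin d → ℤ)
    (w w' : Fin d → ℝ) (t : ℝ) :
    val η i a (fun k => w' k + t * (w k - w' k)) = (1 - t) * val η i a w' + t * val η i a w := by
  unfold val
  have h : ∑ k, (a k : ℝ) * (w' k + t * (w k - w' k)) =
      (1 - t) * ∑ k, (a k : ℝ) * w' k + t * ∑ k, (a k : ℝ) * w k := by
    rw [Finset.mul_sum, Finset.mul_sum, ← Finset.sum_add_distrib]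
    apply Finset.sum_congr rfl
    intro k _
    ring
  rw [h]
  ring

theorem Hyp_mem_Bs {n d : ℕ} {A : Fin n → Finset (Fin d → ℤ)} {η : Fin n → (Fin d → ℤ) → ℝ}
    {w : Fin d → ℝ} {i : Fin n} {a : Fin d → ℤ} :
    a ∈ Bs A η w i ↔ a ∈ A i ∧ ∀ b ∈ A i, val η i a w ≤ val η i b w := by
  unfold Bs
  rw [Finset.mem_filter]

theorem Hyp_Bs_conv {n d : ℕ} {A : Fin n → Finset (Fin d → ℤ)} {η : Fin n → (Fin d → ℤ) → ℝ}
    (hA : ∀ i, (A i).Nonempty) {w w' : Fin d → ℝ} (h : Bs A η w' = Bs A η w) {t : ℝ}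
    (h0 : 0 ≤ t) (h1 : t ≤ 1) :
    Bs A η (fun k => w' k + t * (w k - w' k)) = Bs A η w := by
  funext i
  obtain ⟨g, hg⟩ := Bs_nonempty (η := η) hA w i
  have hg' : g ∈ Bs A η w' i := by rw [h]; exact hg
  ext a
  constructor
  · intro ha
    by_contra hna
    rw [Hyp_mem_Bs] at ha
    have hna' : a ∉ Bs A η w' i := by rw [h]; exact hna
    have key : ∀ x : Fin d → ℝ, a ∉ Bs A η x i → g ∈ Bs A η x i → val η i g x < val η i a x := by
      intro x hx hgx
      rw [Hyp_mem_Bs] at hx hgx
      by_contra hcon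
      apply hx
      refine ⟨ha.1, fun b hb => ?_⟩
      exact (not_lt.mp hcon).trans (hgx.2 b hb)
    have e1 := key w hna hg
    have e2 := key w' hna' hg'
    have e3 := ha.2 g (Hyp_mem_Bs.mp hg).1
    rw [Hyp_val_conv, Hyp_val_conv] at e3
    rcases eq_or_lt_of_le h0 with h2 | h2
    · rw [← h2] at e3
      linarith
    · have := mul_lt_mul_of_pos_left e1 h2
      have := mul_le_mul_of_nonneg_left e2.le (sub_nonneg.mpr h1)
      linarith
  · intro ha
    have ha' : a ∈ Bs A η w' i := by rw [h]; exact ha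
    rw [Hyp_mem_Bs] at ha ha' ⊢
    refine ⟨ha.1, fun b hb => ?_⟩
    rw [Hyp_val_conv, Hyp_val_conv]
    have e1 := mul_le_mul_of_nonneg_left (ha.2 b hb) h0
    have e2 := mul_le_mul_of_nonneg_left (ha'.2 b hb) (sub_nonneg.mpr h1)
    linarith

theorem Hyp_exists_bd {d : ℕ} {s : ℝ} (hs : 0 < s) {w w' : Fin d → ℝ}
    (hw' : InBox s w') (hw : ¬ InBox s w) :
    ∃ t : ℝ, 0 ≤ t ∧ t ≤ 1 ∧ OnBd s (fun k => w' k + t * (w k - w' k)) := by
  have hcont : ContinuousOn (fun t : ℝ => ‖fun k => w' k + t * (w k - w' k)‖) (Set.Icc 0 1) := by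
    apply Continuous.continuousOn
    fun_prop
  have h := intermediate_value_Icc (zero_le_one (α := ℝ)) hcont
  have hmem : s ∈ Set.Icc ‖fun k => w' k + 0 * (w k - w' k)‖
      ‖fun k => w' k + 1 * (w k - w' k)‖ := by
    constructor
    · rw [pi_norm_le_iff_of_nonneg hs.le]
      intro k
      simpa using hw' k
    · by_contra hcon
      apply hw
      intro k
      have h1 := (pi_norm_lt_iff hs).mp (not_le.mp hcon) k
      have h2 : w' k + 1 * (w k - w' k) = w k := by ring
      rw [h2] at h1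
      exact h1.le
  obtain ⟨t, ht, hts⟩ := h hmem
  refine ⟨t, ht.1, ht.2, ?_, ?_⟩
  · intro k
    have h1 := norm_le_pi_norm (fun k => w' k + t * (w k - w' k)) k
    rw [show ‖fun k => w' k + t * (w k - w' k)‖ = s from hts] at h1
    exact h1
  · by_contra hcon
    push Not at hcon
    have h1 : ‖fun k => w' k + t * (w k - w' k)‖ < s := by
      rw [pi_norm_lt_iff hs]
      intro k
      have h2 := norm_le_pi_norm (fun k => w' k + t * (w k - w' k)) k
      rw [show ‖fun k => w' k + t * (w k - w' k)‖ = s from hts] at h2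
      exact lt_of_le_of_ne h2 (hcon k)
    rw [show ‖fun k => w' k + t * (w k - w' k)‖ = s from hts] at h1
    exact lt_irrefl _ h1

theorem exists_hyps {n d : ℕ} (hn : d < n) (hd : 1 ≤ d) {A : Fin n → Finset (Fin d → ℤ)}
    {η : Fin n → (Fin d → ℤ) → ℝ} {s : ℝ} (hs : 0 < s) (hA : ∀ i, (A i).Nonempty)
    (hGP : GP A η s) (hs0 : ∀ w : Fin d → ℝ, ∃ w', InBox s w' ∧ Bs A η w' = Bs A η w) :
    ∃ (Hy : Finset (Fin n → ℝ)) (C : ℝ), Hy.card ≤ n + 2 ^ n * (types A η s).ncard ∧
      (∀ i, Pi.single i 1 ∈ Hy) ∧ (∀ μ ∈ Hy, μ ≠ 0) ∧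
      ∀ (w : Fin d → ℝ) (z : Fin n → ℝ),
        (∀ i, (∃ a ∈ Bs A η w i, z i = val η i a w) ∨ 2 ≤ (Bs A η w i).card) →
        ∃ μ ∈ Hy, |∑ i, μ i * z i| ≤ C := by
  classical
  have hfin := (card_types hd hs hA hGP).1
  set TY := hfin.toFinset with hTY
  have hmemTY : ∀ B, B ∈ TY ↔ B ∈ types A η s := fun B => by rw [hTY, Set.Finite.mem_toFinset]
  have hncard : (types A η s).ncard = TY.card := Set.ncard_eq_toFinset_card _ hfin
  have hex : ∀ (B : Fin n → Finset (Fin d → ℤ)) (J : Finset (Fin n)),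
      ∃ q : (Fin n → ℝ) × ℝ, B ∈ TY → (∀ i ∈ J, 2 ≤ (B i).card) →
        q.1 ≠ 0 ∧ ∀ w' : Fin d → ℝ, (∀ i, B i ⊆ Bs A η w' i) → ∀ z : Fin n → ℝ,
          (∀ i, i ∉ J → ∃ a ∈ Bs A η w' i, z i = val η i a w') → ∑ i, q.1 i * z i = q.2 := by
    intro B J
    by_cases hB : B ∈ TY ∧ (∀ i ∈ J, 2 ≤ (B i).card)
    · obtain ⟨wB, hwB, hwB2⟩ := (hmemTY B).mp hB.1
      obtain ⟨μ, hμ, C, hC⟩ := exists_mu hn hA hGP wB hwB.1 J (by
        intro i hi
        rw [hwB2]
        exact hB.2 i hi)
      refine ⟨(μ, C), fun _ _ => ⟨hμ, fun w' hw' z hz => ?_⟩⟩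
      apply hC w' _ z hz
      intro i
      rw [hwB2]
      exact hw' i
    · exact ⟨(0, 0), fun h1 h2 => absurd ⟨h1, h2⟩ hB⟩
  choose f hf using hex
  set Hy : Finset (Fin n → ℝ) := (univ.image (fun i : Fin n => (Pi.single i 1 : Fin n → ℝ))) ∪
    (((TY ×ˢ (univ : Finset (Finset (Fin n)))).image (fun p => (f p.1 p.2).1)).filter
      (fun μ => μ ≠ 0)) with hHy
  set C0 : ℝ := (∑ B ∈ TY, ∑ J : Finset (Fin n), |(f B J).2|) +
    ∑ i, ∑ a ∈ A i, (∑ k, |(a k : ℝ)| * s + |η i a|) with hC0
  have hnn1 : ∀ i, ∀ a ∈ A i, 0 ≤ (∑ k, |(a k : ℝ)| * s + |η i a|) := by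
    intro i a _
    have : 0 ≤ ∑ k, |(a k : ℝ)| * s := Finset.sum_nonneg (fun k _ => mul_nonneg (abs_nonneg _) hs.le)
    have := abs_nonneg (η i a)
    linarith
  have hnn2 : 0 ≤ ∑ B ∈ TY, ∑ J : Finset (Fin n), |(f B J).2| :=
    Finset.sum_nonneg (fun B _ => Finset.sum_nonneg (fun J _ => abs_nonneg _))
  have hnn3 : 0 ≤ ∑ i, ∑ a ∈ A i, (∑ k, |(a k : ℝ)| * s + |η i a|) :=
    Finset.sum_nonneg (fun i _ => Finset.sum_nonneg (fun a ha => hnn1 i a ha))
  refine ⟨Hy, C0, ?_, ?_, ?_, ?_⟩
  · rw [hncard]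
    calc Hy.card ≤ (univ.image (fun i : Fin n => (Pi.single i 1 : Fin n → ℝ))).card +
          (((TY ×ˢ (univ : Finset (Finset (Fin n)))).image (fun p => (f p.1 p.2).1)).filter
            (fun μ => μ ≠ 0)).card := Finset.card_union_le _ _
      _ ≤ n + 2 ^ n * TY.card := by
        apply Nat.add_le_add
        · calc _ ≤ (univ : Finset (Fin n)).card := Finset.card_image_le
            _ = n := by simp
        · calc _ ≤ ((TY ×ˢ (univ : Finset (Finset (Fin n)))).image
                (fun p => (f p.1 p.2).1)).card := Finset.card_filter_le _ _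
            _ ≤ (TY ×ˢ (univ : Finset (Finset (Fin n)))).card := Finset.card_image_le
            _ = 2 ^ n * TY.card := by
              rw [Finset.card_product, Finset.card_univ, Fintype.card_finset, Fintype.card_fin,
                mul_comm]
  · intro i
    rw [hHy, Finset.mem_union]
    left
    exact Finset.mem_image_of_mem _ (Finset.mem_univ i)
  · intro μ hμ
    rw [hHy, Finset.mem_union] at hμ
    rcases hμ with hμ | hμ
    · obtain ⟨i, _, rfl⟩ := Finset.mem_image.mp hμ
      intro h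
      have := congrFun h i
      simp at this
    · exact (Finset.mem_filter.mp hμ).2
  · intro w z hz
    set J : Finset (Fin n) := univ.filter (fun i => ¬ ∃ a ∈ Bs A η w i, z i = val η i a w) with hJ
    have hJ1 : ∀ i ∈ J, 2 ≤ (Bs A η w i).card := by
      intro i hi
      rw [hJ, Finset.mem_filter] at hi
      rcases hz i with h | h
      · exact absurd h hi.2
      · exact h
    have hJ2 : ∀ i, i ∉ J → ∃ a ∈ Bs A η w i, z i = val η i a w := by
      intro i hi
      rw [hJ, Finset.mem_filter] at hi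
      by_contra hcon
      exact hi ⟨Finset.mem_univ _, hcon⟩
    by_cases hbox : InBox s w
    · have hcard := sum_card_le hA hGP w hbox
      have hexi : ∃ i, i ∉ J := by
        by_contra hcon
        push Not at hcon
        have h1 : ∀ i ∈ (univ : Finset (Fin n)), 1 ≤ (Bs A η w i).card - 1 := by
          intro i _
          have := hJ1 i (hcon i)
          omega
        have h2 := Finset.sum_le_sum h1
        simp only [Finset.sum_const, Finset.card_univ, Fintype.card_fin, smul_eq_mul,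
          mul_one] at h2
        omega
      obtain ⟨i, hi⟩ := hexi
      obtain ⟨a, ha, hza⟩ := hJ2 i hi
      refine ⟨Pi.single i 1, ?_, ?_⟩
      · rw [hHy, Finset.mem_union]
        left
        exact Finset.mem_image_of_mem _ (Finset.mem_univ i)
      · have e1 : ∑ j, (Pi.single i (1 : ℝ) : Fin n → ℝ) j * z j = z i := by
          rw [Finset.sum_eq_single i]
          · simp
          · intro b _ hb
            simp [hb]
          · intro h; exact absurd (Finset.mem_univ _) h
        rw [e1, hza]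
        have haA := (Hyp_mem_Bs.mp ha).1
        have e2 : |val η i a w| ≤ ∑ k, |(a k : ℝ)| * s + |η i a| := by
          unfold val
          refine (abs_add_le _ _).trans (add_le_add ?_ le_rfl)
          refine (Finset.abs_sum_le_sum_abs _ _).trans ?_
          apply Finset.sum_le_sum
          intro k _
          rw [abs_mul]
          exact mul_le_mul_of_nonneg_left (hbox k) (abs_nonneg _)
        have e3 : (∑ k, |(a k : ℝ)| * s + |η i a|) ≤
            ∑ a ∈ A i, (∑ k, |(a k : ℝ)| * s + |η i a|) :=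
          Finset.single_le_sum (f := fun a : Fin d → ℤ => (∑ k, |(a k : ℝ)| * s + |η i a|))
            (fun b hb => hnn1 i b hb) haA
        have e4 : (∑ a ∈ A i, (∑ k, |(a k : ℝ)| * s + |η i a|)) ≤
            ∑ i, ∑ a ∈ A i, (∑ k, |(a k : ℝ)| * s + |η i a|) :=
          Finset.single_le_sum
            (f := fun i : Fin n => ∑ a ∈ A i, (∑ k, |(a k : ℝ)| * s + |η i a|))
            (fun j _ => Finset.sum_nonneg (fun b hb => hnn1 j b hb)) (Finset.mem_univ i)
        rw [hC0]
        linarith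
    · obtain ⟨w', hw', hBw'⟩ := hs0 w
      obtain ⟨t, ht0, ht1, hbd⟩ := Hyp_exists_bd hs hw' hbox
      have hBt := Hyp_Bs_conv hA hBw' ht0 ht1
      have hBTY : Bs A η w ∈ TY := by
        rw [hmemTY]
        exact ⟨_, hbd, hBt⟩
      obtain ⟨h1, h2⟩ := hf (Bs A η w) J hBTY hJ1
      refine ⟨(f (Bs A η w) J).1, ?_, ?_⟩
      · rw [hHy, Finset.mem_union]
        right
        rw [Finset.mem_filter]
        refine ⟨?_, h1⟩
        exact Finset.mem_image.mpr ⟨(Bs A η w, J),
          Finset.mem_product.mpr ⟨hBTY, Finset.mem_univ _⟩, rfl⟩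
      · rw [h2 w (fun i => Finset.Subset.refl _) z hJ2]
        have e1 : |(f (Bs A η w) J).2| ≤ ∑ J : Finset (Fin n), |(f (Bs A η w) J).2| :=
          Finset.single_le_sum (f := fun J : Finset (Fin n) => |(f (Bs A η w) J).2|)
            (fun j _ => abs_nonneg _) (Finset.mem_univ J)
        have e2 : (∑ J : Finset (Fin n), |(f (Bs A η w) J).2|) ≤
            ∑ B ∈ TY, ∑ J : Finset (Fin n), |(f B J).2| :=
          Finset.single_le_sum (f := fun B => ∑ J : Finset (Fin n), |(f B J).2|)
            (fun j _ => Finset.sum_nonneg (fun _ _ => abs_nonneg _)) hBTY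
        rw [hC0]
        linarith

end Pool.Agent.Lib.MP_4e7804_co
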