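import Mathlib

/-! MP_4e7804_co, upper bound, module Sauer (150 lines): points separated by linear hyperplanes.

PROOF. Let `Y₊ = {y ∈ Y | 0 < y 0}`, `Y₋ = {y ∈ Y | y 0 < 0}`; `Y = Y₊ ∪ Y₋` by `hnz` for
`Pi.single 0 1`. Replacing `Y` by `-Y` it is enough to show `|Y₊| ≤ (|Hy| + 1)^n`. For `y ∈ Y₊` let
`S y = {μ : Hy | 0 < μ ⬝ᵥ y}`, a subset of the type `Hy`; `S` is injective on `Y₊` (`hsep`). Let `𝒜` be
the image, a set family on `Hy`. CLAIM: every set `K` shattered by `𝒜` has at most `n` elements.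
Then `|𝒜| ≤ |shatterer| ≤ ∑_{k ≤ n} (|Hy|).choose k ≤ (|Hy| + 1)^n`
(`Finset.card_le_card_shatterer`, `Finset.card_shatterer_le_sum_vcDim`, `Finset.vcDim`).
Proof of the claim: the family `K ∪ {e_0}` is linearly independent in `ℝ^(n+1)`, so `|K| + 1 ≤ n + 1`.
Let `∑_{μ ∈ K} c_μ μ + c_0 e_0 = 0`. If some `c_μ ≠ 0`: shattering gives `y ∈ Y₊` with
`μ ⬝ᵥ y > 0` exactly for the `μ ∈ K` with `c_μ > 0`, so `∑ c_μ (μ ⬝ᵥ y) > 0` (products are not zero by
`hnz`) and hence `c_0 * y 0 < 0`, `c_0 < 0`; and it gives `y' ∈ Y₊` with `μ ⬝ᵥ y' > 0` exactly for the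
`μ ∈ K` with `c_μ < 0`, so `c_0 > 0`: contradiction. So all `c_μ = 0` and then `c_0 = 0`.
(`e_0 ∈ K` is impossible too, it is covered by the same argument; count `K` as a subset of `Hy`
which does not contain `e_0`.) -/

set_option autoImplicit false

open Finset

namespace Pool.Agent.Lib.MP_4e7804_co

theorem Sauer_sum_choose_le (N n : ℕ) : ∑ k ∈ Finset.Iic n, N.choose k ≤ (N + 1) ^ n := by
  have h1 : (N + 1) ^ n = ∑ k ∈ Finset.range (n + 1), N ^ k * n.choose k := by
    rw [add_pow]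
    apply Finset.sum_congr rfl
    intro k _
    simp
  rw [h1, ← Nat.range_succ_eq_Iic]
  apply Finset.sum_le_sum
  intro k hk
  have hk' : k ≤ n := Nat.lt_succ_iff.mp (Finset.mem_range.mp hk)
  calc N.choose k ≤ N ^ k := Nat.choose_le_pow N k
    _ = N ^ k * 1 := (mul_one _).symm
    _ ≤ N ^ k * n.choose k := Nat.mul_le_mul_left _ (Nat.choose_pos hk')

open Classical in
theorem Sauer_pos {n : ℕ} (Hy : Finset (Fin (n + 1) → ℝ))
    (Y : Finset (Fin (n + 1) → ℝ)) (hpos : ∀ y ∈ Y, 0 < y 0)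
    (hnz : ∀ μ ∈ Hy, ∀ y ∈ Y, ∑ i, μ i * y i ≠ 0)
    (hsep : ∀ y ∈ Y, ∀ y' ∈ Y, y ≠ y' →
      ∃ μ ∈ Hy, (∑ i, μ i * y i) * (∑ i, μ i * y' i) < 0) :
    Y.card ≤ (Hy.card + 1) ^ n := by
  set S : (Fin (n + 1) → ℝ) → Finset {μ // μ ∈ Hy} :=
    fun y => univ.filter (fun μ => 0 < ∑ i, μ.1 i * y i) with hS
  have hSmem : ∀ y (μ : {μ // μ ∈ Hy}), μ ∈ S y ↔ 0 < ∑ i, μ.1 i * y i := by
    intro y μ
    simp [hS]
  have hinj : Set.InjOn S (Y : Set (Fin (n + 1) → ℝ)) := by
    intro y hy y' hy' h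
    by_contra hne
    obtain ⟨μ, hμ, hlt⟩ := hsep y hy y' hy' hne
    have h1 := hSmem y ⟨μ, hμ⟩
    have h2 := hSmem y' ⟨μ, hμ⟩
    rw [h] at h1
    have h3 : (0 < ∑ i, μ i * y i) ↔ (0 < ∑ i, μ i * y' i) := h1.symm.trans h2
    rcases lt_trichotomy (∑ i, μ i * y i) 0 with h4 | h4 | h4
    · have h5 : ¬ (0 < ∑ i, μ i * y' i) := fun h6 => not_lt.mpr h4.le (h3.mpr h6)
      have h6 : 0 ≤ (∑ i, μ i * y i) * (∑ i, μ i * y' i) :=
        mul_nonneg_of_nonpos_of_nonpos h4.le (not_lt.mp h5)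
      linarith
    · rw [h4] at hlt; simp at hlt
    · have h5 := h3.mp h4
      have := mul_pos h4 h5
      linarith
  have hcard : Y.card = (Y.image S).card := (Finset.card_image_of_injOn hinj).symm
  -- shattered sets are small
  have hclaim : ∀ K : Finset {μ // μ ∈ Hy}, (Y.image S).Shatters K → K.card ≤ n := by
    intro K hK
    have key : ∀ t ⊆ K, ∃ y ∈ Y, ∀ μ ∈ K, (μ ∈ t ↔ 0 < ∑ i, μ.1 i * y i) := by
      intro t ht
      obtain ⟨u, hu, hut⟩ := hK ht
      obtain ⟨y, hy, rfl⟩ := Finset.mem_image.mp hu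
      refine ⟨y, hy, fun μ hμ => ?_⟩
      rw [← hSmem, ← hut, Finset.mem_inter]
      exact ⟨fun h => h.2, fun h => ⟨hμ, h⟩⟩
    let v : Option K → (Fin (n + 1) → ℝ) := fun o => o.elim (Pi.single 0 1) (fun μ => μ.1.1)
    have hli : LinearIndependent ℝ v := by
      rw [Fintype.linearIndependent_iff]
      intro g hg
      have hrel : ∀ y : Fin (n + 1) → ℝ,
          g none * y 0 + ∑ μ : K, g (some μ) * ∑ i, μ.1.1 i * y i = 0 := by
        intro y
        have h1 : ∑ i, (∑ o, g o • v o) i * y i = 0 := by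
          rw [hg]; simp
        rw [Fintype.sum_option] at h1
        simp only [v, Option.elim, Pi.add_apply, Pi.smul_apply, smul_eq_mul,
          Finset.sum_apply, add_mul, Finset.sum_add_distrib] at h1
        have h2 : ∑ i, g none * (Pi.single (0 : Fin (n + 1)) (1 : ℝ) : Fin (n + 1) → ℝ) i * y i =
            g none * y 0 := by
          rw [Finset.sum_eq_single 0]
          · simp
          · intro b _ hb
            simp [hb]
          · intro h; exact absurd (Finset.mem_univ _) h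
        rw [h2] at h1
        rw [← h1]
        congr 1
        simp only [Finset.sum_mul, Finset.mul_sum]
        rw [Finset.sum_comm]
        apply Finset.sum_congr rfl; intro i _
        apply Finset.sum_congr rfl; intro μ _
        ring
      have hzero : ∀ μ : K, g (some μ) = 0 := by
        by_contra hex
        push Not at hex
        obtain ⟨μ0, hμ0⟩ := hex
        obtain ⟨y, hy, hy2⟩ := key (univ.filter (fun μ : K => 0 < g (some μ)) |>.map
          (Function.Embedding.subtype _)) (by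
            intro x hx
            rw [Finset.mem_map] at hx
            obtain ⟨a, _, rfl⟩ := hx
            exact a.2)
        obtain ⟨y', hy', hy2'⟩ := key (univ.filter (fun μ : K => g (some μ) < 0) |>.map
          (Function.Embedding.subtype _)) (by
            intro x hx
            rw [Finset.mem_map] at hx
            obtain ⟨a, _, rfl⟩ := hx
            exact a.2)
        have hs1 : ∀ μ : K, (0 < g (some μ) ↔ 0 < ∑ i, μ.1.1 i * y i) := by
          intro μ
          rw [← hy2 μ.1 μ.2]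
          simp
        have hs2 : ∀ μ : K, (g (some μ) < 0 ↔ 0 < ∑ i, μ.1.1 i * y' i) := by
          intro μ
          rw [← hy2' μ.1 μ.2]
          simp
        have hp1 : ∀ μ : K, 0 ≤ g (some μ) * ∑ i, μ.1.1 i * y i := by
          intro μ
          rcases le_or_gt (g (some μ)) 0 with h | h
          · have h5 : ¬ (0 < ∑ i, μ.1.1 i * y i) := fun h6 => not_lt.mpr h ((hs1 μ).mpr h6)
            exact mul_nonneg_of_nonpos_of_nonpos h (not_lt.mp h5)
          · exact (mul_pos h ((hs1 μ).mp h)).le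
        have hp2 : ∀ μ : K, g (some μ) * ∑ i, μ.1.1 i * y' i ≤ 0 := by
          intro μ
          rcases lt_or_ge (g (some μ)) 0 with h | h
          · exact (mul_neg_of_neg_of_pos h ((hs2 μ).mp h)).le
          · have h5 : ¬ (0 < ∑ i, μ.1.1 i * y' i) := fun h6 => not_lt.mpr h ((hs2 μ).mpr h6)
            exact mul_nonpos_of_nonneg_of_nonpos h (not_lt.mp h5)
        have hne1 : g (some μ0) * ∑ i, μ0.1.1 i * y i ≠ 0 :=
          mul_ne_zero hμ0 (hnz μ0.1.1 μ0.1.2 y hy)
        have hne2 : g (some μ0) * ∑ i, μ0.1.1 i * y' i ≠ 0 :=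
          mul_ne_zero hμ0 (hnz μ0.1.1 μ0.1.2 y' hy')
        have hsum1 : 0 < ∑ μ : K, g (some μ) * ∑ i, μ.1.1 i * y i :=
          Finset.sum_pos' (fun μ _ => hp1 μ) ⟨μ0, Finset.mem_univ _,
            lt_of_le_of_ne (hp1 μ0) (Ne.symm hne1)⟩
        have hsum2 : ∑ μ : K, g (some μ) * ∑ i, μ.1.1 i * y' i < 0 := by
          have : 0 < ∑ μ : K, -(g (some μ) * ∑ i, μ.1.1 i * y' i) :=
            Finset.sum_pos' (fun μ _ => neg_nonneg.mpr (hp2 μ)) ⟨μ0, Finset.mem_univ _,
              neg_pos.mpr (lt_of_le_of_ne (hp2 μ0) hne2)⟩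
          rw [Finset.sum_neg_distrib] at this
          linarith
        have e1 := hrel y
        have e2 := hrel y'
        have f1 : g none * y 0 < 0 := by linarith
        have f2 : 0 < g none * y' 0 := by linarith
        have g1 : g none < 0 := by
          by_contra hcon
          have := mul_nonneg (not_lt.mp hcon) (hpos y hy).le
          linarith
        have := mul_neg_of_neg_of_pos g1 (hpos y' hy')
        linarith
      intro o
      cases o with
      | some μ => exact hzero μ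
      | none =>
        have h1 : ∑ o, g o • v o = 0 := hg
        rw [Fintype.sum_option] at h1
        have h2 : ∑ μ : K, g (some μ) • v (some μ) = 0 := by
          apply Finset.sum_eq_zero
          intro μ _
          rw [hzero μ, zero_smul]
        rw [h2, add_zero] at h1
        have h3 := congrFun h1 0
        simpa [v] using h3
    have h1 := hli.fintype_card_le_finrank
    rw [Fintype.card_option, Fintype.card_coe, Module.finrank_fin_fun] at h1
    omega
  have hvc : (Y.image S).vcDim ≤ n := by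
    apply Finset.sup_le
    intro K hK
    exact hclaim K (Finset.mem_shatterer.mp hK)
  calc Y.card = (Y.image S).card := hcard
    _ ≤ (Y.image S).shatterer.card := Finset.card_le_card_shatterer _
    _ ≤ ∑ k ∈ Finset.Iic (Y.image S).vcDim, (Fintype.card {μ // μ ∈ Hy}).choose k :=
        Finset.card_shatterer_le_sum_vcDim
    _ ≤ ∑ k ∈ Finset.Iic n, (Fintype.card {μ // μ ∈ Hy}).choose k :=
        Finset.sum_le_sum_of_subset (Finset.Iic_subset_Iic.mpr hvc)
    _ = ∑ k ∈ Finset.Iic n, (Hy.card).choose k := by rw [Fintype.card_coe]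
    _ ≤ (Hy.card + 1) ^ n := Sauer_sum_choose_le _ _

theorem sign_count {n : ℕ} (Hy : Finset (Fin (n + 1) → ℝ)) (h0 : Pi.single 0 1 ∈ Hy)
    (Y : Finset (Fin (n + 1) → ℝ)) (hnz : ∀ μ ∈ Hy, ∀ y ∈ Y, ∑ i, μ i * y i ≠ 0)
    (hsep : ∀ y ∈ Y, ∀ y' ∈ Y, y ≠ y' →
      ∃ μ ∈ Hy, (∑ i, μ i * y i) * (∑ i, μ i * y' i) < 0) :
    Y.card ≤ 2 * (Hy.card + 1) ^ n := by
  classical
  have hy0 : ∀ y ∈ Y, y 0 ≠ 0 := by
    intro y hy h
    apply hnz _ h0 y hy
    rw [Finset.sum_eq_single 0]
    · simp [h]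
    · intro b _ hb; simp [hb]
    · intro h; exact absurd (Finset.mem_univ _) h
  have h1 : (Y.filter (fun y => 0 < y 0)).card ≤ (Hy.card + 1) ^ n := by
    apply Sauer_pos Hy
    · intro y hy; exact (Finset.mem_filter.mp hy).2
    · intro μ hμ y hy; exact hnz μ hμ y (Finset.mem_filter.mp hy).1
    · intro y hy y' hy' hne
      exact hsep y (Finset.mem_filter.mp hy).1 y' (Finset.mem_filter.mp hy').1 hne
  have h2 : ((Y.filter (fun y => ¬ 0 < y 0)).image (fun y => -y)).card ≤ (Hy.card + 1) ^ n := by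
    have hneg : ∀ (μ y : Fin (n + 1) → ℝ), ∑ i, μ i * (-y) i = -∑ i, μ i * y i := by
      intro μ y
      rw [← Finset.sum_neg_distrib]
      apply Finset.sum_congr rfl
      intro i _
      simp
    apply Sauer_pos Hy
    · intro y hy
      obtain ⟨y1, hy1, rfl⟩ := Finset.mem_image.mp hy
      obtain ⟨hy1, h3⟩ := Finset.mem_filter.mp hy1
      have := hy0 y1 hy1
      have h4 : y1 0 < 0 := lt_of_le_of_ne (not_lt.mp h3) this
      simpa using h4
    · intro μ hμ y hy
      obtain ⟨y1, hy1, rfl⟩ := Finset.mem_image.mp hy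
      rw [hneg]
      exact neg_ne_zero.mpr (hnz μ hμ y1 (Finset.mem_filter.mp hy1).1)
    · intro y hy y' hy' hne
      obtain ⟨y1, hy1, rfl⟩ := Finset.mem_image.mp hy
      obtain ⟨y2, hy2, rfl⟩ := Finset.mem_image.mp hy'
      have hne' : y1 ≠ y2 := fun h => hne (by rw [h])
      obtain ⟨μ, hμ, hlt⟩ := hsep y1 (Finset.mem_filter.mp hy1).1 y2
        (Finset.mem_filter.mp hy2).1 hne'
      refine ⟨μ, hμ, ?_⟩
      rw [hneg, hneg]
      linarith [neg_mul_neg (∑ i, μ i * y1 i) (∑ i, μ i * y2 i)]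
  rw [Finset.card_image_of_injective _ neg_injective] at h2
  have h3 := Finset.card_filter_add_card_filter_not (s := Y) (p := fun y => 0 < y 0)
  omega

end Pool.Agent.Lib.MP_4e7804_co
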