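import Mathlib

/-! MP_4e7804_co, upper bound, module Segment (80 lines): a tie on the segment.

PROOF. Let `g β θ = ϕ β + ∑ β_i ((1 - θ) y_i + θ y'_i)`, affine in `θ`:
`g β θ = (1 - θ) g β 0 + θ g β 1`. `α` is the only minimizer at `θ = 0`, `α'` at `θ = 1`. Let `N` be the
set of all `β ∈ S` with `g β 1 < g α 1` (not empty: it contains `α'`). For `β ∈ N` let
`θ_β = (g β 0 - g α 0)/((g β 0 - g α 0) + (g α 1 - g β 1)) ∈ (0, 1)`, the rational solution of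
`g β θ = g α θ`. Let `θ = θ_β` be the smallest of them (`Finset.exists_min_image`). Then
`g β θ = g α θ`, and for all `γ ∈ S`: `g α θ ≤ g γ θ` (for `γ ∈ N` because `θ ≤ θ_γ` and
`g γ - g α` is decreasing... positive before `θ_γ`; for `γ ∉ N` because `g γ - g α ≥ 0` at `0` and
at `1`). -/

set_option autoImplicit false

open Finset

namespace Pool.Agent.Lib.MP_4e7804_co

theorem tie_on_segment {m : ℕ} (S : Finset (Fin m →₀ ℕ)) (ϕ : (Fin m →₀ ℕ) → ℚ)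
    (y y' : Fin m → ℚ) (α α' : Fin m →₀ ℕ) (hα : α ∈ S) (hα' : α' ∈ S) (hne : α ≠ α')
    (h : ∀ β ∈ S, β ≠ α → ϕ α + ∑ i, (α i : ℚ) * y i < ϕ β + ∑ i, (β i : ℚ) * y i)
    (h' : ∀ β ∈ S, β ≠ α' → ϕ α' + ∑ i, (α' i : ℚ) * y' i < ϕ β + ∑ i, (β i : ℚ) * y' i) :
    ∃ θ : ℚ, 0 < θ ∧ θ < 1 ∧ ∃ β ∈ S, ∃ γ ∈ S, β ≠ γ ∧
      ϕ β + ∑ i, (β i : ℚ) * ((1 - θ) * y i + θ * y' i) =
        ϕ γ + ∑ i, (γ i : ℚ) * ((1 - θ) * y i + θ * y' i) ∧
      ∀ δ ∈ S, ϕ β + ∑ i, (β i : ℚ) * ((1 - θ) * y i + θ * y' i) ≤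
        ϕ δ + ∑ i, (δ i : ℚ) * ((1 - θ) * y i + θ * y' i) := by
  classical
  obtain ⟨D, hD⟩ : ∃ D : (Fin m →₀ ℕ) → ℚ, ∀ β, D β =
      (ϕ β + ∑ i, (β i : ℚ) * y i) - (ϕ α + ∑ i, (α i : ℚ) * y i) := ⟨_, fun _ => rfl⟩
  obtain ⟨E, hE⟩ : ∃ E : (Fin m →₀ ℕ) → ℚ, ∀ β, E β =
      (ϕ β + ∑ i, (β i : ℚ) * y' i) - (ϕ α + ∑ i, (α i : ℚ) * y' i) := ⟨_, fun _ => rfl⟩
  have hg : ∀ (θ : ℚ) (β : Fin m →₀ ℕ),
      ϕ β + ∑ i, (β i : ℚ) * ((1 - θ) * y i + θ * y' i) =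
        (1 - θ) * (ϕ β + ∑ i, (β i : ℚ) * y i) + θ * (ϕ β + ∑ i, (β i : ℚ) * y' i) := by
    intro θ β
    have h1 : ∑ i, (β i : ℚ) * ((1 - θ) * y i + θ * y' i) =
        (1 - θ) * ∑ i, (β i : ℚ) * y i + θ * ∑ i, (β i : ℚ) * y' i := by
      rw [mul_sum, mul_sum, ← sum_add_distrib]
      exact sum_congr rfl (fun i _ => by ring)
    rw [h1]
    ring
  have hD0 : ∀ β ∈ S, β ≠ α → 0 < D β := by
    intro β hβ hβα
    rw [hD]
    linarith [h β hβ hβα]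
  have hDn : ∀ β ∈ S, 0 ≤ D β := by
    intro β hβ
    by_cases hβα : β = α
    · rw [hD, hβα, sub_self]
    · exact (hD0 β hβ hβα).le
  have hEα : E α = 0 := by rw [hE, sub_self]
  have hEα' : E α' < 0 := by
    rw [hE]
    linarith [h' α hα hne]
  have hNne : (S.filter (fun β => E β < 0)).Nonempty := ⟨α', mem_filter.2 ⟨hα', hEα'⟩⟩
  obtain ⟨β, hβN, hβmin⟩ := exists_min_image (S.filter (fun β => E β < 0))
    (fun β => D β / (D β - E β)) hNne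
  obtain ⟨hβS, hEβ⟩ := mem_filter.1 hβN
  have hβα : β ≠ α := by
    rintro rfl
    linarith
  have hDβ := hD0 β hβS hβα
  have hpos : 0 < D β - E β := by linarith
  obtain ⟨θ, hθ⟩ : ∃ θ : ℚ, θ = D β / (D β - E β) := ⟨_, rfl⟩
  have hθmul : θ * (D β - E β) = D β := by
    rw [hθ]
    exact div_mul_cancel₀ _ hpos.ne'
  have hθ0 : 0 < θ := by
    rw [hθ]
    exact div_pos hDβ hpos
  have hθ1 : θ < 1 := by
    rw [hθ, div_lt_one hpos]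
    linarith
  refine ⟨θ, hθ0, hθ1, α, hα, β, hβS, hβα.symm, ?_, ?_⟩
  · rw [hg, hg]
    have h1 := hD β
    have h2 := hE β
    nlinarith [hθmul]
  · intro δ hδ
    rw [hg, hg]
    have h1 := hD δ
    have h2 := hE δ
    have h3 := hDn δ hδ
    have hkey : 0 ≤ (1 - θ) * D δ + θ * E δ := by
      by_cases hEδ : E δ < 0
      · have h4 := hβmin δ (mem_filter.2 ⟨hδ, hEδ⟩)
        rw [← hθ] at h4
        have h5 : 0 < D δ - E δ := by linarith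
        rw [le_div_iff₀ h5] at h4
        linarith
      · have h4 : 0 ≤ E δ := not_lt.1 hEδ
        have h5 : 0 ≤ 1 - θ := by linarith
        positivity
    rw [h1, h2] at hkey
    linarith

end Pool.Agent.Lib.MP_4e7804_co
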