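import Mathlib
import Pool.Agent.Lib.MP_4e7804_co.Up.Latt
import Pool.Agent.Lib.MP_4e7804_co.Up.Hyp
import Pool.Agent.Lib.MP_4e7804_co.Up.GenEta
import Pool.Agent.Lib.MP_4e7804_co.Up.Sauer
import Pool.Agent.Lib.MP_4e7804_co.Up.Dirs
import Pool.Agent.Lib.MP_4e7804_co.Up.Segment

/-! MP_4e7804_co, upper bound, module MainU (200 lines): assembly.

PROOF of `card_le_hyps`. Let `S` be the image of `F.support` in `Fin n → ℝ` (`n = d + 1`), so
`newton F = convexHull ℝ S`. For every extreme point `α` let `y_α` be the rational direction of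
`exists_dir`. Let `Y` be the set of these `y_α` (cast to `ℝ`), `α ↦ y_α` is injective since `α` is the
only minimizer at `y_α`; `hnz` of `sign_count` holds by `exists_dir`. Suppose `α ≠ α'` are not
separated: for all `μ ∈ Hy` the numbers `μ·y_α`, `μ·y_α'` have the same sign. Let `δ > 0` be smaller
than all `|μ·y_α|`, `|μ·y_α'|`, `μ ∈ Hy`. For a large natural number `R`: `R δ > C`, and `α` is the
only minimizer of `ϕ β + β·(R y_α)` on the support, `α'` the only one of `ϕ β + β·(R y_α')`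
(`R (β·y_α - α·y_α) > ϕ α - ϕ β`, finitely many conditions). `tie_on_segment` gives `θ ∈ (0,1)` and
the tie at `z = (1-θ) R y_α + θ R y_α'`; by `htrop` there is `w` as in the hypothesis on `Hy`, so
there is `μ ∈ Hy` with `|μ·z| ≤ C`. But `μ·z = R ((1-θ) μ·y_α + θ μ·y_α')` has absolute value
`≥ R δ > C`. So `hsep` holds, and `sign_count` gives the bound.
PROOF of `upper_bound`. Let `(P, c, F)` be as in `IsVertexNumber`; `A i` from `exists_vertices`, `η`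
from `exists_eta`, `s0` from `exists_s0`, `s ≥ s0` with `GP`, `Hy, C` from `exists_hyps`
(`n = d + 1`), `ϕ` from `trop_subset` for the weights `η' i p = if p ∈ A i then η i p else 2`,
`tie_vertices`. With `T = ∑ v i`: `|types| ≤ 2^(2d+1) * 2 * 4^d * (T+1)^(d-1)`,
`|Hy| + 1 ≤ d + 2 + 2^(d+1) |types| ≤ K (T+1)^(d-1)` and
`N ≤ 2 (|Hy| + 1)^d ≤ 2 K^d (T+1)^((d-1) d)`. -/

set_option autoImplicit false

open Finset

namespace Pool.Agent.Lib.MP_4e7804_co

/-- For large `R` the vertex `a` is the only minimizer of `ϕ β + β·(R y)`. -/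
theorem MainU_large {m : ℕ} (S : Finset (Fin m →₀ ℕ)) (ϕ : (Fin m →₀ ℕ) → ℚ) (y : Fin m → ℚ)
    (a : Fin m →₀ ℕ)
    (h : ∀ β ∈ S, β ≠ a → ∑ i, (a i : ℚ) * y i < ∑ i, (β i : ℚ) * y i) :
    ∀ᶠ R : ℕ in Filter.atTop, ∀ β ∈ S, β ≠ a →
      ϕ a + ∑ i, (a i : ℚ) * ((R : ℚ) * y i) < ϕ β + ∑ i, (β i : ℚ) * ((R : ℚ) * y i) := by
  rw [Filter.eventually_all_finset]
  intro β hβ
  by_cases hne : β = a
  · exact Filter.Eventually.of_forall (fun R h' => absurd hne h')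
  · have he := h β hβ hne
    have hpos : 0 < ∑ i, (β i : ℚ) * y i - ∑ i, (a i : ℚ) * y i := sub_pos.mpr he
    obtain ⟨N, hN⟩ := exists_nat_gt ((ϕ a - ϕ β) / (∑ i, (β i : ℚ) * y i - ∑ i, (a i : ℚ) * y i))
    rw [Filter.eventually_atTop]
    refine ⟨N, fun R hR _ => ?_⟩
    have hR' : (N : ℚ) ≤ R := by exact_mod_cast hR
    have h1 : ϕ a - ϕ β < (R : ℚ) * (∑ i, (β i : ℚ) * y i - ∑ i, (a i : ℚ) * y i) := by
      rw [div_lt_iff₀ hpos] at hN
      exact lt_of_lt_of_le hN (mul_le_mul_of_nonneg_right hR' hpos.le)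
    have h2 : ∀ b : Fin m →₀ ℕ, ∑ i, (b i : ℚ) * ((R : ℚ) * y i) =
        (R : ℚ) * ∑ i, (b i : ℚ) * y i := by
      intro b
      rw [Finset.mul_sum]
      apply Finset.sum_congr rfl
      intro i _
      ring
    rw [h2, h2]
    linarith

/-- a positive lower bound of finitely many nonzero numbers -/
theorem MainU_delta {α : Type*} (S : Finset α) (f : α → ℝ) (hf : ∀ a ∈ S, f a ≠ 0) :
    ∃ δ : ℝ, 0 < δ ∧ ∀ a ∈ S, δ ≤ |f a| := by
  classical
  by_cases hS : S.Nonempty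
  · obtain ⟨g, hg, hmin⟩ := Finset.exists_min_image S (fun a => |f a|) hS
    exact ⟨|f g|, abs_pos.mpr (hf g hg), hmin⟩
  · rw [Finset.not_nonempty_iff_eq_empty] at hS
    refine ⟨1, one_pos, fun a ha => ?_⟩
    rw [hS] at ha
    exact absurd ha (Finset.notMem_empty _)

theorem MainU_abs {x y t : ℝ} (h : 0 < x * y) (h0 : 0 ≤ t) (h1 : t ≤ 1) {δ : ℝ}
    (hx : δ ≤ |x|) (hy : δ ≤ |y|) : δ ≤ |(1 - t) * x + t * y| := by
  rcases lt_trichotomy x 0 with hx0 | hx0 | hx0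
  · have hy0 : y < 0 := by
      by_contra hcon
      have := mul_nonpos_of_nonpos_of_nonneg hx0.le (not_lt.mp hcon)
      linarith
    rw [abs_of_neg hx0] at hx
    rw [abs_of_neg hy0] at hy
    have e : (1 - t) * x + t * y ≤ -δ := by nlinarith
    calc δ ≤ -((1 - t) * x + t * y) := by linarith
      _ ≤ |(1 - t) * x + t * y| := neg_le_abs _
  · rw [hx0, zero_mul] at h
    exact absurd h (lt_irrefl _)
  · have hy0 : 0 < y := by
      by_contra hcon
      have := mul_nonpos_of_nonneg_of_nonpos hx0.le (not_lt.mp hcon)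
      linarith
    rw [abs_of_pos hx0] at hx
    rw [abs_of_pos hy0] at hy
    have e : δ ≤ (1 - t) * x + t * y := by nlinarith
    exact e.trans (le_abs_self _)

theorem card_le_hyps {d : ℕ} (F : MvPolynomial (Fin (d + 1)) ℂ) (Hy : Finset (Fin (d + 1) → ℝ))
    (C : ℝ) (h1 : ∀ i, Pi.single i 1 ∈ Hy) (h2 : ∀ μ ∈ Hy, μ ≠ 0)
    (ϕ : (Fin (d + 1) →₀ ℕ) → ℚ)
    (htrop : ∀ z : Fin (d + 1) → ℚ,
      (∃ α ∈ F.support, ∃ β ∈ F.support, α ≠ β ∧
        ϕ α + ∑ i, (α i : ℚ) * z i = ϕ β + ∑ i, (β i : ℚ) * z i ∧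
        ∀ γ ∈ F.support, ϕ α + ∑ i, (α i : ℚ) * z i ≤ ϕ γ + ∑ i, (γ i : ℚ) * z i) →
      ∃ μ ∈ Hy, |∑ i, μ i * ((z i : ℚ) : ℝ)| ≤ C) :
    numVertices (newton F) ≤ 2 * (Hy.card + 1) ^ d := by
  classical
  set φ : (Fin (d + 1) →₀ ℕ) → (Fin (d + 1) → ℝ) := fun a i => (a i : ℝ) with hφ
  have hφinj : Function.Injective φ := by
    intro a b hab
    ext i
    have := congrFun hab i
    simp only [hφ] at this
    exact_mod_cast this
  set S : Finset (Fin (d + 1) → ℝ) := F.support.image φ with hS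
  have hnewt : newton F = convexHull ℝ (S : Set (Fin (d + 1) → ℝ)) := by
    unfold newton
    rw [hS, Finset.coe_image]
  have hdir : ∀ α : Fin (d + 1) → ℝ, ∃ y : Fin (d + 1) → ℚ,
      α ∈ (newton F).extremePoints ℝ → α ∈ S ∧
        (∀ β ∈ S, β ≠ α → ∑ i, α i * (y i : ℝ) < ∑ i, β i * (y i : ℝ)) ∧
        ∀ μ ∈ Hy, ∑ i, μ i * (y i : ℝ) ≠ 0 := by
    intro α
    by_cases hα : α ∈ (newton F).extremePoints ℝ
    · rw [hnewt] at hα
      obtain ⟨h3, y, h4, h5⟩ := exists_dir S Hy h2 α hα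
      exact ⟨y, fun _ => ⟨h3, h4, h5⟩⟩
    · exact ⟨0, fun h => absurd h hα⟩
  choose Yf hYf using hdir
  have hEsub : (newton F).extremePoints ℝ ⊆ (S : Set (Fin (d + 1) → ℝ)) :=
    fun α hα => (hYf α hα).1
  have hEfin : ((newton F).extremePoints ℝ).Finite := S.finite_toSet.subset hEsub
  set E := hEfin.toFinset with hE
  have hEm : ∀ α, α ∈ E ↔ α ∈ (newton F).extremePoints ℝ := fun α => by
    rw [hE, Set.Finite.mem_toFinset]
  set yr : (Fin (d + 1) → ℝ) → (Fin (d + 1) → ℝ) := fun α i => ((Yf α i : ℚ) : ℝ) with hyr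
  have hinj : Set.InjOn yr (E : Set (Fin (d + 1) → ℝ)) := by
    intro α hα α' hα' heq
    by_contra hne
    have e1 := (hYf α ((hEm α).mp hα)).2.1 α' (hYf α' ((hEm α').mp hα')).1 (Ne.symm hne)
    have e2 := (hYf α' ((hEm α').mp hα')).2.1 α (hYf α ((hEm α).mp hα)).1 hne
    have e3 : ∀ i, ((Yf α i : ℚ) : ℝ) = ((Yf α' i : ℚ) : ℝ) := fun i => congrFun heq i
    simp only [e3] at e1
    linarith
  have hnum : numVertices (newton F) = (E.image yr).card := by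
    rw [Finset.card_image_of_injOn hinj]
    exact Set.ncard_eq_toFinset_card _ hEfin
  rw [hnum]
  apply sign_count Hy (h1 0)
  · intro μ hμ y hy
    obtain ⟨α, hα, rfl⟩ := Finset.mem_image.mp hy
    exact (hYf α ((hEm α).mp hα)).2.2 μ hμ
  · intro y hy y' hy' hyne
    obtain ⟨α, hα, rfl⟩ := Finset.mem_image.mp hy
    obtain ⟨α', hα', rfl⟩ := Finset.mem_image.mp hy'
    have hne : α ≠ α' := fun h => hyne (by rw [h])
    obtain ⟨hαS, hα1, hα2⟩ := hYf α ((hEm α).mp hα)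
    obtain ⟨hαS', hα1', hα2'⟩ := hYf α' ((hEm α').mp hα')
    by_contra hcon
    push Not at hcon
    have hsame : ∀ μ ∈ Hy, 0 < (∑ i, μ i * yr α i) * (∑ i, μ i * yr α' i) := by
      intro μ hμ
      exact lt_of_le_of_ne (hcon μ hμ) (Ne.symm (mul_ne_zero (hα2 μ hμ) (hα2' μ hμ)))
    obtain ⟨δ1, hδ1, hδ1'⟩ := MainU_delta Hy (fun μ => ∑ i, μ i * yr α i) hα2
    obtain ⟨δ2, hδ2, hδ2'⟩ := MainU_delta Hy (fun μ => ∑ i, μ i * yr α' i) hα2'
    obtain ⟨a, ha, haα⟩ := Finset.mem_image.mp hαS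
    obtain ⟨a', ha', haα'⟩ := Finset.mem_image.mp hαS'
    have haa : a ≠ a' := by
      intro h
      apply hne
      rw [← haα, ← haα', h]
    have hmin : ∀ β ∈ F.support, β ≠ a →
        ∑ i, (a i : ℚ) * Yf α i < ∑ i, (β i : ℚ) * Yf α i := by
      intro β hβ hβa
      have e := hα1 (φ β) (Finset.mem_image_of_mem _ hβ)
        (fun h => hβa (hφinj (h.trans haα.symm)))
      rw [← haα] at e
      have e' : ((∑ i, (a i : ℚ) * Yf (φ a) i : ℚ) : ℝ) < ((∑ i, (β i : ℚ) * Yf (φ a) i : ℚ) : ℝ) := by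
        push_cast
        exact e
      rw [← haα]
      exact_mod_cast e'
    have hmin' : ∀ β ∈ F.support, β ≠ a' →
        ∑ i, (a' i : ℚ) * Yf α' i < ∑ i, (β i : ℚ) * Yf α' i := by
      intro β hβ hβa
      have e := hα1' (φ β) (Finset.mem_image_of_mem _ hβ)
        (fun h => hβa (hφinj (h.trans haα'.symm)))
      rw [← haα'] at e
      have e' : ((∑ i, (a' i : ℚ) * Yf (φ a') i : ℚ) : ℝ) <
          ((∑ i, (β i : ℚ) * Yf (φ a') i : ℚ) : ℝ) := by
        push_cast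
        exact e
      rw [← haα']
      exact_mod_cast e'
    have hev1 := MainU_large F.support ϕ (Yf α) a hmin
    have hev2 := MainU_large F.support ϕ (Yf α') a' hmin'
    have hev3 : ∀ᶠ R : ℕ in Filter.atTop, C < (R : ℝ) * min δ1 δ2 := by
      have hpos : 0 < min δ1 δ2 := lt_min hδ1 hδ2
      obtain ⟨N, hN⟩ := exists_nat_gt (C / min δ1 δ2)
      rw [Filter.eventually_atTop]
      refine ⟨N, fun R hR => ?_⟩
      have hR' : (N : ℝ) ≤ R := by exact_mod_cast hR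
      rw [div_lt_iff₀ hpos] at hN
      exact lt_of_lt_of_le hN (mul_le_mul_of_nonneg_right hR' hpos.le)
    obtain ⟨R, hR1, hR2, hR3⟩ := (hev1.and (hev2.and hev3)).exists
    obtain ⟨θ, hθ0, hθ1, β, hβ, γ, hγ, hβγ, htie, hle⟩ :=
      tie_on_segment F.support ϕ (fun i => (R : ℚ) * Yf α i) (fun i => (R : ℚ) * Yf α' i)
        a a' ha ha' haa hR1 hR2
    obtain ⟨μ, hμ, hμC⟩ := htrop
      (fun i => (1 - θ) * ((R : ℚ) * Yf α i) + θ * ((R : ℚ) * Yf α' i))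
      ⟨β, hβ, γ, hγ, hβγ, htie, hle⟩
    have e1 : ∑ i, μ i * (((1 - θ) * ((R : ℚ) * Yf α i) + θ * ((R : ℚ) * Yf α' i) : ℚ) : ℝ) =
        (R : ℝ) * ((1 - (θ : ℝ)) * (∑ i, μ i * yr α i) + (θ : ℝ) * (∑ i, μ i * yr α' i)) := by
      rw [Finset.mul_sum, Finset.mul_sum, ← Finset.sum_add_distrib, Finset.mul_sum]
      apply Finset.sum_congr rfl
      intro i _
      simp only [hyr]
      push_cast
      ring
    have hθ0' : (0 : ℝ) ≤ (θ : ℝ) := by exact_mod_cast hθ0.le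
    have hθ1' : (θ : ℝ) ≤ 1 := by exact_mod_cast hθ1.le
    have e2 := MainU_abs (hsame μ hμ) hθ0' hθ1' (δ := min δ1 δ2)
      ((min_le_left _ _).trans (hδ1' μ hμ)) ((min_le_right _ _).trans (hδ2' μ hμ))
    have hR0 : (0 : ℝ) ≤ (R : ℝ) := Nat.cast_nonneg R
    have e3 : (R : ℝ) * min δ1 δ2 ≤
        |(R : ℝ) * ((1 - (θ : ℝ)) * (∑ i, μ i * yr α i) + (θ : ℝ) * (∑ i, μ i * yr α' i))| := by
      rw [abs_mul, abs_of_nonneg hR0]
      exact mul_le_mul_of_nonneg_left e2 hR0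
    rw [e1] at hμC
    linarith

theorem upper_bound (d : ℕ) (hd : 1 ≤ d) :
    ∃ K : ℕ, ∀ (v : Fin (d + 1) → ℕ) (N : ℕ), IsVertexNumber v N →
      N ≤ K * (∑ i, v i + 1) ^ (d * (d - 1)) := by
  set K0 : ℕ := d + 2 + 2 ^ (d + 1) * (2 ^ ((d + 1) + d) * (2 * 4 ^ d)) with hK0
  refine ⟨2 * K0 ^ d, fun v N hvN => ?_⟩
  obtain ⟨P, c, F, hP, hv, hc, hF, hN⟩ := hvN
  have hex := fun i => exists_vertices (P i) (hP i)
  choose hfin hne A hA hcard hPA using hex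
  obtain ⟨η, hη, hηs⟩ := exists_eta A
  obtain ⟨s0, hs0⟩ := exists_s0 A (fun i a => (η i a : ℝ))
  obtain ⟨s, hs, hspos, hGP⟩ := hηs s0
  obtain ⟨Hy, C, hHyc, hHy1, hHy2, hHy3⟩ :=
    exists_hyps (Nat.lt_succ_self d) hd hspos hA hGP (hs0 s hs)
  obtain ⟨ϕ, hϕ⟩ := trop_subset P hfin hne c hc F hF (fun i p => if p ∈ A i then η i p else 2)
  have hmain := card_le_hyps F Hy C hHy1 hHy2 ϕ (by
    intro z hz
    obtain ⟨w, hw⟩ := hϕ z hz
    exact hHy3 (fun k => (w k : ℝ)) (fun i => ((z i : ℚ) : ℝ))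
      (fun i => tie_vertices P A hA hPA η hη z w hw i))
  rw [hN] at hmain
  have hT := (card_types hd hspos hA hGP).2
  have hsum : ∑ i, (A i).card = ∑ i, v i :=
    Finset.sum_congr rfl (fun i _ => (hcard i).trans (hv i))
  rw [hsum] at hT
  set T := ∑ i, v i + 1 with hTdef
  have hT1 : 1 ≤ T ^ (d - 1) := Nat.one_le_pow _ _ (by omega)
  have h1 : Hy.card + 1 ≤ K0 * T ^ (d - 1) := by
    calc Hy.card + 1 ≤ (d + 1) + 2 ^ (d + 1) *
          (types A (fun i a => (η i a : ℝ)) s).ncard + 1 := Nat.add_le_add_right hHyc 1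
      _ ≤ (d + 1) + 2 ^ (d + 1) *
          (2 ^ ((d + 1) + d) * (2 * 4 ^ d * T ^ (d - 1))) + 1 := by
          have := Nat.mul_le_mul_left (2 ^ (d + 1)) hT
          omega
      _ = (d + 2) * 1 + 2 ^ (d + 1) * (2 ^ ((d + 1) + d) * (2 * 4 ^ d)) * T ^ (d - 1) := by ring
      _ ≤ (d + 2) * T ^ (d - 1) +
          2 ^ (d + 1) * (2 ^ ((d + 1) + d) * (2 * 4 ^ d)) * T ^ (d - 1) :=
          Nat.add_le_add_right (Nat.mul_le_mul_left _ hT1) _
      _ = K0 * T ^ (d - 1) := by rw [hK0]; ring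
  calc N ≤ 2 * (Hy.card + 1) ^ d := hmain
    _ ≤ 2 * (K0 * T ^ (d - 1)) ^ d := Nat.mul_le_mul_left _ (Nat.pow_le_pow_left h1 d)
    _ = 2 * K0 ^ d * T ^ (d * (d - 1)) := by
        rw [mul_pow, ← pow_mul, mul_comm (d - 1) d, mul_assoc]

end Pool.Agent.Lib.MP_4e7804_co
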